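import Pool.Agent.UDG.Defs

/-!
Basic lemmas.
-/

namespace Pool.Agent.UDG

open Pool.Agent.AreaTri

variable {S : Finset Pt} {G T : SimpleGraph Pt}

theorem mem_dz {e : Pt × Pt} : e ∈ dz S G ↔ (e.1 ∈ S ∧ e.2 ∈ S) ∧ G.Adj e.1 e.2 := by
  classical
  unfold dz
  rw [Finset.mem_filter, Finset.mem_product]

theorem mem_dz_plane (hpl : IsPlane S T) {e : Pt × Pt} : e ∈ dz S T ↔ T.Adj e.1 e.2 := by
  rw [mem_dz]
  exact ⟨fun h => h.2, fun h => ⟨⟨hpl.mem _ _ h, hpl.mem _ _ h.symm⟩, h⟩⟩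

theorem mem_dz_drawing {k : ℕ} (hD : IsDrawing k S G) {e : Pt × Pt} : e ∈ dz S G ↔ G.Adj e.1 e.2 := by
  rw [mem_dz]
  exact ⟨fun h => h.2, fun h => ⟨⟨hD.mem _ _ h, hD.mem _ _ h.symm⟩, h⟩⟩

theorem mem_dz_kept {k : ℕ} (hD : IsDrawing k S G) {e : Pt × Pt} :
    e ∈ dz S (kept G) ↔ (kept G).Adj e.1 e.2 := by
  rw [mem_dz]
  exact ⟨fun h => h.2, fun h => ⟨⟨hD.mem _ _ h.1, hD.mem _ _ h.1.symm⟩, h⟩⟩

theorem darts_sub (hpl : IsPlane S T) : darts S T ⊆ dz S T := by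
  intro e he
  exact (mem_dz_plane hpl).2 (third_spec hpl he).1.ab

theorem mem_cor {k : ℕ} (hD : IsDrawing k S G) {c : Pt × Pt × Pt × Pt} :
    c ∈ cor S G ↔ PX G c.1 c.2.1 c.2.2.1 c.2.2.2 := by
  classical
  unfold cor
  rw [Finset.mem_filter]
  simp only [Finset.mem_product]
  exact ⟨fun h => h.2, fun h => ⟨⟨hD.mem _ _ h.ab, hD.mem _ _ h.ab.symm, hD.mem _ _ h.cd,
    hD.mem _ _ h.cd.symm⟩, h⟩⟩

theorem mem_sc {k : ℕ} (hD : IsDrawing k S G) {c : Pt × Pt × Pt × Pt} :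
    c ∈ sc S G ↔ PX G c.1 c.2.1 c.2.2.1 c.2.2.2 ∧ dsq c.1 c.2.2.1 < 1 := by
  classical
  unfold sc
  rw [Finset.mem_filter, mem_cor hD]

theorem mem_kk {k : ℕ} (hD : IsDrawing k S G) {c : Pt × Pt × Pt × Pt} :
    c ∈ kk S G ↔ PX G c.1 c.2.1 c.2.2.1 c.2.2.2 ∧ (kept G).Adj c.1 c.2.1 := by
  classical
  unfold kk
  rw [Finset.mem_filter, mem_cor hD]

theorem mem_nice {c : Pt × Pt × Pt × Pt} : c ∈ nice S G T ↔
    c ∈ kk S G ∧ ¬ Exc c ∧ Good S G T (c.1, c.2.1) ∧ Good S G T (c.2.1, c.1) := by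
  classical
  unfold nice
  rw [Finset.mem_filter]

theorem mem_gd {e : Pt × Pt} : e ∈ gd S G ↔ e ∈ dz S (kept G) ∨ ∃ k ∈ sc S G, del S k = e := by
  classical
  unfold gd
  rw [Finset.mem_union, Finset.mem_image]

theorem mem_nd {e : Pt × Pt} : e ∈ nd S G T ↔ e ∈ dz S T ∧ e ∉ gd S G := by
  classical
  unfold nd
  rw [Finset.mem_sdiff]

theorem mem_good {e : Pt × Pt} : e ∈ good S G T ↔ Good S G T e := by
  classical
  unfold good
  rw [Finset.mem_filter]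
  exact ⟨fun h => h.2, fun h => ⟨h.1, h⟩⟩

theorem mem_bd {e : Pt × Pt} : e ∈ bd S G T ↔ Good S G T e ∧ ¬ Good S G T (e.2, e.1) := by
  classical
  unfold bd
  rw [Finset.mem_filter, mem_good]

theorem mem_fat {s t : ℝ} {e : Pt × Pt} :
    e ∈ fat S G T s t ↔ Good S G T e ∧ HasGrid S T s t e := by
  classical
  unfold fat
  rw [Finset.mem_filter, mem_good]

theorem Good.nxt (hpl : IsPlane S T) {e : Pt × Pt} (h : Good S G T e) :
    Good S G T (AreaTri.nxt S T e) :=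
  ⟨nxt_mem hpl h.1, h.2.2.1, h.2.2.2, by rw [nxt3 hpl h.1]; exact h.2.1⟩

theorem Ins.rot {p q r z : Pt} (h : Ins p q r z) : Ins q r p z := ⟨h.2.1, h.2.2, h.1⟩

theorem HasGrid.nxt (hpl : IsPlane S T) {s t : ℝ} {e : Pt × Pt} (he : e ∈ darts S T)
    (h : HasGrid S T s t e) : HasGrid S T s t (AreaTri.nxt S T e) := by
  obtain ⟨i, j, h⟩ := h
  obtain ⟨hf, hpos⟩ := third_spec hpl he
  refine ⟨i, j, ?_⟩
  have := third_eq hpl hf.rot (by rw [orient_cyc]; exact hpos)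
  unfold AreaTri.nxt
  simp only
  rw [this]
  exact h.rot

theorem fat_nxt (hpl : IsPlane S T) {s t : ℝ} {e : Pt × Pt} (h : e ∈ fat S G T s t) :
    nxt S T e ∈ fat S G T s t := by
  rw [mem_fat] at h ⊢
  exact ⟨h.1.nxt hpl, h.2.nxt hpl h.1.1⟩

theorem dsq_comm (p q : Pt) : dsq p q = dsq q p := by unfold dsq; ring

theorem PX.ca {a b c d : Pt} (h : PX G a b c d) : c ≠ a := by
  rintro rfl; have := h.c_left; simp at this
theorem PX.cb {a b c d : Pt} (h : PX G a b c d) : c ≠ b := by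
  rintro rfl; have := h.c_left; simp at this
theorem PX.da {a b c d : Pt} (h : PX G a b c d) : d ≠ a := by
  rintro rfl; have := h.d_right; simp at this
theorem PX.db {a b c d : Pt} (h : PX G a b c d) : d ≠ b := by
  rintro rfl; have := h.d_right; simp at this

theorem PX.ne {a b c d : Pt} (h : PX G a b c d) : s(a, b) ≠ s(c, d) := by
  intro he
  rcases Sym2.eq_iff.1 he with ⟨h1, _⟩ | ⟨h1, _⟩
  · exact h.ca h1.symm
  · exact h.da h1.symm

/-- Plücker relation for four vectors starting at `a` -/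
theorem pluecker (a b v c u : Pt) : orient a b v * orient a c u =
    orient a b c * orient a v u - orient a b u * orient a v c := by
  unfold orient; ring

/-- moving along a segment -/
theorem on_mk (τ : ℝ) (z u : Pt) : On τ z u (z.1 + τ * (u.1 - z.1), z.2 + τ * (u.2 - z.2)) :=
  ⟨rfl, rfl⟩

/-- the part of an open segment between an interior point and one end -/
theorem oseg_toward {u w z y : Pt} (hz : z ∈ openSegment ℝ u w) (hy : y ∈ openSegment ℝ z u) :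
    y ∈ openSegment ℝ u w := by
  obtain ⟨τ, h0, h1, h⟩ := mem_oseg_on.1 hy
  exact On.toward hz h0.le h1 h

end Pool.Agent.UDG
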