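import Pool.Agent.UDG.Crs

/-!
Module Kep: kept edges and their number.
-/

namespace Pool.Agent.UDG

open Pool.Agent.AreaTri

variable {S : Finset Pt} {G T : SimpleGraph Pt}

/-- One of two crossing edges is kept: `WellOrderingRel` is trichotomous and `px_unique`. -/
theorem kept_or (hD : IsDrawing 1 S G) {a b c d : Pt} (h : PX G a b c d) :
    (kept G).Adj a b ∨ (kept G).Adj c d := by
  rcases trichotomous_of WellOrderingRel s(a, b) s(c, d) with hw | hw | hw
  · left
    refine ⟨h.ab, ?_⟩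
    intro c' d' h'
    obtain ⟨rfl, rfl⟩ := px_unique hD h h'
    exact hw
  · exact absurd hw h.ne
  · right
    refine ⟨h.cd, ?_⟩
    intro b' a' h'
    obtain ⟨rfl, rfl⟩ := px_unique hD h.rot h'
    rw [Sym2.eq_swap (a := b)]
    exact hw

/-- `WellOrderingRel` is asymmetric; use `PX.rot`. -/
theorem kept_not_both {a b c d : Pt} (h : PX G a b c d) :
    ¬ ((kept G).Adj a b ∧ (kept G).Adj c d) := by
  rintro ⟨h1, h2⟩
  have e1 := h1.2 c d h
  have e2 := h2.2 b a h.rot
  rw [Sym2.eq_swap (a := b)] at e2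
  exact asymm_of WellOrderingRel e1 e2

/-- By definition, an edge which is not crossed is kept; so an edge which is not kept is crossed. -/
theorem exists_px_of_not_kept {a b : Pt} (h : G.Adj a b) (hk : ¬ (kept G).Adj a b) :
    ∃ c d, PX G a b c d := by
  by_contra hcon
  push Not at hcon
  exact hk ⟨h, fun c d hx => absurd hx (hcon c d)⟩

/-- `px_of_meet` and `kept_not_both`. -/
theorem kept_plane (hD : IsDrawing 1 S G) : IsPlane S (kept G) := by
  refine ⟨fun p q h => hD.mem _ _ h.1, fun p q h => hD.free _ _ h.1, ?_⟩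
  intro p q r s hpq hrs hne
  rw [Set.disjoint_left]
  intro z hz hz'
  rcases px_of_meet hD hpq.1 hrs.1 hne hz hz' with h | h
  · exact kept_not_both h ⟨hpq, hrs⟩
  · exact kept_not_both h ⟨hpq, hrs.symm⟩

private theorem Kep_card (hD : IsDrawing 1 S G) :
    (kk S G).card = (cor S G \ kk S G).card := by
  classical
  refine Finset.card_nbij' (fun k => (k.2.2.1, k.2.2.2, k.2.1, k.1))
    (fun k => (k.2.2.2, k.2.2.1, k.1, k.2.1)) ?_ ?_ ?_ ?_
  · rintro ⟨a, b, c, d⟩ hk
    have hk' := (mem_kk hD).1 (Finset.mem_coe.1 hk)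
    simp only at hk'
    apply Finset.mem_coe.2
    rw [Finset.mem_sdiff]
    refine ⟨(mem_cor hD).2 hk'.1.rot, ?_⟩
    intro hcon
    have hc := (mem_kk hD).1 hcon
    simp only at hc
    exact kept_not_both hk'.1 ⟨hk'.2, hc.2⟩
  · rintro ⟨a, b, c, d⟩ hk
    have hk' := Finset.mem_sdiff.1 (Finset.mem_coe.1 hk)
    have h1 := (mem_cor hD).1 hk'.1
    simp only at h1
    apply Finset.mem_coe.2
    have h3 : PX G d c a b := h1.rot.rot.rot
    refine (mem_kk hD).2 ⟨h3, ?_⟩
    simp only
    rcases kept_or hD h3 with h4 | h4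
    · exact h4
    · exact absurd ((mem_kk hD).2 ⟨h1, h4⟩) hk'.2
  · rintro ⟨a, b, c, d⟩ _
    rfl
  · rintro ⟨a, b, c, d⟩ _
    rfl

private theorem Kep_sub : kk S G ⊆ cor S G := by
  classical
  unfold kk
  exact Finset.filter_subset _ _

/-- The map `(a, b, c, d) ↦ (c, d, b, a)` is a permutation of `cor S G` (`PX.rot`; it has order 4)
that maps `kk S G` onto its complement (`kept_or`, `kept_not_both`). -/
theorem card_kk (hD : IsDrawing 1 S G) : 2 * (kk S G).card = (cor S G).card := by
  classical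
  have h1 := Kep_card hD
  have h2 := Finset.card_sdiff_add_card_eq_card (Kep_sub (S := S) (G := G))
  omega

/-- `cor S G \ kk S G` has also `|cor| / 2` elements, and `(a, b, c, d) ↦ (a, b)` is a bijection from it
onto `dz S G \ dz S (kept G)` (`px_unique`, `exists_px_of_not_kept`). -/
theorem card_cor (hD : IsDrawing 1 S G) :
    (cor S G).card + 2 * (dz S (kept G)).card = 2 * (dz S G).card := by
  classical
  have h1 := Kep_card hD
  have h2 := Finset.card_sdiff_add_card_eq_card (Kep_sub (S := S) (G := G))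
  have hsub : dz S (kept G) ⊆ dz S G := by
    intro e he
    exact (mem_dz_drawing hD).2 ((mem_dz_kept hD).1 he).1
  have h3 := Finset.card_sdiff_add_card_eq_card hsub
  have h4 : (cor S G \ kk S G).card = (dz S G \ dz S (kept G)).card := by
    refine Finset.card_bij (fun k _ => (k.1, k.2.1)) ?_ ?_ ?_
    · rintro ⟨a, b, c, d⟩ hk
      have hk' := Finset.mem_sdiff.1 hk
      have h1 := (mem_cor hD).1 hk'.1
      simp only at h1
      rw [Finset.mem_sdiff]
      refine ⟨(mem_dz_drawing hD).2 h1.ab, ?_⟩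
      intro hcon
      exact hk'.2 ((mem_kk hD).2 ⟨h1, (mem_dz_kept hD).1 hcon⟩)
    · rintro ⟨a, b, c, d⟩ hk ⟨a', b', c', d'⟩ hk' heq
      have g1 := (mem_cor hD).1 (Finset.mem_sdiff.1 hk).1
      have g2 := (mem_cor hD).1 (Finset.mem_sdiff.1 hk').1
      simp only [Prod.mk.injEq] at g1 g2 heq
      obtain ⟨rfl, rfl⟩ := heq
      obtain ⟨rfl, rfl⟩ := px_unique hD g1 g2
      rfl
    · rintro ⟨a, b⟩ he
      have he' := Finset.mem_sdiff.1 he
      have hab := (mem_dz_drawing hD).1 he'.1
      have hnk : ¬ (kept G).Adj a b := fun hcon => he'.2 ((mem_dz_kept hD).2 hcon)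
      obtain ⟨c, d, hx⟩ := exists_px_of_not_kept hab hnk
      refine ⟨(a, b, c, d), ?_, rfl⟩
      rw [Finset.mem_sdiff]
      refine ⟨(mem_cor hD).2 hx, ?_⟩
      intro hcon
      exact hnk ((mem_kk hD).1 hcon).2
  omega

end Pool.Agent.UDG
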