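import Pool.Agent.UDG.NCr
import Pool.Agent.UDG.Kep

/-!
Module Pln: the plane graph and its triangulation.
-/

namespace Pool.Agent.UDG

open Pool.Agent.AreaTri

variable {S : Finset Pt} {G T : SimpleGraph Pt}

/-- The kept edges are edges of length one; the segments of short corners are shorter
(`av_short`). -/
theorem gd_len (hD : IsDrawing 1 S G) {e : Pt × Pt} (he : e ∈ gd S G) : dsq e.1 e.2 ≤ 1 := by
  rcases mem_gd.1 he with h | ⟨⟨a, b, c, d⟩, hk, rfl⟩
  · exact (hD.unit _ _ ((mem_dz_kept hD).1 h).1).le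
  · obtain ⟨hx, hs⟩ := (mem_sc hD).1 hk
    have := av_short hD hx hs (vf_spec hD hx)
    unfold del
    simp only
    rw [dsq_comm]
    exact this.le

/-- the two sorts of directed edges -/
theorem gd_cases (hD : IsDrawing 1 S G) {e : Pt × Pt} (he : e ∈ gd S G) :
    (kept G).Adj e.1 e.2 ∨ ∃ a b c d v, PX G a b c d ∧ dsq a c < 1 ∧ AV S a b c d v ∧
      e = (v, a) := by
  rcases mem_gd.1 he with h | ⟨⟨a, b, c, d⟩, hk, rfl⟩
  · exact Or.inl ((mem_dz_kept hD).1 h)
  · obtain ⟨hx, hs⟩ := (mem_sc hD).1 hk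
    exact Or.inr ⟨a, b, c, d, _, hx, hs, vf_spec hD hx, rfl⟩

theorem pg_cases (hD : IsDrawing 1 S G) {p q : Pt} (h : (pg S G).Adj p q) :
    (kept G).Adj p q ∨ ∃ a b c d v, PX G a b c d ∧ dsq a c < 1 ∧ AV S a b c d v ∧
      s(p, q) = s(a, v) := by
  rcases h.2 with h | h
  · rcases gd_cases hD h with h | ⟨a, b, c, d, v, h1, h2, h3, h4⟩
    · exact Or.inl h
    · refine Or.inr ⟨a, b, c, d, v, h1, h2, h3, ?_⟩
      rw [Prod.mk.injEq] at h4
      rw [h4.1, h4.2, Sym2.eq_swap]
  · rcases gd_cases hD h with h | ⟨a, b, c, d, v, h1, h2, h3, h4⟩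
    · exact Or.inl h.symm
    · refine Or.inr ⟨a, b, c, d, v, h1, h2, h3, ?_⟩
      rw [Prod.mk.injEq] at h4
      rw [h4.1, h4.2]

theorem oseg_congr {p q a v : Pt} (h : s(p, q) = s(a, v)) :
    openSegment ℝ p q = openSegment ℝ a v := by
  rcases Sym2.eq_iff.1 h with ⟨rfl, rfl⟩ | ⟨rfl, rfl⟩
  · rfl
  · exact openSegment_symm ℝ p q

/-- `kept_plane`, `nc1`, `nc2`, `av_free` (`mem_gd`, `mem_sc`, `vf_spec`). -/
theorem pg_plane (hD : IsDrawing 1 S G) : IsPlane S (pg S G) := by
  have hK := kept_plane hD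
  refine ⟨?_, ?_, ?_⟩
  · intro p q h
    rcases pg_cases hD h with h | ⟨a, b, c, d, v, h1, h2, h3, h4⟩
    · exact hK.mem _ _ h
    · rcases Sym2.eq_iff.1 h4 with ⟨rfl, rfl⟩ | ⟨rfl, rfl⟩
      · exact hD.mem _ _ h1.ab
      · exact h3.mem
  · intro p q h
    rcases pg_cases hD h with h | ⟨a, b, c, d, v, h1, h2, h3, h4⟩
    · exact hK.free _ _ h
    · rw [oseg_congr h4]
      exact av_free h1 h3
  · intro p q r s h h' hne
    rw [Set.disjoint_left]
    intro z hz hz'
    rcases pg_cases hD h with h | ⟨a, b, c, d, v, h1, h2, h3, h4⟩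
    · rcases pg_cases hD h' with h' | ⟨a', b', c', d', v', h1', h2', h3', h4'⟩
      · exact Set.disjoint_left.1 (hK.cross _ _ _ _ h h' hne) hz hz'
      · rw [oseg_congr h4'] at hz'
        exact nc1 hD h1' h2' h3' h.1 hz hz'
    · rw [oseg_congr h4] at hz
      rcases pg_cases hD h' with h' | ⟨a', b', c', d', v', h1', h2', h3', h4'⟩
      · exact nc1 hD h1 h2 h3 h'.1 hz' hz
      · rw [oseg_congr h4'] at hz'
        apply hne
        rw [h4, h4']
        exact nc2 hD h1 h2 h3 h1' h2' h3' hz hz'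

/-- A plane graph on a finite set is contained in a maximal one (there are only finitely many
graphs with all edges in `S`; or choose one with the largest number of edges, or Zorn). -/
theorem exists_triangulation {H : SimpleGraph Pt} (hH : IsPlane S H) :
    ∃ T, IsTriangulation S T ∧ H ≤ T := by
  classical
  have hfin : {T : SimpleGraph Pt | IsPlane S T}.Finite := by
    apply Set.Finite.of_finite_image (f := dz S)
    · exact Set.Finite.subset (Finset.finite_toSet (S ×ˢ S).powerset) (by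
        rintro _ ⟨T, _, rfl⟩
        rw [Finset.mem_coe, Finset.mem_powerset]
        exact Finset.filter_subset _ _)
    · intro T hT T' hT' h
      ext p q
      have h1 := mem_dz_plane (S := S) hT (e := (p, q))
      have h2 := mem_dz_plane (S := S) hT' (e := (p, q))
      rw [← h1, ← h2]
      have h : dz S T = dz S T' := h
      rw [h]
  obtain ⟨T, hle, hT⟩ := hfin.exists_le_maximal hH
  exact ⟨T, hT, hle⟩

theorem gd_sub (hD : IsDrawing 1 S G) (hT : IsTriangulation S T) (hle : pg S G ≤ T) :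
    gd S G ⊆ dz S T := by
  intro e he
  rw [mem_dz_plane hT.1]
  apply hle
  refine ⟨?_, Or.inl he⟩
  rcases gd_cases hD he with h | ⟨a, b, c, d, v, h1, h2, h3, rfl⟩
  · exact h.ne
  · exact av_ne h3

end Pool.Agent.UDG
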