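import Pool.Agent.UDG.Inj
import Pool.Agent.UDG.Pln

/-!
Module Bdc: counting bad darts.
-/

namespace Pool.Agent.UDG

open Pool.Agent.AreaTri

variable {S : Finset Pt} {G T : SimpleGraph Pt}

open Classical in
/-- `gd ⊆ dz S T` (`gd_sub`) and `card_gd`. -/
theorem dz_card (hD : IsDrawing 1 S G) (hT : IsTriangulation S T) (hle : pg S G ≤ T) :
    (dz S T).card = (dz S (kept G)).card + (sc S G).card + (nd S G T).card := by
  have h1 := gd_sub hD hT hle
  have h2 := card_gd (S := S) (G := G) hD
  unfold nd
  rw [← h2, add_comm, Finset.card_sdiff_add_card_eq_card h1]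

private theorem nxt_inj (hT : IsTriangulation S T) :
    Set.InjOn (nxt S T) (darts S T : Set (Pt × Pt)) := by
  intro e he f hf h
  have h1 := nxt3 hT.1 (Finset.mem_coe.1 he)
  have h2 := nxt3 hT.1 (Finset.mem_coe.1 hf)
  rw [← h1, ← h2, h]

private theorem nxt2_inj (hT : IsTriangulation S T) :
    Set.InjOn (fun e => nxt S T (nxt S T e)) (darts S T : Set (Pt × Pt)) := by
  intro e he f hf h
  have h1 := nxt3 hT.1 (Finset.mem_coe.1 he)
  have h2 := nxt3 hT.1 (Finset.mem_coe.1 hf)
  simp only at h
  rw [← h1, ← h2, h]

open Classical in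
private theorem card_A1 (hT : IsTriangulation S T) :
    ((darts S T).filter (fun e => nxt S T e ∈ nd S G T)).card ≤ (nd S G T).card := by
  refine Finset.card_le_card_of_injOn (nxt S T) ?_ ?_
  · intro e he
    exact (Finset.mem_filter.1 he).2
  · intro e he f hf h
    exact nxt_inj hT (Finset.mem_coe.2 (Finset.mem_filter.1 he).1)
      (Finset.mem_coe.2 (Finset.mem_filter.1 hf).1) h

open Classical in
private theorem card_A2 (hT : IsTriangulation S T) :
    ((darts S T).filter (fun e => nxt S T (nxt S T e) ∈ nd S G T)).card ≤ (nd S G T).card := by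
  refine Finset.card_le_card_of_injOn (fun e => nxt S T (nxt S T e)) ?_ ?_
  · intro e he
    exact (Finset.mem_filter.1 he).2
  · intro e he f hf h
    exact nxt2_inj hT (Finset.mem_coe.2 (Finset.mem_filter.1 he).1)
      (Finset.mem_coe.2 (Finset.mem_filter.1 hf).1) h

open Classical in
/-- For a dart `e` which is not good one of `e`, `nxt e`, `nxt (nxt e)` is in `nd`. `nxt` is injective on
darts (`nxt3`). -/
theorem bad_card (hT : IsTriangulation S T) :
    ((darts S T).filter (fun e => ¬ Good S G T e)).card ≤ 3 * (nd S G T).card := by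
  have hsub : (darts S T).filter (fun e => ¬ Good S G T e) ⊆
      (nd S G T) ∪ ((darts S T).filter (fun e => nxt S T e ∈ nd S G T) ∪
        (darts S T).filter (fun e => nxt S T (nxt S T e) ∈ nd S G T)) := by
    intro e he
    obtain ⟨hd, hg⟩ := Finset.mem_filter.1 he
    have hd1 := nxt_mem hT.1 hd
    have hd2 := nxt_mem hT.1 hd1
    rw [Finset.mem_union, Finset.mem_union, Finset.mem_filter, Finset.mem_filter, mem_nd, mem_nd,
      mem_nd]
    by_contra hcon
    push Not at hcon
    apply hg
    refine ⟨hd, ?_, ?_, ?_⟩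
    · by_contra h
      exact h (hcon.1 (darts_sub hT.1 hd))
    · by_contra h
      exact (hcon.2.1 hd (darts_sub hT.1 hd1)) |> h
    · by_contra h
      exact (hcon.2.2 hd (darts_sub hT.1 hd2)) |> h
  have h1 := card_A1 (G := G) hT
  have h2 := card_A2 (G := G) hT
  have h3 := Finset.card_le_card hsub
  have h4 := Finset.card_union_le (nd S G T) ((darts S T).filter (fun e => nxt S T e ∈ nd S G T) ∪
        (darts S T).filter (fun e => nxt S T (nxt S T e) ∈ nd S G T))
  have h5 := Finset.card_union_le ((darts S T).filter (fun e => nxt S T e ∈ nd S G T))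
        ((darts S T).filter (fun e => nxt S T (nxt S T e) ∈ nd S G T))
  omega

open Classical in
private theorem card_off (hT : IsTriangulation S T) :
    (dz S T \ darts S T).card + (darts S T).card = (dz S T).card :=
  Finset.card_sdiff_add_card_eq_card (darts_sub hT.1)

/-- For `e ∈ bd` the reversed dart `(e.2, e.1) ∈ dz S T` is either not in `darts` (at most `|dz| - |darts|`
of them) or a dart which is not good (`bad_card`). -/
theorem bd_card (hT : IsTriangulation S T) :
    (bd S G T).card + (darts S T).card ≤ (dz S T).card + 3 * (nd S G T).card := by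
  classical
  have h1 : (bd S G T).card ≤
      ((dz S T \ darts S T) ∪ (darts S T).filter (fun e => ¬ Good S G T e)).card := by
    refine Finset.card_le_card_of_injOn Prod.swap ?_ (Prod.swap_injective.injOn)
    intro e he
    obtain ⟨hg, hn⟩ := mem_bd.1 (Finset.mem_coe.1 he)
    have hdz := darts_sub hT.1 hg.1
    have hadj := (mem_dz_plane hT.1).1 hdz
    have hsw : e.swap ∈ dz S T := (mem_dz_plane hT.1).2 hadj.symm
    rw [Finset.mem_coe, Finset.mem_union, Finset.mem_sdiff, Finset.mem_filter]
    by_cases h : e.swap ∈ darts S T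
    · exact Or.inr ⟨h, hn⟩
    · exact Or.inl ⟨hsw, h⟩
  have h2 := bad_card (G := G) hT
  have h3 := card_off hT
  have h4 := Finset.card_union_le (dz S T \ darts S T)
    ((darts S T).filter (fun e => ¬ Good S G T e))
  omega

open Classical in
/-- A kept edge which is not good is either not in `darts` (at most `|dz| - |darts|`) or it is a dart in
`gd`, and then one of `nxt e`, `nxt (nxt e)` is in `nd` (at most `2 |nd|`). (`gd_sub`: kept edges are in
`dz S T`.) -/
theorem kept_bad_card (hD : IsDrawing 1 S G) (hT : IsTriangulation S T) (hle : pg S G ≤ T) :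
    ((dz S (kept G)).filter (fun e => ¬ Good S G T e)).card + (darts S T).card ≤
      (dz S T).card + 2 * (nd S G T).card := by
  have hsub : (dz S (kept G)).filter (fun e => ¬ Good S G T e) ⊆
      (dz S T \ darts S T) ∪ ((darts S T).filter (fun e => nxt S T e ∈ nd S G T) ∪
        (darts S T).filter (fun e => nxt S T (nxt S T e) ∈ nd S G T)) := by
    intro e he
    obtain ⟨hk, hg⟩ := Finset.mem_filter.1 he
    have hgd : e ∈ gd S G := mem_gd.2 (Or.inl hk)
    have hdz : e ∈ dz S T := gd_sub hD hT hle hgd
    by_cases hd : e ∈ darts S T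
    · have hd1 := nxt_mem hT.1 hd
      have hd2 := nxt_mem hT.1 hd1
      rw [Finset.mem_union, Finset.mem_union, Finset.mem_filter, Finset.mem_filter, mem_nd, mem_nd]
      right
      by_contra hcon
      push Not at hcon
      apply hg
      refine ⟨hd, hgd, ?_, ?_⟩
      · exact hcon.1 hd (darts_sub hT.1 hd1)
      · exact hcon.2 hd (darts_sub hT.1 hd2)
    · exact Finset.mem_union_left _ (Finset.mem_sdiff.2 ⟨hdz, hd⟩)
  have h1 := card_A1 (G := G) hT
  have h2 := card_A2 (G := G) hT
  have h3 := Finset.card_le_card hsub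
  have h6 := card_off hT
  have h4 := Finset.card_union_le (dz S T \ darts S T)
    ((darts S T).filter (fun e => nxt S T e ∈ nd S G T) ∪
        (darts S T).filter (fun e => nxt S T (nxt S T e) ∈ nd S G T))
  have h5 := Finset.card_union_le ((darts S T).filter (fun e => nxt S T e ∈ nd S G T))
        ((darts S T).filter (fun e => nxt S T (nxt S T e) ∈ nd S G T))
  omega

end Pool.Agent.UDG
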