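import Pool.Agent.UDG.Thd

/-!
Module Cev: a triangle has at most one nice side.
-/

namespace Pool.Agent.UDG

open Pool.Agent.AreaTri

variable {S : Finset Pt} {G T : SimpleGraph Pt}

/-- Two cevians of a triangle cross: `x = (1 - p) a + p b` in `a b`, `y = (1 - q) b + q c` in `b c`. With
`N = 1 - q + p q`, `ρ = (1 - q) / N`, `σ = p / N` the point `z = c + ρ (x - c) = a + σ (y - a)` is
common. -/
theorem cevians {a b c x y : Pt} (hx : x ∈ openSegment ℝ a b) (hy : y ∈ openSegment ℝ b c) :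
    ∃ z, z ∈ openSegment ℝ c x ∧ z ∈ openSegment ℝ a y := by
  obtain ⟨p, hp0, hp1, hx1, hx2⟩ := mem_oseg.1 hx
  obtain ⟨q, hq0, hq1, hy1, hy2⟩ := mem_oseg.1 hy
  have hN : 0 < 1 - q + p * q := by nlinarith [mul_pos hp0 hq0]
  have hN' : 1 - q + p * q ≠ 0 := ne_of_gt hN
  have h1 : (1 - q) / (1 - q + p * q) * p = p / (1 - q + p * q) * (1 - q) := by ring
  have h2 : 1 - (1 - q) / (1 - q + p * q) = p / (1 - q + p * q) * q := by
    rw [eq_comm, div_mul_eq_mul_div, eq_sub_iff_add_eq, ← add_div, div_eq_one_iff_eq hN']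
    ring
  refine ⟨(c.1 + (1 - q) / (1 - q + p * q) * (x.1 - c.1),
    c.2 + (1 - q) / (1 - q + p * q) * (x.2 - c.2)), ?_, ?_⟩
  · refine mem_oseg.2 ⟨(1 - q) / (1 - q + p * q), div_pos (by linarith) hN, ?_, rfl, rfl⟩
    rw [div_lt_one hN]
    nlinarith [mul_pos hp0 hq0]
  · refine mem_oseg.2 ⟨p / (1 - q + p * q), div_pos hp0 hN, ?_, ?_, ?_⟩
    · rw [div_lt_one hN]
      nlinarith [mul_pos (sub_pos.2 hp1) (sub_pos.2 hq1)]
    · simp only
      rw [hx1, hy1]
      linear_combination (c.1 - a.1) * h2 + (b.1 - a.1) * h1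
    · simp only
      rw [hx2, hy2]
      linear_combination (c.2 - a.2) * h2 + (b.2 - a.2) * h1

/-- Let `k = (a, b, c, d)` and `k' = (b, c, c', d')`, both nice. By `thd`, `third a b = c` and
`c' = third b c = a` (`third_eq` for the rotated face). Let `x` be the common point of `a b` and `c d`, `y` that
of `b c` and `a d'`; by `cevians` and `oseg_toward` the edges `c d` and `a d'` have a common point. By
`meet_unique` for the crossing `(c, d, b, a)` (`PX.rot`) `s(a, d') = s(b, a)` or `s(a, d') = s(c, d)`, both are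
impossible (`orient b c d' < 0`, so `d' ≠ b`). -/
theorem nice_once (hD : IsDrawing 1 S G) (hT : IsTriangulation S T) (hle : pg S G ≤ T)
    {k k' : Pt × Pt × Pt × Pt} (hk : k ∈ nice S G T) (hk' : k' ∈ nice S G T) :
    nxt S T (k.1, k.2.1) ≠ (k'.1, k'.2.1) := by
  obtain ⟨a, b, c, d⟩ := k
  obtain ⟨a', b', c', d'⟩ := k'
  intro he
  obtain ⟨hkk, _, hg1, _⟩ := mem_nice.1 hk
  obtain ⟨hkk', _, hg1', _⟩ := mem_nice.1 hk'
  have hx := ((mem_kk hD).1 hkk).1
  have hx' := ((mem_kk hD).1 hkk').1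
  simp only at hx hx' hg1 hg1' he
  have ht : third S T a b = c := thd hD hT hle hg1 hx
  unfold nxt at he
  simp only [ht, Prod.mk.injEq] at he
  obtain ⟨rfl, rfl⟩ := he
  have ht' : third S T b c = c' := thd hD hT hle hg1' hx'
  obtain ⟨hf, hpos⟩ := third_spec hT.1 hg1.1
  simp only [ht] at hf hpos
  have ht2 : third S T b c = a := third_eq hT.1 hf.rot (by rw [orient_cyc]; exact hpos)
  have hca : c' = a := ht'.symm.trans ht2
  subst hca
  obtain ⟨x, hxab, hxcd⟩ := hx.meet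
  obtain ⟨y, hybc, hyad⟩ := hx'.meet
  obtain ⟨z, hz1, hz2⟩ := cevians hxab hybc
  have hzcd : z ∈ openSegment ℝ c d := oseg_toward hxcd (oseg_symm.1 hz1)
  have hzad : z ∈ openSegment ℝ c' d' := oseg_toward hyad (oseg_symm.1 hz2)
  have hne : s(c', d') ≠ s(c, d) := by
    intro h
    rcases Sym2.eq_iff.1 h with ⟨h1, _⟩ | ⟨h1, _⟩
    · exact hx.ca h1.symm
    · exact hx.da h1.symm
  have := meet_unique hD hx.rot hx'.cd hne hzcd hzad
  rcases Sym2.eq_iff.1 this with ⟨h1, _⟩ | ⟨_, h2⟩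
  · exact G.ne_of_adj hx.ab h1
  · exact hx'.da h2

end Pool.Agent.UDG
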