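import Pool.Agent.UDG.Bas

/-!
Module Rig: rigid configurations contain points of the grid.
-/

namespace Pool.Agent.UDG

open Pool.Agent.AreaTri

variable {S : Finset Pt} {G T : SimpleGraph Pt}

theorem equi_aux {O u v e f : ℝ} (hO : 0 < O) (hO2 : O ^ 2 = 3 / 4) (huv : u ^ 2 + v ^ 2 = 1)
    (he : e ^ 2 ≤ 1 / 25) (hf : f ^ 2 ≤ 1 / 25) : 0 < O / 3 + (u * f - v * e) := by
  by_contra hcon
  push Not at hcon
  have h1 : O / 3 ≤ -(u * f - v * e) := by linarith
  have h2 : (O / 3) ^ 2 ≤ (-(u * f - v * e)) ^ 2 := by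
    apply pow_le_pow_left₀ (by positivity) h1
  have h3 : (u * f - v * e) ^ 2 + (u * e + v * f) ^ 2 = (u ^ 2 + v ^ 2) * (e ^ 2 + f ^ 2) := by ring
  rw [huv] at h3
  have h4 : 0 ≤ (u * e + v * f) ^ 2 := sq_nonneg _
  nlinarith

theorem round_aux (m s : ℝ) : ∃ i : ℤ, (s + 2 / 5 * i - m) ^ 2 ≤ 1 / 25 := by
  refine ⟨round ((m - s) / (2 / 5)), ?_⟩
  have h := abs_sub_round ((m - s) / (2 / 5))
  rw [abs_le] at h
  have h1 : s + 2 / 5 * (round ((m - s) / (2 / 5)) : ℝ) - m =
      - (2 / 5) * ((m - s) / (2 / 5) - (round ((m - s) / (2 / 5)) : ℝ)) := by ring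
  rw [h1]
  nlinarith [h.1, h.2]

/-- A unit equilateral triangle contains a point of the grid: let `m` be the center and choose
`i`, `j` with `|g.1 - m.1| ≤ 1/5`, `|g.2 - m.2| ≤ 1/5` (`round`). The three orientations of `m` are `√3/6`, and
`|orient p q g - orient p q m| ≤ |q - p| |g - m| ≤ √2/5 < √3/6` (squares: `2/25 < 3/36`). Here
`(orient p q r) ^ 2 = 3/4`. -/
theorem equi_grid {p q r : Pt} (h1 : dsq p q = 1) (h2 : dsq q r = 1) (h3 : dsq r p = 1)
    (hpos : 0 < orient p q r) (s t : ℝ) : ∃ i j : ℤ, Ins p q r (grid s t i j) := by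
  obtain ⟨i, hi⟩ := round_aux ((p.1 + q.1 + r.1) / 3) s
  obtain ⟨j, hj⟩ := round_aux ((p.2 + q.2 + r.2) / 3) t
  have hO2 : (orient p q r) ^ 2 = 3 / 4 := by
    have e : (orient p q r) ^ 2 = dsq p q * dsq r p - ((dsq p q + dsq r p - dsq q r) / 2) ^ 2 := by
      unfold orient dsq; ring
    rw [e, h1, h2, h3]; norm_num
  refine ⟨i, j, ?_, ?_, ?_⟩
  · have e : orient p q (grid s t i j) = orient p q r / 3 +
        ((q.1 - p.1) * (t + 2 / 5 * j - (p.2 + q.2 + r.2) / 3) -
          (q.2 - p.2) * (s + 2 / 5 * i - (p.1 + q.1 + r.1) / 3)) := by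
      unfold orient grid; ring
    rw [e]
    refine equi_aux hpos hO2 ?_ hi hj
    rw [← h1]; unfold dsq; ring
  · have e : orient q r (grid s t i j) = orient p q r / 3 +
        ((r.1 - q.1) * (t + 2 / 5 * j - (p.2 + q.2 + r.2) / 3) -
          (r.2 - q.2) * (s + 2 / 5 * i - (p.1 + q.1 + r.1) / 3)) := by
      unfold orient grid; ring
    rw [e]
    refine equi_aux hpos hO2 ?_ hi hj
    rw [← h2]; unfold dsq; ring
  · have e : orient r p (grid s t i j) = orient p q r / 3 +
        ((p.1 - r.1) * (t + 2 / 5 * j - (p.2 + q.2 + r.2) / 3) -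
          (p.2 - r.2) * (s + 2 / 5 * i - (p.1 + q.1 + r.1) / 3)) := by
      unfold orient grid; ring
    rw [e]
    refine equi_aux hpos hO2 ?_ hi hj
    rw [← h3]; unfold dsq; ring

/-- case 3 -/
theorem rigid_aux {a b c d : Pt} (hx : PX G a b c d) (hcd : dsq c d = 1)
    (hac : dsq a c = 1) (had : dsq a d = 1) (s t : ℝ)
    (hg : ∀ i j : ℤ, orient a b (grid s t i j) ≠ 0) :
    ∃ i j : ℤ, Ins a b c (grid s t i j) ∨ Ins b a d (grid s t i j) := by
  have hpos : 0 < orient a d c := by
    have := hx.a_right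
    have e : orient a d c = - orient c d a := by unfold orient; ring
    rw [e]; linarith
  obtain ⟨i, j, hI⟩ := equi_grid had (by rw [dsq_comm]; exact hcd) (by rw [dsq_comm]; exact hac)
    hpos s t
  refine ⟨i, j, ?_⟩
  obtain ⟨hi1, hi2, hi3⟩ := hI
  set g := grid s t i j with hgdef
  have hne := hg i j
  rw [← hgdef] at hne
  -- hi1 : 0 < orient a d g, hi2 : 0 < orient d c g, hi3 : 0 < orient c a g
  have hA := hx.a_right
  have hB := hx.b_left
  have hC := hx.c_left
  have hD := hx.d_right
  rcases lt_or_gt_of_ne hne with h | h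
  · right
    refine ⟨?_, hi1, ?_⟩
    · rw [orient_swap']; linarith
    · have key : orient c d a * orient b d g = orient a b d * orient c d g +
          orient a d g * orient c d b := by unfold orient; ring
      have e1 : orient c d g = - orient d c g := by unfold orient; ring
      have p1 : 0 < orient a b d * orient c d g := by
        apply mul_pos_of_neg_of_neg hD; rw [e1]; linarith
      have p2 : 0 < orient a d g * orient c d b := mul_pos hi1 hB
      by_contra hcon
      push Not at hcon
      have e2 : orient b d g = - orient d b g := by unfold orient; ring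
      have p3 : orient c d a * orient b d g ≤ 0 :=
        mul_nonpos_of_nonpos_of_nonneg hA.le (by rw [e2]; linarith)
      linarith
  · left
    refine ⟨h, ?_, hi3⟩
    have key : orient a b c * orient c d g = orient c d a * orient b c g +
        orient c a g * orient c d b := by unfold orient; ring
    have e1 : orient c d g = - orient d c g := by unfold orient; ring
    have p1 : orient a b c * orient c d g < 0 := by
      apply mul_neg_of_pos_of_neg hC; rw [e1]; linarith
    have p2 : 0 < orient c a g * orient c d b := mul_pos hi3 hB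
    by_contra hcon
    push Not at hcon
    have p3 : 0 ≤ orient c d a * orient b c g := mul_nonneg_of_nonpos_of_nonpos hA.le hcon
    linarith

/-- `a b` and `c d` are crossing unit segments. There are four cases.
1. `dsq a c = 1`, `dsq b c = 1`: the triangle `a b c` is equilateral, use `equi_grid`.
2. `dsq b d = 1`, `dsq a d = 1`: the triangle `b a d` is equilateral.
3. `dsq a c = 1`, `dsq a d = 1`: the triangle `a d c` is equilateral; its grid point `g` is not on
   `a b`. If `orient a b g > 0` then `g` is strictly inside `a b c`: `orient c a g > 0` is known, and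
   `orient b c g > 0` because `g` is strictly inside the triangle `a x c`, where `x` is the crossing
   point, and `b`, `x` are on the same side... precisely: `g = a + λ (b - a) + μ (c - a)` (`coord`), where `μ > 0`,
   `λ > 0`, and `orient d c g > 0` says `λ (orient c d b - orient c d a) + μ (- orient c d a) < - orient c d a`,
   and `orient c d b > 0`, so `λ + μ < 1`. If `orient a b g < 0` then similarly `g` is
   strictly inside `b a d`.
4. `dsq b d = 1`, `dsq b c = 1`: the same with `a`, `b` and `c`, `d` exchanged. -/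
theorem rigid_grid {a b c d : Pt} (hx : PX G a b c d) (hab : dsq a b = 1) (hcd : dsq c d = 1)
    (h1 : dsq a c = 1 ∨ dsq b d = 1) (h2 : dsq b c = 1 ∨ dsq a d = 1) (s t : ℝ)
    (hg : ∀ i j : ℤ, orient a b (grid s t i j) ≠ 0) :
    ∃ i j : ℤ, Ins a b c (grid s t i j) ∨ Ins b a d (grid s t i j) := by
  rcases h1 with h1 | h1 <;> rcases h2 with h2 | h2
  · obtain ⟨i, j, h⟩ := equi_grid hab h2 (by rw [dsq_comm]; exact h1) hx.c_left s t
    exact ⟨i, j, Or.inl h⟩
  · exact rigid_aux hx hcd h1 h2 s t hg
  · obtain ⟨i, j, h⟩ := rigid_aux hx.flip (by rw [dsq_comm]; exact hcd) h1 h2 s t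
      (fun i j h => hg i j (by rw [orient_swap', h]; simp))
    exact ⟨i, j, h.symm⟩
  · obtain ⟨i, j, h⟩ := equi_grid (by rw [dsq_comm]; exact hab) h2 (by rw [dsq_comm]; exact h1)
      (by rw [orient_swap']; linarith [hx.d_right]) s t
    exact ⟨i, j, Or.inr h⟩

end Pool.Agent.UDG
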