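import Pool.Agent.UDG.Kep

/-!
Module Sht: short sides of crossings.
-/

namespace Pool.Agent.UDG

open Pool.Agent.AreaTri

variable {S : Finset Pt} {G T : SimpleGraph Pt}

/-- Let `z` be the common point (`PX.meet`), `z = a + t (b - a) = c + s (d - c)`. Then
`dsq a c < (t + s) ^ 2` and `dsq b d < ((1 - t) + (1 - s)) ^ 2` (the triangles `a z c` and `b z d` are not
degenerate, since `orient a b c > 0` and `orient a b d < 0`), and one of the two numbers `t + s`,
`2 - t - s` is at most one. -/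
theorem short_pair {k : ℕ} (hD : IsDrawing k S G) {a b c d : Pt} (h : PX G a b c d) :
    dsq a c < 1 ∨ dsq b d < 1 := by
  obtain ⟨z, hz, hz'⟩ := h.meet
  obtain ⟨t, ht0, ht1, ht⟩ := mem_oseg_on.1 hz
  obtain ⟨s, hs0, hs1, hs⟩ := mem_oseg_on.1 hz'
  have hu := hD.unit _ _ h.ab
  have hv := hD.unit _ _ h.cd
  have hl := h.c_left
  have hr := h.d_right
  obtain ⟨t1, t2⟩ := ht
  obtain ⟨s1, s2⟩ := hs
  unfold dsq at hu hv ⊢
  unfold orient at hl hr
  obtain ⟨ux, hux⟩ : ∃ ux, ux = b.1 - a.1 := ⟨_, rfl⟩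
  obtain ⟨uy, huy⟩ : ∃ uy, uy = b.2 - a.2 := ⟨_, rfl⟩
  obtain ⟨vx, hvx⟩ : ∃ vx, vx = d.1 - c.1 := ⟨_, rfl⟩
  obtain ⟨vy, hvy⟩ : ∃ vy, vy = d.2 - c.2 := ⟨_, rfl⟩
  have hu' : ux ^ 2 + uy ^ 2 = 1 := by rw [hux, huy, ← hu]; ring
  have hv' : vx ^ 2 + vy ^ 2 = 1 := by rw [hvx, hvy, ← hv]; ring
  have hx : ux * vy - uy * vx < 0 := by
    have : ux * vy - uy * vx = ((b.1 - a.1) * (d.2 - a.2) - (b.2 - a.2) * (d.1 - a.1)) -
      ((b.1 - a.1) * (c.2 - a.2) - (b.2 - a.2) * (c.1 - a.1)) := by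
      rw [hux, huy, hvx, hvy]; ring
    rw [this]; linarith
  have hdot : 0 < 1 + (ux * vx + uy * vy) := by
    by_contra hcon
    push Not at hcon
    have h0 : (ux + vx) ^ 2 + (uy + vy) ^ 2 ≤ 0 := by nlinarith
    have hxx : ux + vx = 0 := by nlinarith [sq_nonneg (ux + vx), sq_nonneg (uy + vy)]
    have hyy : uy + vy = 0 := by nlinarith [sq_nonneg (ux + vx), sq_nonneg (uy + vy)]
    have e1 : vx = -ux := by linarith
    have e2 : vy = -uy := by linarith
    rw [e1, e2] at hx
    nlinarith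
  have k1 : a.1 - c.1 = s * vx - t * ux := by
    rw [hux, hvx]; linarith
  have k2 : a.2 - c.2 = s * vy - t * uy := by
    rw [huy, hvy]; linarith
  have k3 : b.1 - d.1 = (1 - t) * ux - (1 - s) * vx := by
    have : b.1 = a.1 + ux := by rw [hux]; ring
    have h2 : d.1 = c.1 + vx := by rw [hvx]; ring
    rw [this, h2]; linarith
  have k4 : b.2 - d.2 = (1 - t) * uy - (1 - s) * vy := by
    have : b.2 = a.2 + uy := by rw [huy]; ring
    have h2 : d.2 = c.2 + vy := by rw [hvy]; ring
    rw [this, h2]; linarith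
  rw [k1, k2, k3, k4]
  have A1 : (s * vx - t * ux) ^ 2 + (s * vy - t * uy) ^ 2 =
      (t + s) ^ 2 - 2 * (t * s) * (1 + (ux * vx + uy * vy)) +
      t ^ 2 * ((ux ^ 2 + uy ^ 2) - 1) + s ^ 2 * ((vx ^ 2 + vy ^ 2) - 1) := by ring
  have A2 : ((1 - t) * ux - (1 - s) * vx) ^ 2 + ((1 - t) * uy - (1 - s) * vy) ^ 2 =
      (2 - (t + s)) ^ 2 - 2 * ((1 - t) * (1 - s)) * (1 + (ux * vx + uy * vy)) +
      (1 - t) ^ 2 * ((ux ^ 2 + uy ^ 2) - 1) + (1 - s) ^ 2 * ((vx ^ 2 + vy ^ 2) - 1) := by ring
  rw [A1, A2, hu', hv']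
  have P1 : 0 < (t * s) * (1 + (ux * vx + uy * vy)) := mul_pos (mul_pos ht0 hs0) hdot
  have P2 : 0 < ((1 - t) * (1 - s)) * (1 + (ux * vx + uy * vy)) :=
    mul_pos (mul_pos (by linarith) (by linarith)) hdot
  rcases le_total (t + s) 1 with hts | hts
  · left
    nlinarith
  · right
    nlinarith

open Classical in
/-- For a tuple `k = (a, b, c, d)` let `f k = 1` if `dsq a c < 1`, otherwise `f k = 0`; let
`flip k = (b, a, d, c)` and `rot k = (c, d, b, a)`, permutations of `cor S G` (`PX.flip`, `PX.rot`).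
Then `2 |sc| = ∑ (f k + f (flip k))` over `cor S G`, and `f k + f (flip k) ≥ 1 + [A k]` where `A k` says
that both `dsq a c < 1` and `dsq b d < 1`. So `|cor| + #{k ∈ cor : A k} ≤ 2 |sc|`. Moreover
`Exc k ↔ A k ∨ A (rot k)`, so `#(kk.filter Exc) ≤ #{k ∈ kk : A k} + #{k ∈ kk : A (rot k)}`, and
`rot` maps `kk` onto `cor \ kk` (`kept_or`, `kept_not_both`), so this sum is at most
`#{k ∈ cor : A k}`. -/
theorem card_exc (hD : IsDrawing 1 S G) :
    ((kk S G).filter Exc).card + (cor S G).card ≤ 2 * (sc S G).card := by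
  classical
  obtain ⟨f, hf⟩ : ∃ f : Pt × Pt × Pt × Pt → Prop, f = fun k => dsq k.1 k.2.2.1 < 1 := ⟨_, rfl⟩
  obtain ⟨fl, hfl⟩ : ∃ fl : Pt × Pt × Pt × Pt → Pt × Pt × Pt × Pt,
    fl = fun k => (k.2.1, k.1, k.2.2.2, k.2.2.1) := ⟨_, rfl⟩
  obtain ⟨ro, hro⟩ : ∃ ro : Pt × Pt × Pt × Pt → Pt × Pt × Pt × Pt,
    ro = fun k => (k.2.2.1, k.2.2.2, k.2.1, k.1) := ⟨_, rfl⟩
  have flfl : ∀ k, fl (fl k) = k := by intro k; rw [hfl]
  have flmem : ∀ k ∈ cor S G, fl k ∈ cor S G := by
    intro k hk
    rw [mem_cor hD] at hk ⊢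
    rw [hfl]
    exact hk.flip
  have romem : ∀ k ∈ cor S G, ro k ∈ cor S G := by
    intro k hk
    rw [mem_cor hD] at hk ⊢
    rw [hro]
    exact hk.rot
  have roinj : Function.Injective ro := by
    intro k k' hk
    rw [hro] at hk
    simp only [Prod.mk.injEq] at hk
    obtain ⟨h1, h2, h3, h4⟩ := hk
    ext1
    · exact h4
    · ext1
      · exact h3
      · ext1
        · exact h1
        · exact h2
  have hsc : (sc S G).card = ((cor S G).filter f).card := by
    congr 1
    ext k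
    rw [Finset.mem_filter, mem_cor hD, mem_sc hD, hf]
  have e1 : ((cor S G).filter (fun k => f (fl k))).card = ((cor S G).filter f).card := by
    apply Finset.card_bij' (fun k _ => fl k) (fun k _ => fl k)
    · intro k hk
      rw [Finset.mem_filter] at hk ⊢
      exact ⟨flmem k hk.1, hk.2⟩
    · intro k hk
      rw [Finset.mem_filter] at hk ⊢
      refine ⟨flmem k hk.1, ?_⟩
      rw [flfl]
      exact hk.2
    · intro k _
      exact flfl k
    · intro k _
      exact flfl k
  have e2 : (cor S G).filter f ∪ (cor S G).filter (fun k => f (fl k)) = cor S G := by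
    ext k
    rw [Finset.mem_union, Finset.mem_filter, Finset.mem_filter]
    constructor
    · rintro (hk | hk)
      · exact hk.1
      · exact hk.1
    · intro hk
      have := short_pair hD ((mem_cor hD).1 hk)
      rcases this with h | h
      · left
        rw [hf]
        exact ⟨hk, h⟩
      · right
        rw [hf, hfl]
        exact ⟨hk, h⟩
  have e3 : (cor S G).filter f ∩ (cor S G).filter (fun k => f (fl k)) =
      (cor S G).filter (fun k => f k ∧ f (fl k)) := by
    ext k
    rw [Finset.mem_inter, Finset.mem_filter, Finset.mem_filter, Finset.mem_filter]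
    tauto
  have h1 : (cor S G).card + ((cor S G).filter (fun k => f k ∧ f (fl k))).card =
      2 * (sc S G).card := by
    have := Finset.card_union_add_card_inter ((cor S G).filter f)
      ((cor S G).filter (fun k => f (fl k)))
    rw [e2, e3] at this
    omega
  have kksub : kk S G ⊆ cor S G := by
    intro k hk
    rw [mem_cor hD]
    exact ((mem_kk hD).1 hk).1
  have h2 : ((kk S G).filter Exc).card ≤ ((kk S G).filter (fun k => f k ∧ f (fl k))).card +
      ((kk S G).filter (fun k => f (ro k) ∧ f (fl (ro k)))).card := by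
    refine le_trans (Finset.card_le_card ?_) (Finset.card_union_le _ _)
    intro k hk
    rw [Finset.mem_filter] at hk
    rw [Finset.mem_union, Finset.mem_filter, Finset.mem_filter]
    rcases hk.2 with h | h
    · left
      rw [hf, hfl]
      exact ⟨hk.1, h⟩
    · right
      rw [hf, hfl, hro]
      refine ⟨hk.1, ?_, ?_⟩
      · show dsq k.2.2.1 k.2.1 < 1
        rw [dsq_comm]
        exact h.1
      · show dsq k.2.2.2 k.1 < 1
        rw [dsq_comm]
        exact h.2
  have h3 : ((kk S G).filter (fun k => f (ro k) ∧ f (fl (ro k)))).card =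
      (((kk S G).filter (fun k => f (ro k) ∧ f (fl (ro k)))).image ro).card :=
    (Finset.card_image_of_injective _ roinj).symm
  have h4 : Disjoint ((kk S G).filter (fun k => f k ∧ f (fl k)))
      (((kk S G).filter (fun k => f (ro k) ∧ f (fl (ro k)))).image ro) := by
    rw [Finset.disjoint_left]
    intro k hk hk'
    rw [Finset.mem_filter] at hk
    rw [Finset.mem_image] at hk'
    obtain ⟨k', hk', rfl⟩ := hk'
    rw [Finset.mem_filter] at hk'
    have a1 := (mem_kk hD).1 hk.1
    have a2 := (mem_kk hD).1 hk'.1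
    apply kept_not_both a2.1
    refine ⟨a2.2, ?_⟩
    have := a1.2
    rw [hro] at this
    exact this
  have h5 : ((kk S G).filter (fun k => f k ∧ f (fl k))) ∪
      (((kk S G).filter (fun k => f (ro k) ∧ f (fl (ro k)))).image ro) ⊆
      (cor S G).filter (fun k => f k ∧ f (fl k)) := by
    intro k hk
    rw [Finset.mem_union] at hk
    rw [Finset.mem_filter]
    rcases hk with hk | hk
    · rw [Finset.mem_filter] at hk
      exact ⟨kksub hk.1, hk.2⟩
    · rw [Finset.mem_image] at hk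
      obtain ⟨k', hk', rfl⟩ := hk
      rw [Finset.mem_filter] at hk'
      exact ⟨romem _ (kksub hk'.1), hk'.2⟩
  have h6 := Finset.card_le_card h5
  rw [Finset.card_union_of_disjoint h4, ← h3] at h6
  omega

end Pool.Agent.UDG
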