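import Pool.Agent.UDG.Thd
import Pool.Agent.UDG.Rig
import Pool.Agent.UDG.Sht

/-!
Module NcF: nice crossings have a fat triangle.
-/

namespace Pool.Agent.UDG

open Pool.Agent.AreaTri

variable {S : Finset Pt} {G T : SimpleGraph Pt}

/-- Let `k = (a, b, c, d)`. By `thd`, `third a b = c` and `third b a = d` (`PX.flip`). All four sides
`c a`, `b c`, `d b`, `a d` are in `gd S G` (`nxt`, `nxt2`), so their `dsq` is at most `1` (`gd_len`). As `k` is not `Exc`,
`dsq a c = 1 ∨ dsq b d = 1` and `dsq b c = 1 ∨ dsq a d = 1`; use `rigid_grid`. -/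
theorem nice_fat (hD : IsDrawing 1 S G) (hT : IsTriangulation S T) (hle : pg S G ≤ T) {s t : ℝ}
    (hgen : Generic S s t) {k : Pt × Pt × Pt × Pt} (hk : k ∈ nice S G T) :
    (k.1, k.2.1) ∈ fat S G T s t ∨ (k.2.1, k.1) ∈ fat S G T s t := by
  have hpl : IsPlane S T := hT.1
  obtain ⟨a, b, c, d⟩ := k
  rw [mem_nice] at hk
  obtain ⟨hkk, hexc, hg1, hg2⟩ := hk
  obtain ⟨hx, hkept⟩ := (mem_kk hD).1 hkk
  simp only at hg1 hg2 hx hkept ⊢
  have t1 : third S T a b = c := thd hD hT hle hg1 hx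
  have t2 : third S T b a = d := thd hD hT hle hg2 hx.flip
  have g1 := hg1.2.2.1
  have g2 := hg1.2.2.2
  rw [nxt2 hpl hg1.1] at g2
  have g3 := hg2.2.2.1
  have g4 := hg2.2.2.2
  rw [nxt2 hpl hg2.1] at g4
  unfold AreaTri.nxt at g1 g3
  simp only [t1, t2] at g1 g2 g3 g4
  have l1 := gd_len hD g1
  have l2 := gd_len hD g2
  have l3 := gd_len hD g3
  have l4 := gd_len hD g4
  simp only at l1 l2 l3 l4
  -- l1 : dsq b c ≤ 1, l2 : dsq c a ≤ 1, l3 : dsq a d ≤ 1, l4 : dsq d b ≤ 1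
  unfold Exc at hexc
  simp only [not_or, not_and, not_lt] at hexc
  obtain ⟨e1, e2⟩ := hexc
  have h1 : dsq a c = 1 ∨ dsq b d = 1 := by
    rw [dsq_comm c a] at l2
    rw [dsq_comm d b] at l4
    rcases eq_or_lt_of_le l2 with h | h
    · exact Or.inl h
    · exact Or.inr (le_antisymm l4 (e1 h))
  have h2 : dsq b c = 1 ∨ dsq a d = 1 := by
    rcases eq_or_lt_of_le l1 with h | h
    · exact Or.inl h
    · exact Or.inr (le_antisymm l3 (e2 h))
  have hne : a ≠ b := hx.ab.ne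
  obtain ⟨i, j, h⟩ := rigid_grid hx (hD.unit _ _ hx.ab) (hD.unit _ _ hx.cd) h1 h2 s t
    (hgen.line a (hD.mem _ _ hx.ab) b (hD.mem _ _ hx.ab.symm) hne)
  rcases h with h | h
  · left
    rw [mem_fat]
    refine ⟨hg1, i, j, ?_⟩
    simp only [t1]; exact h
  · right
    rw [mem_fat]
    refine ⟨hg2, i, j, ?_⟩
    simp only [t2]; exact h

/-- A good triangle with three kept sides is a unit equilateral triangle: `equi_grid`. -/
theorem kept_fat (hD : IsDrawing 1 S G) (hT : IsTriangulation S T) (s t : ℝ) {e : Pt × Pt}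
    (he : Good S G T e) (h1 : e ∈ dz S (kept G)) (h2 : nxt S T e ∈ dz S (kept G))
    (h3 : nxt S T (nxt S T e) ∈ dz S (kept G)) : e ∈ fat S G T s t := by
  have hpl : IsPlane S T := hT.1
  obtain ⟨hf, hpos⟩ := third_spec hpl he.1
  rw [nxt2 hpl he.1] at h3
  have a1 := ((mem_dz_kept hD).1 h1).1
  have a2 := ((mem_dz_kept hD).1 h2).1
  have a3 := ((mem_dz_kept hD).1 h3).1
  unfold AreaTri.nxt at a2
  simp only at a1 a2 a3
  obtain ⟨i, j, h⟩ := equi_grid (hD.unit _ _ a1) (hD.unit _ _ a2) (hD.unit _ _ a3) hpos s t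
  rw [mem_fat]
  exact ⟨he, i, j, h⟩

end Pool.Agent.UDG
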