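import Pool.Agent.UDG.Bdc
import Pool.Agent.UDG.NcF

/-!
Module Cn1: the number of darts.
-/

namespace Pool.Agent.UDG

open Pool.Agent.AreaTri

variable {S : Finset Pt} {G T : SimpleGraph Pt}

/-- Every dart is not good (`bad_card`), or fat, or good and not fat; in the last case by `kept_fat` one of `e`, `nxt e`,
`nxt (nxt e)` is not in `dz S (kept G)`, so it is in `(sc S G).image (del S)` (`mem_gd`): at most `3 |sc|`. -/
theorem darts_card (hD : IsDrawing 1 S G) (hT : IsTriangulation S T) (s t : ℝ) :
    (darts S T).card ≤ 3 * (nd S G T).card + (fat S G T s t).card + 3 * (sc S G).card := by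
  classical
  have him : ((sc S G).image (del S)).card ≤ (sc S G).card := Finset.card_image_le
  set I := (sc S G).image (del S) with hI
  have hmemI : ∀ {e : Pt × Pt}, e ∈ gd S G → e ∉ dz S (kept G) → e ∈ I := by
    intro e he hn
    rcases mem_gd.1 he with h | ⟨k, hk, hke⟩
    · exact absurd h hn
    · exact Finset.mem_image.2 ⟨k, hk, hke⟩
  have hB1 : ((darts S T).filter (fun e => nxt S T e ∈ I)).card ≤ I.card := by
    refine Finset.card_le_card_of_injOn (nxt S T) ?_ ?_
    · intro e he
      exact (Finset.mem_filter.1 he).2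
    · intro e he f hf h
      have h1 := nxt3 hT.1 (Finset.mem_filter.1 (Finset.mem_coe.1 he)).1
      have h2 := nxt3 hT.1 (Finset.mem_filter.1 (Finset.mem_coe.1 hf)).1
      rw [← h1, ← h2, h]
  have hB2 : ((darts S T).filter (fun e => nxt S T (nxt S T e) ∈ I)).card ≤ I.card := by
    refine Finset.card_le_card_of_injOn (fun e => nxt S T (nxt S T e)) ?_ ?_
    · intro e he
      exact (Finset.mem_filter.1 he).2
    · intro e he f hf h
      have h1 := nxt3 hT.1 (Finset.mem_filter.1 (Finset.mem_coe.1 he)).1
      have h2 := nxt3 hT.1 (Finset.mem_filter.1 (Finset.mem_coe.1 hf)).1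
      simp only at h
      rw [← h1, ← h2, h]
  have hsub : darts S T ⊆ ((darts S T).filter (fun e => ¬ Good S G T e)) ∪
      (fat S G T s t ∪ (I ∪ ((darts S T).filter (fun e => nxt S T e ∈ I) ∪
        (darts S T).filter (fun e => nxt S T (nxt S T e) ∈ I)))) := by
    intro e he
    simp only [Finset.mem_union]
    by_cases hg : Good S G T e
    · by_cases hf : e ∈ fat S G T s t
      · exact Or.inr (Or.inl hf)
      · right; right
        by_cases h1 : e ∈ dz S (kept G)
        · right
          by_cases h2 : nxt S T e ∈ dz S (kept G)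
          · right
            by_cases h3 : nxt S T (nxt S T e) ∈ dz S (kept G)
            · exact absurd (kept_fat hD hT s t hg h1 h2 h3) hf
            · exact Finset.mem_filter.2 ⟨he, hmemI hg.2.2.2 h3⟩
          · left
            exact Finset.mem_filter.2 ⟨he, hmemI hg.2.2.1 h2⟩
        · left
          exact hmemI hg.2.1 h1
    · exact Or.inl (Finset.mem_filter.2 ⟨he, hg⟩)
  have h0 := Finset.card_le_card hsub
  have h1 := Finset.card_union_le ((darts S T).filter (fun e => ¬ Good S G T e))
      (fat S G T s t ∪ (I ∪ ((darts S T).filter (fun e => nxt S T e ∈ I) ∪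
        (darts S T).filter (fun e => nxt S T (nxt S T e) ∈ I))))
  have h2 := Finset.card_union_le (fat S G T s t) (I ∪ ((darts S T).filter (fun e => nxt S T e ∈ I) ∪
        (darts S T).filter (fun e => nxt S T (nxt S T e) ∈ I)))
  have h3 := Finset.card_union_le I ((darts S T).filter (fun e => nxt S T e ∈ I) ∪
        (darts S T).filter (fun e => nxt S T (nxt S T e) ∈ I))
  have h4 := Finset.card_union_le ((darts S T).filter (fun e => nxt S T e ∈ I))
        ((darts S T).filter (fun e => nxt S T (nxt S T e) ∈ I))
  have h5 := bad_card (G := G) hT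
  omega

end Pool.Agent.UDG
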