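import Pool.Agent.UDG.Bdc
import Pool.Agent.UDG.Sht

/-!
Module Cn2: the number of nice crossings, lower bound.
-/

namespace Pool.Agent.UDG

open Pool.Agent.AreaTri

variable {S : Finset Pt} {G T : SimpleGraph Pt}

/-- `kk \ nice` is contained in the union of `kk.filter Exc` (`card_exc`), of the set of all `k ∈ kk` with
`¬ Good (k.1, k.2.1)` and of the set of all `k ∈ kk` with `¬ Good (k.2.1, k.1)`. The last two sets have at most
`KB = ((dz S (kept G)).filter (fun e => ¬ Good S G T e)).card` elements, since `k ↦ (k.1, k.2.1)` and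
`k ↦ (k.2.1, k.1)` are injective on `kk` (`px_unique`). So
`|kk| ≤ |nice| + |kk.filter Exc| + 2 KB`; use `card_exc` and `kept_bad_card`. -/
theorem nice_lower (hD : IsDrawing 1 S G) (hT : IsTriangulation S T) (hle : pg S G ≤ T) :
    (kk S G).card + (cor S G).card + 2 * (darts S T).card ≤
      (nice S G T).card + 2 * (sc S G).card + 2 * (dz S T).card + 4 * (nd S G T).card := by
  classical
  have hE := card_exc (S := S) (G := G) hD
  have hK := kept_bad_card hD hT hle
  have huniq : ∀ k ∈ kk S G, ∀ k' ∈ kk S G, k.1 = k'.1 → k.2.1 = k'.2.1 → k = k' := by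
    intro k hk k' hk' h1 h2
    have p := ((mem_kk hD).1 hk).1
    have p' := ((mem_kk hD).1 hk').1
    rw [← h1, ← h2] at p'
    obtain ⟨h3, h4⟩ := px_unique hD p p'
    exact Prod.ext h1 (Prod.ext h2 (Prod.ext h3 h4))
  have hA : ((kk S G).filter (fun k => ¬ Good S G T (k.1, k.2.1))).card ≤
      ((dz S (kept G)).filter (fun e => ¬ Good S G T e)).card := by
    refine Finset.card_le_card_of_injOn (fun k => (k.1, k.2.1)) ?_ ?_
    · intro k hk
      obtain ⟨hk, hg⟩ := Finset.mem_filter.1 (Finset.mem_coe.1 hk)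
      rw [Finset.mem_coe, Finset.mem_filter]
      exact ⟨(mem_dz_kept hD).2 ((mem_kk hD).1 hk).2, hg⟩
    · intro k hk k' hk' h
      obtain ⟨h1, h2⟩ := Prod.mk.inj h
      exact huniq k (Finset.mem_filter.1 (Finset.mem_coe.1 hk)).1 k'
        (Finset.mem_filter.1 (Finset.mem_coe.1 hk')).1 h1 h2
  have hB : ((kk S G).filter (fun k => ¬ Good S G T (k.2.1, k.1))).card ≤
      ((dz S (kept G)).filter (fun e => ¬ Good S G T e)).card := by
    refine Finset.card_le_card_of_injOn (fun k => (k.2.1, k.1)) ?_ ?_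
    · intro k hk
      obtain ⟨hk, hg⟩ := Finset.mem_filter.1 (Finset.mem_coe.1 hk)
      rw [Finset.mem_coe, Finset.mem_filter]
      exact ⟨(mem_dz_kept hD).2 ((mem_kk hD).1 hk).2.symm, hg⟩
    · intro k hk k' hk' h
      obtain ⟨h1, h2⟩ := Prod.mk.inj h
      exact huniq k (Finset.mem_filter.1 (Finset.mem_coe.1 hk)).1 k'
        (Finset.mem_filter.1 (Finset.mem_coe.1 hk')).1 h2 h1
  have hsub : kk S G ⊆ nice S G T ∪ ((kk S G).filter Exc ∪
      ((kk S G).filter (fun k => ¬ Good S G T (k.1, k.2.1)) ∪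
        (kk S G).filter (fun k => ¬ Good S G T (k.2.1, k.1)))) := by
    intro k hk
    simp only [Finset.mem_union, Finset.mem_filter, mem_nice]
    by_cases h1 : Exc k
    · exact Or.inr (Or.inl ⟨hk, h1⟩)
    · by_cases h2 : Good S G T (k.1, k.2.1)
      · by_cases h3 : Good S G T (k.2.1, k.1)
        · exact Or.inl ⟨hk, h1, h2, h3⟩
        · exact Or.inr (Or.inr (Or.inr ⟨hk, h3⟩))
      · exact Or.inr (Or.inr (Or.inl ⟨hk, h2⟩))
  have h0 := Finset.card_le_card hsub
  have h1 := Finset.card_union_le (nice S G T) ((kk S G).filter Exc ∪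
      ((kk S G).filter (fun k => ¬ Good S G T (k.1, k.2.1)) ∪
        (kk S G).filter (fun k => ¬ Good S G T (k.2.1, k.1))))
  have h2 := Finset.card_union_le ((kk S G).filter Exc)
      ((kk S G).filter (fun k => ¬ Good S G T (k.1, k.2.1)) ∪
        (kk S G).filter (fun k => ¬ Good S G T (k.2.1, k.1)))
  have h3 := Finset.card_union_le ((kk S G).filter (fun k => ¬ Good S G T (k.1, k.2.1)))
        ((kk S G).filter (fun k => ¬ Good S G T (k.2.1, k.1)))
  omega

end Pool.Agent.UDG
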