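import Pool.Agent.UDG.NcF
import Pool.Agent.UDG.Cev

/-!
Module Cn3: the number of nice crossings, upper bound.
-/

namespace Pool.Agent.UDG

open Pool.Agent.AreaTri

variable {S : Finset Pt} {G T : SimpleGraph Pt}

/-- Let `N` be the image of `nice` under `k ↦ (k.1, k.2.1)`, which is injective (`px_unique`).
`N` is closed under `(a, b) ↦ (b, a)` (`nice` is closed under `(a, b, c, d) ↦ (b, a, d, c)`; `PX.flip`), so by `nice_fat`
`|N| ≤ 2 |N ∩ fat|`. Let `M = N ∩ fat`. By `nice_once` the sets `M`, `nxt M`, `nxt (nxt M)` are pairwise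
disjoint (`nxt3`), they are contained in `fat` (`fat_nxt`) and have the same number of elements, so
`3 |M| ≤ |fat|`. -/
theorem nice_upper (hD : IsDrawing 1 S G) (hT : IsTriangulation S T) (hle : pg S G ≤ T) {s t : ℝ}
    (hgen : Generic S s t) : 3 * (nice S G T).card ≤ 2 * (fat S G T s t).card := by
  classical
  have hpl : IsPlane S T := hT.1
  obtain ⟨f, hf⟩ : ∃ f : Pt × Pt × Pt × Pt → Pt × Pt, f = fun k => (k.1, k.2.1) := ⟨_, rfl⟩
  have hfk : ∀ k, f k = (k.1, k.2.1) := fun k => by rw [hf]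
  have hinj : Set.InjOn f (nice S G T : Set (Pt × Pt × Pt × Pt)) := by
    rintro ⟨a, b, c, d⟩ hk ⟨a', b', c', d'⟩ hk' he
    have h1 := ((mem_kk hD).1 (mem_nice.1 hk).1).1
    have h2 := ((mem_kk hD).1 (mem_nice.1 hk').1).1
    dsimp only at h1 h2
    rw [hfk, hfk] at he
    have e1 : a = a' := congrArg Prod.fst he
    have e2 : b = b' := congrArg Prod.snd he
    subst e1; subst e2
    obtain ⟨f1, f2⟩ := px_unique hD h1 h2
    rw [f1, f2]
  have hfat : ∀ k ∈ nice S G T, f k ∈ fat S G T s t ∨ ((f k).2, (f k).1) ∈ fat S G T s t := by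
    intro k hk
    rw [hfk]
    exact nice_fat hD hT hle hgen hk
  have hswap : ∀ k ∈ nice S G T, ∃ k' ∈ nice S G T, f k' = ((f k).2, (f k).1) := by
    rintro ⟨a, b, c, d⟩ hk
    obtain ⟨g1, g2, g3, g4⟩ := mem_nice.1 hk
    obtain ⟨g5, g6⟩ := (mem_kk hD).1 g1
    dsimp only at g3 g4 g5 g6
    refine ⟨(b, a, d, c), ?_, ?_⟩
    · rw [mem_nice]
      refine ⟨(mem_kk hD).2 ⟨g5.flip, g6.symm⟩, ?_, g4, g3⟩
      intro he
      apply g2
      unfold Exc at he ⊢
      dsimp only at he ⊢
      rcases he with ⟨h1, h2⟩ | ⟨h1, h2⟩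
      · exact Or.inl ⟨h2, h1⟩
      · exact Or.inr ⟨h2, h1⟩
    · rw [hfk, hfk]
  obtain ⟨M, hM⟩ : ∃ M, M = ((nice S G T).image f).filter (fun e => e ∈ fat S G T s t) := ⟨_, rfl⟩
  have hMm : ∀ e ∈ M, (∃ k ∈ nice S G T, f k = e) ∧ e ∈ fat S G T s t := by
    intro e he
    rw [hM, Finset.mem_filter, Finset.mem_image] at he
    exact he
  have hMd : ∀ e ∈ M, e ∈ darts S T := fun e he => (mem_fat.1 (hMm e he).2).1.1
  have hcard : (nice S G T).card ≤ 2 * M.card := by
    have h1 : (nice S G T).image f ⊆ M ∪ M.image (fun e => (e.2, e.1)) := by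
      intro e he
      obtain ⟨k, hk, rfl⟩ := Finset.mem_image.1 he
      rw [Finset.mem_union, Finset.mem_image]
      rcases hfat k hk with h | h
      · left
        rw [hM, Finset.mem_filter]
        exact ⟨he, h⟩
      · right
        refine ⟨((f k).2, (f k).1), ?_, rfl⟩
        rw [hM, Finset.mem_filter, Finset.mem_image]
        exact ⟨hswap k hk, h⟩
    have h2 := Finset.card_le_card h1
    rw [Finset.card_image_of_injOn hinj] at h2
    have h3 := Finset.card_union_le M (M.image (fun e => (e.2, e.1)))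
    have h4 : (M.image (fun e => (e.2, e.1))).card ≤ M.card := Finset.card_image_le
    omega
  have honce : ∀ e ∈ M, ∀ e' ∈ M, nxt S T e ≠ e' := by
    intro e he e' he'
    obtain ⟨⟨k, hk, rfl⟩, _⟩ := hMm e he
    obtain ⟨⟨k', hk', rfl⟩, _⟩ := hMm e' he'
    rw [hfk, hfk]
    exact nice_once hD hT hle hk hk'
  have hi1 : Set.InjOn (nxt S T) (M : Set (Pt × Pt)) := by
    intro e he e' he' h
    have h1 := nxt3 hpl (hMd e he)
    have h2 := nxt3 hpl (hMd e' he')
    rw [h] at h1
    exact h1.symm.trans h2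
  have hi2 : Set.InjOn (fun e => nxt S T (nxt S T e)) (M : Set (Pt × Pt)) := by
    intro e he e' he' h
    have h1 := nxt3 hpl (hMd e he)
    have h2 := nxt3 hpl (hMd e' he')
    have h3 : nxt S T (nxt S T e) = nxt S T (nxt S T e') := h
    rw [h3] at h1
    exact h1.symm.trans h2
  have hd1 : Disjoint M (M.image (nxt S T)) := by
    rw [Finset.disjoint_left]
    intro e he he'
    obtain ⟨e', h1, h2⟩ := Finset.mem_image.1 he'
    exact honce e' h1 e he h2
  have hd2 : Disjoint (M ∪ M.image (nxt S T)) (M.image (fun e => nxt S T (nxt S T e))) := by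
    rw [Finset.disjoint_left]
    intro e he he'
    obtain ⟨e', h1, h2⟩ := Finset.mem_image.1 he'
    have h3 := nxt3 hpl (hMd e' h1)
    have h2' : nxt S T (nxt S T e') = e := h2
    rcases Finset.mem_union.1 he with h | h
    · rw [h2'] at h3
      exact honce e h e' h1 h3
    · obtain ⟨e'', h4, h5⟩ := Finset.mem_image.1 h
      have h6 := nxt3 hpl (hMd e'' h4)
      rw [← h2'] at h5
      rw [h5, h3] at h6
      exact honce e' h1 e'' h4 h6
  have hsub : (M ∪ M.image (nxt S T)) ∪ M.image (fun e => nxt S T (nxt S T e)) ⊆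
      fat S G T s t := by
    intro e he
    rw [Finset.mem_union, Finset.mem_union, Finset.mem_image, Finset.mem_image] at he
    rcases he with (h | ⟨e', h, rfl⟩) | ⟨e', h, rfl⟩
    · exact (hMm e h).2
    · exact fat_nxt hpl (hMm e' h).2
    · exact fat_nxt hpl (fat_nxt hpl (hMm e' h).2)
  have h5 := Finset.card_le_card hsub
  rw [Finset.card_union_of_disjoint hd2, Finset.card_union_of_disjoint hd1,
    Finset.card_image_of_injOn hi1, Finset.card_image_of_injOn hi2] at h5
  omega

end Pool.Agent.UDG
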