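import Pool.Agent.UDG.Bas

/-!
Module Col: the boundary crosses every line through a good triangle.
-/

namespace Pool.Agent.UDG

open Pool.Agent.AreaTri

variable {S : Finset Pt} {G T : SimpleGraph Pt}

theorem col_lt1 {P Q R p' q' r' : ℝ} (hP : P < 0) (hQ : 0 < Q) (hR : R < 0)
    (hK : 0 < (Q - P) * (r' - p') - (R - P) * (q' - p')) :
    (-Q * p' + P * q') / (P - Q) < (-Q * r' + R * q') / (R - Q) := by
  have h1 : P - Q ≠ 0 := by intro h; linarith
  have h2 : R - Q ≠ 0 := by intro h; linarith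
  have h3 : 0 < (Q - R) * (Q - P) := mul_pos (by linarith) (by linarith)
  rw [← sub_pos]
  have e : (-Q * r' + R * q') / (R - Q) - (-Q * p' + P * q') / (P - Q) =
      Q * ((Q - P) * (r' - p') - (R - P) * (q' - p')) / ((Q - R) * (Q - P)) := by
    have h1' : Q - P ≠ 0 := by intro h; linarith
    have h2' : Q - R ≠ 0 := by intro h; linarith
    field_simp
    ring
  rw [e]
  exact div_pos (mul_pos hQ hK) h3

theorem col_lt2 {P Q R p' q' r' : ℝ} (hP : P < 0) (hQ : 0 < Q) (hR : 0 < R)
    (hK : 0 < (Q - P) * (r' - p') - (R - P) * (q' - p')) :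
    (-Q * p' + P * q') / (P - Q) < (-R * p' + P * r') / (P - R) := by
  have h1 : P - Q ≠ 0 := by intro h; linarith
  have h2 : P - R ≠ 0 := by intro h; linarith
  have h3 : 0 < (R - P) * (Q - P) := mul_pos (by linarith) (by linarith)
  rw [← sub_pos]
  have e : (-R * p' + P * r') / (P - R) - (-Q * p' + P * q') / (P - Q) =
      (-P) * ((Q - P) * (r' - p') - (R - P) * (q' - p')) / ((R - P) * (Q - P)) := by
    have h1' : Q - P ≠ 0 := by intro h; linarith
    have h2' : R - P ≠ 0 := by intro h; linarith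
    field_simp
    ring
  rw [e]
  exact div_pos (mul_pos (by linarith) hK) h3

/-- Let `c e = ((τ - lin e.1) lin' e.2 + (lin e.2 - τ) lin' e.1) / (lin e.2 - lin e.1)` with
`lin = lin α β`, `lin' = lin (-β) α`: the coordinate of the crossing point of `e` and the line
`lin = τ`. Let `D` be the set of all good `e` with `lin e.2 < τ < lin e.1`.
* `D` is not empty: `τ = lin z` is a convex combination of the values of `lin` at the vertices of the
  triangle of `e`, with positive weights, and these values are not `τ`; so going around the triangle there is a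
  side from a value `> τ` to a value `< τ`, and it is good (`Good.nxt`).
* Let `e' ∈ D` have the largest `c e'` and suppose that `f = (e'.2, e'.1)` is good, `(p, q) = f`, `r = third p q`;
  `lin p < τ < lin q`. If `lin r < τ` then `nxt f = (q, r) ∈ D`, if `lin r > τ` then `nxt (nxt f) = (r, p) ∈ D`.
  In both cases its coordinate is larger, contradiction. Indeed with `P = lin p - τ`, `Q = lin q - τ`,
  `R = lin r - τ` and `p' = lin' p`, ... the difference of the coordinates of `(q, r)` and `(p, q)`, multiplied by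
  `(Q - R) (Q - P) > 0`, is `Q ((Q - P) (r' - p') - (R - P) (q' - p')) = Q (α ^ 2 + β ^ 2) orient p q r > 0`,
  and similarly for `(r, p)` (factor `- P > 0`). (`(α, β) ≠ 0` because `lin` is not
  constant.) -/
theorem exists_bd (hpl : IsPlane S T) {α β τ : ℝ} (hτ : ∀ p ∈ S, lin α β p ≠ τ)
    {e : Pt × Pt} {z : Pt} (he : Good S G T e) (hz : Ins e.1 e.2 (third S T e.1 e.2) z)
    (hzτ : lin α β z = τ) : ∃ e' ∈ bd S G T, lin α β e'.2 < τ ∧ τ < lin α β e'.1 := by
  classical
  set c : Pt × Pt → ℝ := fun e => (-(lin α β e.1 - τ) * lin (-β) α e.2 +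
    (lin α β e.2 - τ) * lin (-β) α e.1) / ((lin α β e.2 - τ) - (lin α β e.1 - τ)) with hc
  set D : Finset (Pt × Pt) := (good S G T).filter
    (fun e => lin α β e.2 < τ ∧ τ < lin α β e.1) with hD
  have memD : ∀ f, f ∈ D ↔ Good S G T f ∧ lin α β f.2 < τ ∧ τ < lin α β f.1 := by
    intro f
    rw [hD, Finset.mem_filter, mem_good]
  have hDne : D.Nonempty := by
    obtain ⟨hf, hpos⟩ := third_spec hpl he.1
    have hn1 : Good S G T (nxt S T e) := he.nxt hpl
    have hn2 : Good S G T (nxt S T (nxt S T e)) := hn1.nxt hpl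
    rw [nxt2 hpl he.1] at hn2
    unfold nxt at hn1
    generalize hr : third S T e.1 e.2 = r at *
    obtain ⟨p, q⟩ := e
    simp only at *
    have hp := hτ p (hpl.mem _ _ hf.ab)
    have hq := hτ q (hpl.mem _ _ hf.bc)
    have hr' := hτ r (hpl.mem _ _ hf.ca)
    obtain ⟨z1, z2, z3⟩ := hz
    have id : orient q r z * (lin α β p - τ) + orient r p z * (lin α β q - τ) +
        orient p q z * (lin α β r - τ) = 0 := by
      rw [← hzτ]; unfold orient lin; ring
    rcases lt_or_gt_of_ne hp with h1 | h1 <;> rcases lt_or_gt_of_ne hq with h2 | h2 <;>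
      rcases lt_or_gt_of_ne hr' with h3 | h3
    · exfalso
      nlinarith [mul_pos z2 (sub_pos.2 h1), mul_pos z3 (sub_pos.2 h2), mul_pos z1 (sub_pos.2 h3)]
    · exact ⟨(r, p), (memD _).2 ⟨hn2, h1, h3⟩⟩
    · exact ⟨(q, r), (memD _).2 ⟨hn1, h3, h2⟩⟩
    · exact ⟨(r, p), (memD _).2 ⟨hn2, h1, h3⟩⟩
    · exact ⟨(p, q), (memD _).2 ⟨he, h2, h1⟩⟩
    · exact ⟨(p, q), (memD _).2 ⟨he, h2, h1⟩⟩
    · exact ⟨(q, r), (memD _).2 ⟨hn1, h3, h2⟩⟩
    · exfalso
      nlinarith [mul_pos z2 (sub_pos.2 h1), mul_pos z3 (sub_pos.2 h2), mul_pos z1 (sub_pos.2 h3)]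
  obtain ⟨e', he', hmax⟩ := Finset.exists_max_image D c hDne
  obtain ⟨hg, hlt, hgt⟩ := (memD _).1 he'
  refine ⟨e', mem_bd.2 ⟨hg, ?_⟩, hlt, hgt⟩
  intro hbad
  obtain ⟨q, p⟩ := e'
  simp only at hlt hgt hbad
  obtain ⟨hf, hpos⟩ := third_spec hpl hbad.1
  have hn1 : Good S G T (nxt S T (p, q)) := hbad.nxt hpl
  have hn2 : Good S G T (nxt S T (nxt S T (p, q))) := hn1.nxt hpl
  rw [nxt2 hpl hbad.1] at hn2
  unfold nxt at hn1
  simp only at hn1 hn2 hf hpos
  generalize hr : third S T p q = r at *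
  have hrτ := hτ r (hpl.mem _ _ hf.ca)
  have hαβ : 0 < α ^ 2 + β ^ 2 := by
    rcases eq_or_ne α 0 with ha | ha
    · rcases eq_or_ne β 0 with hb | hb
      · exfalso
        unfold lin at hlt hgt
        rw [ha, hb] at hlt hgt
        linarith
      · have := sq_pos_of_ne_zero hb
        nlinarith [sq_nonneg α]
    · have := sq_pos_of_ne_zero ha
      nlinarith [sq_nonneg β]
  have hK : 0 < ((lin α β q - τ) - (lin α β p - τ)) * (lin (-β) α r - lin (-β) α p) -
      ((lin α β r - τ) - (lin α β p - τ)) * (lin (-β) α q - lin (-β) α p) := by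
    have e1 : ((lin α β q - τ) - (lin α β p - τ)) * (lin (-β) α r - lin (-β) α p) -
      ((lin α β r - τ) - (lin α β p - τ)) * (lin (-β) α q - lin (-β) α p) =
        (α ^ 2 + β ^ 2) * orient p q r := by
      unfold lin orient; ring
    rw [e1]
    exact mul_pos hαβ hpos
  rcases lt_or_gt_of_ne hrτ with h | h
  · have h1 := hmax (q, r) ((memD _).2 ⟨hn1, h, hgt⟩)
    rw [hc] at h1
    simp only at h1
    have h2 := col_lt1 (P := lin α β p - τ) (Q := lin α β q - τ) (R := lin α β r - τ)
      (p' := lin (-β) α p) (q' := lin (-β) α q) (r' := lin (-β) α r)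
      (by linarith) (by linarith) (by linarith) hK
    linarith
  · have h1 := hmax (r, p) ((memD _).2 ⟨hn2, hlt, h⟩)
    rw [hc] at h1
    simp only at h1
    have h2 := col_lt2 (P := lin α β p - τ) (Q := lin α β q - τ) (R := lin α β r - τ)
      (p' := lin (-β) α p) (q' := lin (-β) α q) (r' := lin (-β) α r)
      (by linarith) (by linarith) (by linarith) hK
    linarith

end Pool.Agent.UDG
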