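import Pool.Agent.UDG.Bas

/-!
Module Crs: crossings of unit edges.
-/

namespace Pool.Agent.UDG

open Pool.Agent.AreaTri

variable {S : Finset Pt} {G T : SimpleGraph Pt}

/-- Two different edges of a drawing whose open segments meet cross properly. If `orient a b c` and
`orient a b d` are both zero use `overlap_eq`; if just one of them is zero the common point `z` gives
a contradiction (`On.orient`: `0 = orient a b z = (1 - t) orient a b c + t orient a b d`); so they have
opposite signs. Similarly for `orient c d a`, `orient c d b`; the signs match because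
`orient a b c - orient a b d = orient c d b - orient c d a`. -/
theorem px_of_meet {k : ℕ} (hD : IsDrawing k S G) {a b c d z : Pt} (hab : G.Adj a b)
    (hcd : G.Adj c d) (hne : s(a, b) ≠ s(c, d)) (hz : z ∈ openSegment ℝ a b)
    (hz' : z ∈ openSegment ℝ c d) : PX G a b c d ∨ PX G a b d c := by
  obtain ⟨s, hs0, hs1, hs⟩ := mem_oseg_on.1 hz
  obtain ⟨t, ht0, ht1, ht⟩ := mem_oseg_on.1 hz'
  have e1 : orient a b z = 0 := by
    rw [hs.orient]; simp
  have e2 : orient c d z = 0 := by
    rw [ht.orient]; simp
  have f1 := ht.orient a b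
  have f2 := hs.orient c d
  rw [e1] at f1
  rw [e2] at f2
  have hid : orient c d b - orient c d a = orient a b c - orient a b d := by
    unfold orient; ring
  have gen : ∀ A B t : ℝ, 0 < t → t < 1 → (0:ℝ) = (1 - t) * A + t * B → A < B → A < 0 ∧ 0 < B := by
    intro A B t h0 h1 h hAB
    constructor <;> nlinarith
  rcases lt_trichotomy (orient a b c) 0 with h | h | h
  · right
    have hd : 0 < orient a b d := by
      by_contra hcon
      push Not at hcon
      have : (1 - t) * orient a b c < 0 := by
        apply mul_neg_of_pos_of_neg <;> linarith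
      have : t * orient a b d ≤ 0 := mul_nonpos_of_nonneg_of_nonpos ht0.le hcon
      linarith
    have hg := gen (orient c d b) (orient c d a) (1 - s) (by linarith) (by linarith)
      (by linarith) (by linarith)
    refine ⟨hab, hcd.symm, hd, h, ?_, ?_⟩
    · rw [orient_swap']; linarith [hg.2]
    · rw [orient_swap']; linarith [hg.1]
  · exfalso
    have hd : orient a b d = 0 := by
      rw [h] at f1
      have : t * orient a b d = 0 := by linarith
      rcases mul_eq_zero.1 this with h' | h'
      · linarith
      · exact h'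
    exact hne (overlap_eq (hD.mem _ _ hab) (hD.mem _ _ hab.symm) (hD.mem _ _ hcd)
      (hD.mem _ _ hcd.symm) (hD.free _ _ hab) (hD.free _ _ hcd) hz hz' hab.ne h hd).symm
  · left
    have hd : orient a b d < 0 := by
      by_contra hcon
      push Not at hcon
      have : 0 < (1 - t) * orient a b c := by
        apply mul_pos <;> linarith
      have : 0 ≤ t * orient a b d := mul_nonneg ht0.le hcon
      linarith
    have hg := gen (orient c d a) (orient c d b) s (by linarith) (by linarith)
      (by linarith) (by linarith)
    exact ⟨hab, hcd, h, hd, hg.1, hg.2⟩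

/-- The point is `c + τ (d - c)` with `τ = orient a b c / (orient a b c - orient a b d)`. -/
theorem PX.meet {a b c d : Pt} (h : PX G a b c d) :
    ∃ z, z ∈ openSegment ℝ a b ∧ z ∈ openSegment ℝ c d := by
  have hid : orient c d b - orient c d a = orient a b c - orient a b d := by
    unfold orient; ring
  have hpos : 0 < orient a b c - orient a b d := by linarith [h.c_left, h.d_right]
  have hne : orient a b c - orient a b d ≠ 0 := ne_of_gt hpos
  refine ⟨(c.1 + orient a b c / (orient a b c - orient a b d) * (d.1 - c.1),
    c.2 + orient a b c / (orient a b c - orient a b d) * (d.2 - c.2)), ?_, ?_⟩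
  · refine mem_oseg_on.2 ⟨- orient c d a / (orient a b c - orient a b d), ?_, ?_, ?_, ?_⟩
    · apply div_pos _ hpos
      linarith [h.a_right]
    · rw [div_lt_one hpos]
      linarith [h.b_left]
    · simp only
      field_simp
      unfold orient; ring
    · simp only
      field_simp
      unfold orient; ring
  · refine mem_oseg_on.2 ⟨orient a b c / (orient a b c - orient a b d), ?_, ?_, rfl, rfl⟩
    · exact div_pos h.c_left hpos
    · rw [div_lt_one hpos]
      linarith [h.d_right]

/-- 1-planarity: an edge that meets `a b` is the edge `c d`. (`hD.planar s(a, b)`: both `s(c, d)`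
(by `PX.meet`) and `s(u, w)` are in the set, whose `encard` is at most `1`;
`Set.encard_le_one_iff`.) -/
theorem meet_unique (hD : IsDrawing 1 S G) {a b c d u w z : Pt} (h : PX G a b c d)
    (huw : G.Adj u w) (hne : s(u, w) ≠ s(a, b)) (hz : z ∈ openSegment ℝ a b)
    (hz' : z ∈ openSegment ℝ u w) : s(u, w) = s(c, d) := by
  have hpl := hD.planar s(a, b) h.ab
  have hpl' : {e' | e' ∈ G.edgeSet ∧ Crosses s(a, b) e'}.encard ≤ 1 := by
    simpa using hpl
  rw [Set.encard_le_one_iff] at hpl'
  obtain ⟨z₀, hz₀, hz₀'⟩ := h.meet
  exact hpl' _ _ ⟨huw, Ne.symm hne, a, b, u, w, z, rfl, rfl, hz, hz'⟩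
    ⟨h.cd, h.ne, a, b, c, d, z₀, rfl, rfl, hz₀, hz₀'⟩

theorem px_unique (hD : IsDrawing 1 S G) {a b c d c' d' : Pt} (h : PX G a b c d)
    (h' : PX G a b c' d') : c = c' ∧ d = d' := by
  obtain ⟨z, hz, hz'⟩ := h'.meet
  have he := meet_unique hD h h'.cd h'.ne.symm hz hz'
  rcases Sym2.eq_iff.1 he with ⟨h1, h2⟩ | ⟨h1, h2⟩
  · exact ⟨h1.symm, h2.symm⟩
  · exfalso
    have h3 := h'.c_left
    rw [h1] at h3
    linarith [h.d_right]

end Pool.Agent.UDG
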