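import Mathlib

/-!
`k`-planar unit distance graphs: definitions.
-/

namespace Pool.Agent.UDG

/-- squared Euclidean distance -/
def dsq (p q : ℝ × ℝ) : ℝ := (p.1 - q.1) ^ 2 + (p.2 - q.2) ^ 2

/-- `e` and `e'` are different and the two open segments have a common point -/
def Crosses (e e' : Sym2 (ℝ × ℝ)) : Prop :=
  e ≠ e' ∧ ∃ p q r s z, e = s(p, q) ∧ e' = s(r, s) ∧ z ∈ openSegment ℝ p q ∧ z ∈ openSegment ℝ r s

/-- A `k`-planar unit distance graph with vertex set `S`: all edges are segments of length one with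
ends in `S`, no point of `S` is an interior point of an edge, and each edge crosses at most `k`
other edges. -/
structure IsDrawing (k : ℕ) (S : Finset (ℝ × ℝ)) (G : SimpleGraph (ℝ × ℝ)) : Prop where
  mem : ∀ p q, G.Adj p q → p ∈ S
  unit : ∀ p q, G.Adj p q → dsq p q = 1
  free : ∀ p q, G.Adj p q → ∀ r ∈ S, r ∉ openSegment ℝ p q
  planar : ∀ e ∈ G.edgeSet, {e' | e' ∈ G.edgeSet ∧ Crosses e e'}.encard ≤ k

/-- the maximum number of edges of a `k`-planar unit distance graph on `n` vertices -/
noncomputable def u (k n : ℕ) : ℕ :=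
  sSup {m | ∃ S G, S.card = n ∧ IsDrawing k S G ∧ G.edgeSet.ncard = m}

end Pool.Agent.UDG
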