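import Pool.Agent.AreaTri.Count
import Pool.Agent.UDG.Stmt

/-!
Definitions for the bound `u 1 n ≤ 3 n - √n / 12`.
-/

namespace Pool.Agent.UDG

open Pool.Agent.AreaTri

open Classical in
/-- directed edges -/
noncomputable def dz (S : Finset Pt) (G : SimpleGraph Pt) : Finset (Pt × Pt) :=
  (S ×ˢ S).filter (fun e => G.Adj e.1 e.2)

/-- The edges `a b` and `c d` of `G` cross properly, `c` is to the left of `a → b` (and so `d` to the
right of it, `a` to the right and `b` to the left of `c → d`). -/
structure PX (G : SimpleGraph Pt) (a b c d : Pt) : Prop where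
  ab : G.Adj a b
  cd : G.Adj c d
  c_left : 0 < orient a b c
  d_right : orient a b d < 0
  a_right : orient c d a < 0
  b_left : 0 < orient c d b

theorem PX.rot {G : SimpleGraph Pt} {a b c d : Pt} (h : PX G a b c d) : PX G c d b a where
  ab := h.cd
  cd := h.ab.symm
  c_left := h.b_left
  d_right := h.a_right
  a_right := by rw [orient_swap']; linarith [h.c_left]
  b_left := by rw [orient_swap']; linarith [h.d_right]

theorem PX.flip {G : SimpleGraph Pt} {a b c d : Pt} (h : PX G a b c d) : PX G b a d c := h.rot.rot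

/-- The kept edges: all edges which are not crossed, and the smaller one of two crossing edges. -/
noncomputable def kept (G : SimpleGraph Pt) : SimpleGraph Pt where
  Adj p q := G.Adj p q ∧ ∀ c d, PX G p q c d → WellOrderingRel s(p, q) s(c, d)
  symm := ⟨by
    intro p q h
    refine ⟨h.1.symm, ?_⟩
    intro c d hx
    have := h.2 d c hx.flip
    rw [Sym2.eq_swap, Sym2.eq_swap (a := c)]
    exact this⟩
  loopless := ⟨fun p h => G.loopless.1 p h.1⟩

open Classical in
/-- the corners of the crossings: `(a, b, c, d)` stands for the corner between `a` and `c` -/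
noncomputable def cor (S : Finset Pt) (G : SimpleGraph Pt) : Finset (Pt × Pt × Pt × Pt) :=
  (S ×ˢ S ×ˢ S ×ˢ S).filter (fun k => PX G k.1 k.2.1 k.2.2.1 k.2.2.2)

open Classical in
/-- the short corners -/
noncomputable def sc (S : Finset Pt) (G : SimpleGraph Pt) : Finset (Pt × Pt × Pt × Pt) :=
  (cor S G).filter (fun k => dsq k.1 k.2.2.1 < 1)

/-- `v` is the first point seen from `a` in the triangle `a x c` (where `x` is the crossing point of
`a b` and `c d`), when the ray from `a` turns from `a b` to `a c`. The triangle is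
`orient a b p ≥ 0`, `orient c d p ≤ 0`, `orient a c p ≤ 0`. -/
structure AV (S : Finset Pt) (a b c d v : Pt) : Prop where
  mem : v ∈ S
  left : 0 < orient a b v
  cd : orient c d v ≤ 0
  ac : orient a c v ≤ 0
  min : ∀ p ∈ S, 0 < orient a b p → orient c d p ≤ 0 → orient a c p ≤ 0 → 0 ≤ orient a v p
  near : ∀ p ∈ S, 0 < orient a b p → orient c d p ≤ 0 → orient a c p ≤ 0 → orient a v p = 0 →
    orient a b v ≤ orient a b p

open Classical in
/-- the chosen point `v` of a corner -/
noncomputable def vf (S : Finset Pt) (k : Pt × Pt × Pt × Pt) : Pt :=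
  if h : ∃ v, AV S k.1 k.2.1 k.2.2.1 k.2.2.2 v then h.choose else k.1

/-- the directed segment of a corner; the corner is to the left of it -/
noncomputable def del (S : Finset Pt) (k : Pt × Pt × Pt × Pt) : Pt × Pt := (vf S k, k.1)

open Classical in
/-- directed kept edges and directed segments of short corners -/
noncomputable def gd (S : Finset Pt) (G : SimpleGraph Pt) : Finset (Pt × Pt) :=
  dz S (kept G) ∪ (sc S G).image (del S)

/-- the kept edges and the segments of the short corners -/
noncomputable def pg (S : Finset Pt) (G : SimpleGraph Pt) : SimpleGraph Pt where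
  Adj p q := p ≠ q ∧ ((p, q) ∈ gd S G ∨ (q, p) ∈ gd S G)
  symm := ⟨fun _ _ h => ⟨h.1.symm, h.2.symm⟩⟩
  loopless := ⟨fun _ h => h.1 rfl⟩

open Classical in
/-- the other directed edges of the triangulation `T` -/
noncomputable def nd (S : Finset Pt) (G T : SimpleGraph Pt) : Finset (Pt × Pt) :=
  dz S T \ gd S G

/-- the triangle to the left of `e` has only good sides -/
def Good (S : Finset Pt) (G T : SimpleGraph Pt) (e : Pt × Pt) : Prop :=
  e ∈ darts S T ∧ e ∈ gd S G ∧ nxt S T e ∈ gd S G ∧ nxt S T (nxt S T e) ∈ gd S G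

open Classical in
noncomputable def good (S : Finset Pt) (G T : SimpleGraph Pt) : Finset (Pt × Pt) :=
  (darts S T).filter (Good S G T)

open Classical in
/-- the boundary of the union of the good triangles -/
noncomputable def bd (S : Finset Pt) (G T : SimpleGraph Pt) : Finset (Pt × Pt) :=
  (good S G T).filter (fun e => ¬ Good S G T (e.2, e.1))

/-- `z` is strictly inside the positively oriented triangle `p q r` -/
def Ins (p q r z : Pt) : Prop := 0 < orient p q z ∧ 0 < orient q r z ∧ 0 < orient r p z

/-- a grid of mesh `2/5` -/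
noncomputable def grid (s t : ℝ) (i j : ℤ) : Pt := (s + 2 / 5 * i, t + 2 / 5 * j)

/-- the grid avoids the points and the lines -/
structure Generic (S : Finset Pt) (s t : ℝ) : Prop where
  line : ∀ p ∈ S, ∀ q ∈ S, p ≠ q → ∀ i j : ℤ, orient p q (grid s t i j) ≠ 0
  fst : ∀ p ∈ S, ∀ i : ℤ, p.1 ≠ s + 2 / 5 * i
  snd : ∀ p ∈ S, ∀ j : ℤ, p.2 ≠ t + 2 / 5 * j

/-- the triangle to the left of `e` contains a point of the grid -/
def HasGrid (S : Finset Pt) (T : SimpleGraph Pt) (s t : ℝ) (e : Pt × Pt) : Prop :=
  ∃ i j : ℤ, Ins e.1 e.2 (third S T e.1 e.2) (grid s t i j)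

open Classical in
/-- good directed edges whose triangle contains a point of the grid -/
noncomputable def fat (S : Finset Pt) (G T : SimpleGraph Pt) (s t : ℝ) : Finset (Pt × Pt) :=
  (good S G T).filter (HasGrid S T s t)

/-- more than two of the four sides of the crossing are short -/
def Exc (k : Pt × Pt × Pt × Pt) : Prop :=
  (dsq k.1 k.2.2.1 < 1 ∧ dsq k.2.1 k.2.2.2 < 1) ∨ (dsq k.2.1 k.2.2.1 < 1 ∧ dsq k.1 k.2.2.2 < 1)

open Classical in
/-- the corners of the crossings with kept edge `a b` -/
noncomputable def kk (S : Finset Pt) (G : SimpleGraph Pt) : Finset (Pt × Pt × Pt × Pt) :=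
  (cor S G).filter (fun k => (kept G).Adj k.1 k.2.1)

open Classical in
/-- the nice ones: exactly two short sides, and the triangles on both sides of `a b` are good -/
noncomputable def nice (S : Finset Pt) (G T : SimpleGraph Pt) : Finset (Pt × Pt × Pt × Pt) :=
  (kk S G).filter (fun k => ¬ Exc k ∧ Good S G T (k.1, k.2.1) ∧ Good S G T (k.2.1, k.1))

end Pool.Agent.UDG
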