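import Pool.Agent.UDG.Bas

/-!
Module Edg: directed and undirected edges, and the number u.
-/

namespace Pool.Agent.UDG

open Pool.Agent.AreaTri

variable {S : Finset Pt} {G T : SimpleGraph Pt}

/-- `dz S G` is the set of darts of `G`: every edge has two directions. (For example:
`e ↦ s(e.1, e.2)` maps `dz S G` onto the edge set, which is finite, and every fiber `{(p, q), (q, p)}` has two elements.) -/
theorem ncard_edgeSet {k : ℕ} (hD : IsDrawing k S G) : 2 * G.edgeSet.ncard = (dz S G).card := by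
  classical
  have hE : G.edgeSet = ↑((dz S G).image (fun e => s(e.1, e.2))) := by
    ext x
    induction x using Sym2.ind with
    | _ p q =>
      rw [SimpleGraph.mem_edgeSet, Finset.mem_coe, Finset.mem_image]
      constructor
      · intro h
        exact ⟨(p, q), (mem_dz_drawing hD).2 h, rfl⟩
      · rintro ⟨e, he, hs⟩
        have h1 := (mem_dz_drawing hD).1 he
        rcases Sym2.eq_iff.1 hs with ⟨h2, h3⟩ | ⟨h2, h3⟩
        · rw [h2, h3] at h1; exact h1
        · rw [h2, h3] at h1; exact h1.symm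
  have hc := Finset.card_eq_sum_card_image (fun e : Pt × Pt => s(e.1, e.2)) (dz S G)
  have h2 : ∀ y ∈ (dz S G).image (fun e => s(e.1, e.2)),
      ((dz S G).filter (fun e => s(e.1, e.2) = y)).card = 2 := by
    intro y hy
    obtain ⟨e, he, rfl⟩ := Finset.mem_image.1 hy
    have h1 := (mem_dz_drawing hD).1 he
    have hf : (dz S G).filter (fun e' => s(e'.1, e'.2) = s(e.1, e.2)) = {e, (e.2, e.1)} := by
      ext x
      rw [Finset.mem_filter, Finset.mem_insert, Finset.mem_singleton]
      constructor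
      · rintro ⟨_, hs⟩
        rcases Sym2.eq_iff.1 hs with ⟨h2, h3⟩ | ⟨h2, h3⟩
        · exact Or.inl (Prod.ext h2 h3)
        · exact Or.inr (Prod.ext h2 h3)
      · rintro (rfl | rfl)
        · exact ⟨he, rfl⟩
        · exact ⟨(mem_dz_drawing hD).2 h1.symm, Sym2.eq_swap⟩
    rw [hf, Finset.card_pair]
    intro he2
    have : e.1 = e.2 := congrArg Prod.fst he2
    exact h1.ne this
  rw [hE, Set.ncard_coe_finset, hc, Finset.sum_congr rfl h2, Finset.sum_const, smul_eq_mul, mul_comm]

/-- `Nat.sSup_mem`: the set is not empty (the graph without edges, on any `n` points) and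
bounded above by `hB`. -/
theorem u_le {k n : ℕ} {B : ℝ} (hB : ∀ (S : Finset (ℝ × ℝ)) (G : SimpleGraph (ℝ × ℝ)), S.card = n →
    IsDrawing k S G → (G.edgeSet.ncard : ℝ) ≤ B) : (u k n : ℝ) ≤ B := by
  have hne : {m | ∃ (S : Finset (ℝ × ℝ)) (G : SimpleGraph (ℝ × ℝ)), S.card = n ∧ IsDrawing k S G ∧
      G.edgeSet.ncard = m}.Nonempty := by
    obtain ⟨S, hS⟩ := Infinite.exists_subset_card_eq (ℝ × ℝ) n
    refine ⟨_, S, ⊥, hS, ⟨?_, ?_, ?_, ?_⟩, rfl⟩
    · intro p q h; exact absurd h (by simp)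
    · intro p q h; exact absurd h (by simp)
    · intro p q h; exact absurd h (by simp)
    · intro e he; exact absurd he (by simp)
  have hbd : BddAbove {m | ∃ (S : Finset (ℝ × ℝ)) (G : SimpleGraph (ℝ × ℝ)), S.card = n ∧
      IsDrawing k S G ∧ G.edgeSet.ncard = m} := by
    refine ⟨⌊B⌋₊, ?_⟩
    rintro m ⟨S, G, h1, h2, rfl⟩
    exact Nat.le_floor (hB S G h1 h2)
  obtain ⟨S, G, h1, h2, h3⟩ := Nat.sSup_mem hne hbd
  have h4 := hB S G h1 h2
  rw [h3] at h4
  exact h4

end Pool.Agent.UDG
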