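import Pool.Agent.UDG.Mid

/-!
Module Eul: the Euler formula.
-/

namespace Pool.Agent.UDG

open Pool.Agent.AreaTri

variable {S : Finset Pt} {G T : SimpleGraph Pt}

/-- Take `α = 1` and `β` outside of a finite set. -/
theorem exists_lin (S : Finset Pt) :
    ∃ α β : ℝ, ∀ p ∈ S, ∀ q ∈ S, lin α β p = lin α β q → p = q := by
  classical
  obtain ⟨β, hβ⟩ := Infinite.exists_notMem_finset
    ((S ×ˢ S).image (fun e : Pt × Pt => -(e.1.1 - e.2.1) / (e.1.2 - e.2.2)))
  refine ⟨1, β, ?_⟩
  intro p hp q hq h
  unfold lin at h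
  by_cases h2 : p.2 = q.2
  · refine Prod.ext ?_ h2
    rw [h2] at h
    linarith
  · exfalso
    apply hβ
    refine Finset.mem_image.2 ⟨(p, q), Finset.mem_product.2 ⟨hp, hq⟩, ?_⟩
    have h3 : p.2 - q.2 ≠ 0 := sub_ne_zero.2 h2
    show -(p.1 - q.1) / (p.2 - q.2) = β
    rw [div_eq_iff h3]
    linarith

/-- Take `α β` from `exists_lin`, and add `mid_count` for `(α, β)` and for `(-α, -β)`
(`lin (-α) (-β) p = - lin α β p`). The sum of the two first terms is the number of all darts whose
first vertex is the middle one of its triangle, and three times this number is `(darts S T).card`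
(`sum_three` with the indicator function, exactly as in the proof of `card_darts` in
`AreaTri/Count.lean`). The sum of the two second terms is
`(dz S T \ darts S T).card = (dz S T).card - (darts S T).card` (`darts_sub`). So with
`D = |darts|`, `E = |dz|`: `D / 3 + (E - D) + 2 = 2 |S|`. -/
theorem euler (hT : IsTriangulation S T) (hS : S.Nonempty) :
    3 * (dz S T).card + 6 = 2 * (darts S T).card + 6 * S.card := by
  classical
  have hpl := hT.1
  obtain ⟨α, β, hinj⟩ := exists_lin S
  have hneg : ∀ p : Pt, lin (-α) (-β) p = - lin α β p := by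
    intro p; unfold lin; ring
  have h1 := mid_count hT hS α β hinj
  have h2 := mid_count hT hS (-α) (-β) (by
    intro p hp q hq h
    rw [hneg, hneg] at h
    exact hinj p hp q hq (by linarith))
  simp only [hneg, neg_lt_neg_iff] at h2
  set m : Pt × Pt → ℝ := fun e => if (lin α β (third S T e.1 e.2) < lin α β e.1 ∧
    lin α β e.1 < lin α β e.2) ∨ (lin α β e.1 < lin α β (third S T e.1 e.2) ∧
    lin α β e.2 < lin α β e.1) then 1 else 0 with hm
  have k1 : ∀ e ∈ darts S T, m e + m (nxt S T e) + m (nxt S T (nxt S T e)) = 1 := by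
    intro e he
    obtain ⟨hf, hpos⟩ := third_spec hpl he
    have hvS : e.1 ∈ S := hpl.mem _ _ hf.ab
    have hqS : e.2 ∈ S := hpl.mem _ _ hf.ab.symm
    have hcS : third S T e.1 e.2 ∈ S := hpl.mem _ _ hf.ca
    have t1 := third_eq hpl hf.rot (by rw [orient_cyc]; exact hpos)
    have t2 := third_eq hpl hf.rot.rot (by rw [orient_cyc, orient_cyc]; exact hpos)
    have n1 : lin α β e.1 ≠ lin α β e.2 := fun h => hf.ab.ne (hinj _ hvS _ hqS h)
    have n2 : lin α β e.2 ≠ lin α β (third S T e.1 e.2) := fun h => hf.bc.ne (hinj _ hqS _ hcS h)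
    have n3 : lin α β (third S T e.1 e.2) ≠ lin α β e.1 := fun h => hf.ca.ne (hinj _ hcS _ hvS h)
    rw [nxt2 hpl he, hm]
    simp only [nxt, t1, t2]
    rcases lt_or_gt_of_ne n1 with h1 | h1 <;> rcases lt_or_gt_of_ne n2 with h2 | h2 <;>
      rcases lt_or_gt_of_ne n3 with h3 | h3
    all_goals first
      | (exfalso; linarith)
      | (simp [h1, h2, h3, h1.not_gt, h2.not_gt, h3.not_gt])
  have k2 : ∑ e ∈ darts S T, (m e + m (nxt S T e) + m (nxt S T (nxt S T e))) =
      (darts S T).card := by
    rw [Finset.sum_congr rfl k1]; simp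
  rw [sum_three hpl m] at k2
  have k3 : ∑ e ∈ darts S T, m e = (((darts S T).filter (fun e =>
      (lin α β (third S T e.1 e.2) < lin α β e.1 ∧ lin α β e.1 < lin α β e.2) ∨
      (lin α β e.1 < lin α β (third S T e.1 e.2) ∧ lin α β e.2 < lin α β e.1))).card : ℝ) := by
    rw [hm, Finset.sum_boole]
  rw [Finset.filter_or, Finset.card_union_of_disjoint] at k3
  · have k4 : ((dz S T \ darts S T).filter (fun e => lin α β e.1 < lin α β e.2)).card +
        ((dz S T \ darts S T).filter (fun e => lin α β e.2 < lin α β e.1)).card =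
        (dz S T \ darts S T).card := by
      rw [← Finset.card_filter_add_card_filter_not (s := dz S T \ darts S T)
        (fun e => lin α β e.1 < lin α β e.2)]
      congr 2
      apply Finset.filter_congr
      intro e he
      have hadj := (mem_dz_plane hpl).1 (Finset.mem_sdiff.1 he).1
      have n1 : lin α β e.1 ≠ lin α β e.2 := fun h =>
        hadj.ne (hinj _ (hpl.mem _ _ hadj) _ (hpl.mem _ _ hadj.symm) h)
      constructor
      · intro h
        exact not_lt.2 h.le
      · intro h
        exact lt_of_le_of_ne (not_lt.1 h) (fun h' => n1 h'.symm)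
    have k5 := Finset.card_sdiff_add_card_eq_card (darts_sub hpl)
    rw [k3] at k2
    have k6 : 3 * (((darts S T).filter (fun e => lin α β (third S T e.1 e.2) < lin α β e.1 ∧
        lin α β e.1 < lin α β e.2)).card + ((darts S T).filter (fun e =>
        lin α β e.1 < lin α β (third S T e.1 e.2) ∧ lin α β e.2 < lin α β e.1)).card) =
        (darts S T).card := by
      exact_mod_cast k2
    omega
  · rw [Finset.disjoint_left]
    intro e h4 h5
    have h4 := (Finset.mem_filter.1 h4).2
    have h5 := (Finset.mem_filter.1 h5).2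
    exact absurd (h4.1.trans h5.1) (lt_irrefl _)

end Pool.Agent.UDG
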