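import Pool.Agent.UDG.Bas

/-!
Module Ext: leaving a triangle.
-/

namespace Pool.Agent.UDG

open Pool.Agent.AreaTri

variable {S : Finset Pt} {G T : SimpleGraph Pt}

theorem ext_sum (a b c y : Pt) : orient a b y + orient b c y + orient c a y = orient a b c := by
  unfold orient; ring

theorem ext_side {a b c y : Pt} (hD : 0 < orient a b c) (h0 : orient a b y = 0)
    (hb : 0 ≤ orient b c y) (hc : 0 ≤ orient c a y) :
    y = a ∨ y = b ∨ y ∈ openSegment ℝ a b := by
  obtain ⟨hx, hy⟩ := coord (ne_of_gt hD) y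
  have hs := ext_sum a b c y
  have hcy : orient a y c = orient c a y := orient_cyc c a y
  rw [h0, hcy] at hx hy
  obtain ⟨t, ht⟩ : ∃ t, t = orient c a y / orient a b c := ⟨_, rfl⟩
  have ht0 : 0 ≤ t := by rw [ht]; exact div_nonneg hc hD.le
  have ht1 : t ≤ 1 := by rw [ht, div_le_one hD]; linarith
  rw [← ht] at hx hy
  rcases eq_or_lt_of_le ht0 with h1 | h1
  · left
    rw [← h1] at hx hy
    apply Prod.ext
    · rw [hx]; ring
    · rw [hy]; ring
  · rcases eq_or_lt_of_le ht1 with h2 | h2
    · right; left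
      rw [h2] at hx hy
      apply Prod.ext
      · rw [hx]; ring
      · rw [hy]; ring
    · right; right
      refine mem_oseg.2 ⟨t, h1, h2, ?_, ?_⟩
      · rw [hx]; ring
      · rw [hy]; ring

theorem ext_key {f0 : ℝ} (h0 : 0 < f0) (f1 : ℝ) : ∃ t : ℝ, 0 < t ∧ t ≤ 1 ∧
    (∀ τ, 0 ≤ τ → τ ≤ t → 0 ≤ (1 - τ) * f0 + τ * f1) ∧
    (f1 ≤ 0 → (1 - t) * f0 + t * f1 = 0) ∧ (0 < f1 → t = 1) := by
  rcases le_or_gt f1 0 with h | h
  · have hd : 0 < f0 - f1 := by linarith
    refine ⟨f0 / (f0 - f1), div_pos h0 hd, ?_, ?_, ?_, ?_⟩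
    · rw [div_le_one hd]; linarith
    · intro τ hτ hle
      rw [le_div_iff₀ hd] at hle
      nlinarith
    · intro _
      field_simp
      ring
    · intro h'
      linarith
  · refine ⟨1, one_pos, le_refl 1, ?_, ?_, fun _ => rfl⟩
    · intro τ hτ hle
      have : 0 ≤ (1 - τ) * f0 := mul_nonneg (by linarith) h0.le
      have : 0 ≤ τ * f1 := mul_nonneg hτ h.le
      linarith
    · intro h'
      linarith

/-- `z` is strictly inside the triangle `a b c`. If `u` is not strictly inside, then there is a point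
`y = z + τ (u - z)`, `0 < τ ≤ 1`, on the boundary of the triangle. (The three functions
`orient a b`, `orient b c`, `orient c a` are positive at `z`, their sum is `orient a b c` everywhere, and they
are affine along the segment. Take the smallest `τ` at which one of them vanishes; there the two others
are `≥ 0`. If `orient a b y = 0` and the two others are positive, then `y` is in the open segment `a b`;
if two of them vanish then `y` is a vertex. `coord` and `exit_param` in `AreaTri` may help.) -/
theorem exit_tri {a b c z u : Pt} (hz : Ins a b c z) (hu : ¬ Ins a b c u) :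
    ∃ τ y, 0 < τ ∧ τ ≤ 1 ∧ On τ z u y ∧ (y = a ∨ y = b ∨ y = c ∨ y ∈ openSegment ℝ a b ∨
      y ∈ openSegment ℝ b c ∨ y ∈ openSegment ℝ c a) := by
  obtain ⟨h1, h2, h3⟩ := hz
  have hD : 0 < orient a b c := by
    have := ext_sum a b c z
    linarith
  have hD2 : 0 < orient b c a := by rw [orient_cyc]; exact hD
  have hD3 : 0 < orient c a b := by rw [orient_cyc]; exact hD2
  obtain ⟨t1, p1, q1, r1, s1, w1⟩ := ext_key h1 (orient a b u)
  obtain ⟨t2, p2, q2, r2, s2, w2⟩ := ext_key h2 (orient b c u)
  obtain ⟨t3, p3, q3, r3, s3, w3⟩ := ext_key h3 (orient c a u)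
  have hex : ∃ t : ℝ, 0 < t ∧ t ≤ t1 ∧ t ≤ t2 ∧ t ≤ t3 ∧
      ((1 - t) * orient a b z + t * orient a b u = 0 ∨ (1 - t) * orient b c z + t * orient b c u = 0 ∨
      (1 - t) * orient c a z + t * orient c a u = 0) := by
    by_cases c1 : t1 ≤ t2 ∧ t1 ≤ t3
    · refine ⟨t1, p1, le_refl _, c1.1, c1.2, ?_⟩
      rcases le_or_gt (orient a b u) 0 with k | k
      · exact Or.inl (s1 k)
      · have e1 := w1 k
        have e2 : t2 = 1 := le_antisymm q2 (by rw [← e1]; exact c1.1)
        have e3 : t3 = 1 := le_antisymm q3 (by rw [← e1]; exact c1.2)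
        rcases le_or_gt (orient b c u) 0 with k2 | k2
        · right; left
          have := s2 k2
          rw [e2] at this
          rw [e1]; exact this
        · rcases le_or_gt (orient c a u) 0 with k3 | k3
          · right; right
            have := s3 k3
            rw [e3] at this
            rw [e1]; exact this
          · exact absurd ⟨k, k2, k3⟩ hu
    · by_cases c2 : t2 ≤ t3
      · have c21 : t2 < t1 := by
          by_contra hc
          push Not at hc
          exact c1 ⟨hc, le_trans hc c2⟩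
        refine ⟨t2, p2, c21.le, le_refl _, c2, ?_⟩
        rcases le_or_gt (orient b c u) 0 with k | k
        · exact Or.inr (Or.inl (s2 k))
        · have e1 := w2 k
          linarith
      · push Not at c2
        have c31 : t3 < t1 := by
          by_contra hc
          push Not at hc
          exact c1 ⟨le_trans hc c2.le, hc⟩
        refine ⟨t3, p3, c31.le, c2.le, le_refl _, ?_⟩
        rcases le_or_gt (orient c a u) 0 with k | k
        · exact Or.inr (Or.inr (s3 k))
        · have e1 := w3 k
          linarith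
  obtain ⟨t, ht, l1, l2, l3, hzero⟩ := hex
  have hon := on_mk t z u
  obtain ⟨y, hy⟩ : ∃ y : Pt, y = (z.1 + t * (u.1 - z.1), z.2 + t * (u.2 - z.2)) := ⟨_, rfl⟩
  rw [← hy] at hon
  refine ⟨t, y, ht, le_trans l1 q1, hon, ?_⟩
  have n1 : 0 ≤ orient a b y := by rw [hon.orient]; exact r1 t ht.le l1
  have n2 : 0 ≤ orient b c y := by rw [hon.orient]; exact r2 t ht.le l2
  have n3 : 0 ≤ orient c a y := by rw [hon.orient]; exact r3 t ht.le l3
  rcases hzero with h | h | h
  · rw [← hon.orient] at h
    rcases ext_side hD h n2 n3 with k | k | k <;> tauto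
  · rw [← hon.orient] at h
    rcases ext_side hD2 h n3 n1 with k | k | k <;> tauto
  · rw [← hon.orient] at h
    rcases ext_side hD3 h n1 n2 with k | k | k <;> tauto

theorem ext_small {f0 : ℝ} (h0 : 0 < f0) (f1 : ℝ) : ∃ t : ℝ, 0 < t ∧
    (∀ τ, 0 ≤ τ → τ ≤ t → 0 < (1 - τ) * f0 + τ * f1) := by
  refine ⟨f0 / (2 * (f0 + |f1|)), by positivity, ?_⟩
  intro τ hτ hle
  have hd : 0 < 2 * (f0 + |f1|) := by positivity
  rw [le_div_iff₀ hd] at hle
  have h1 : -|f1| ≤ f1 := neg_abs_le f1
  have h2 : 0 ≤ |f1| := abs_nonneg f1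
  nlinarith

/-- Going from a point `z` of the open side `a b` towards a point `c` on the left one enters the triangle
`a b w`: take `τ` small; `orient b w z > 0` and `orient w a z > 0`. -/
theorem enter_tri {a b w c z : Pt} (hw : 0 < orient a b w) (hc : 0 < orient a b c)
    (hz : z ∈ openSegment ℝ a b) : ∃ τ y, 0 < τ ∧ τ < 1 ∧ On τ z c y ∧ Ins a b w y := by
  obtain ⟨t, ht0, ht1, ht⟩ := mem_oseg_on.1 hz
  have z0 : orient a b z = 0 := by
    rw [ht.orient]; simp
  have z1 : 0 < orient b w z := by
    rw [ht.orient]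
    have e : orient b w a = orient a b w := orient_cyc a b w
    simp only [orient_self', mul_zero, add_zero]
    rw [e]
    exact mul_pos (by linarith) hw
  have z2 : 0 < orient w a z := by
    rw [ht.orient]
    have e : orient w a b = orient a b w := by rw [orient_cyc, orient_cyc]
    simp only [orient_self, mul_zero, zero_add]
    rw [e]
    exact mul_pos ht0 hw
  obtain ⟨s1, p1, r1⟩ := ext_small z1 (orient b w c)
  obtain ⟨s2, p2, r2⟩ := ext_small z2 (orient w a c)
  obtain ⟨τ, hτ⟩ : ∃ τ, τ = min (1 / 2) (min s1 s2) := ⟨_, rfl⟩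
  have hτ0 : 0 < τ := by
    rw [hτ]; exact lt_min (by norm_num) (lt_min p1 p2)
  have hτ1 : τ ≤ 1 / 2 := by rw [hτ]; exact min_le_left _ _
  have hτ2 : τ ≤ s1 := by rw [hτ]; exact le_trans (min_le_right _ _) (min_le_left _ _)
  have hτ3 : τ ≤ s2 := by rw [hτ]; exact le_trans (min_le_right _ _) (min_le_right _ _)
  have hon := on_mk τ z c
  refine ⟨τ, _, hτ0, by linarith, hon, ?_, ?_, ?_⟩
  · rw [hon.orient, z0]
    have := mul_pos hτ0 hc
    linarith
  · rw [hon.orient]; exact r1 τ hτ0.le hτ2
  · rw [hon.orient]; exact r2 τ hτ0.le hτ3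

/-- points of the open segment from a strictly inner point to a point of the closed triangle are
strictly inside -/
theorem ins_toward {a b c z u y : Pt} (hz : Ins a b c z) (h1 : 0 ≤ orient a b u)
    (h2 : 0 ≤ orient b c u) (h3 : 0 ≤ orient c a u) {τ : ℝ} (h0 : 0 ≤ τ) (h : τ < 1)
    (hy : On τ z u y) : Ins a b c y := by
  obtain ⟨k1, k2, k3⟩ := hz
  have hτ : 0 < 1 - τ := by linarith
  refine ⟨?_, ?_, ?_⟩
  · rw [hy.orient]
    have := mul_pos hτ k1
    have := mul_nonneg h0 h1
    linarith
  · rw [hy.orient]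
    have := mul_pos hτ k2
    have := mul_nonneg h0 h2
    linarith
  · rw [hy.orient]
    have := mul_pos hτ k3
    have := mul_nonneg h0 h3
    linarith

end Pool.Agent.UDG
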