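import Pool.Agent.UDG.Ext

/-!
Module FDj: the triangles of a plane graph are disjoint.
-/

namespace Pool.Agent.UDG

open Pool.Agent.AreaTri

variable {S : Finset Pt} {G T : SimpleGraph Pt}

/-- no point of `S` is strictly inside a face -/
theorem FDj_no_ins {a b c p : Pt} (hf : IsFace S T a b c) (hpos : 0 < orient a b c) (hp : p ∈ S) :
    ¬ Ins a b c p := by
  rintro ⟨h1, h2, h3⟩
  have e1 : orient a p c = orient c a p := by unfold orient; ring
  have e2 : orient a b c = orient a b p + orient b c p + orient c a p := by unfold orient; ring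
  rcases hf.empty p hp ((mem_tri_orient hpos p).2 ⟨by rw [e1]; exact h3.le, h1.le, by
    rw [e1, e2]; linarith⟩) with rfl | rfl | rfl
  · simp at h1
  · simp at h1
  · simp at h2

theorem FDj_oseg_zero {u v y : Pt} (h : y ∈ openSegment ℝ u v) : orient u v y = 0 := by
  obtain ⟨t, _, _, ht⟩ := mem_oseg_on.1 h
  rw [ht.orient]; simp

theorem FDj_side (hpl : IsPlane S T) {u v p q y y' : Pt} {τ : ℝ} (huv : T.Adj u v)
    (hpq : T.Adj p q) (hy : y ∈ openSegment ℝ p q) (hne : orient u v y ≠ 0) (h0 : 0 < τ)
    (h1 : τ ≤ 1) (hon : On τ y q y') (hs : y' ∈ openSegment ℝ u v) : False := by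
  have hqS : q ∈ S := hpl.mem _ _ hpq.symm
  rcases eq_or_lt_of_le h1 with h1 | h1
  · subst h1
    have : y' = q := On.ext hon On.one
    rw [this] at hs
    exact hpl.free _ _ huv q hqS hs
  · have h2 : y' ∈ openSegment ℝ q p := On.toward (oseg_symm.1 hy) h0.le h1 hon
    by_cases he : s(q, p) = s(u, v)
    · rcases Sym2.eq_iff.1 he with ⟨rfl, rfl⟩ | ⟨rfl, rfl⟩
      · exact hne (FDj_oseg_zero (oseg_symm.1 hy))
      · exact hne (FDj_oseg_zero hy)
    · exact Set.disjoint_left.1 (hpl.cross _ _ _ _ hpq.symm huv he) h2 hs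

theorem FDj_vert (hpl : IsPlane S T) {u p q y y' : Pt} {τ : ℝ} (hu : u ∈ S)
    (hpq : T.Adj p q) (hy : y ∈ openSegment ℝ p q) (h0 : 0 < τ)
    (h1 : τ ≤ 1) (hon : On τ y q y') (hs : y' = u) : q = u := by
  rcases eq_or_lt_of_le h1 with h1 | h1
  · subst h1
    have : y' = q := On.ext hon On.one
    rw [← this]; exact hs
  · have h2 : y' ∈ openSegment ℝ q p := On.toward (oseg_symm.1 hy) h0.le h1 hon
    rw [hs] at h2
    exact (hpl.free _ _ hpq.symm u hu h2).elim

theorem FDj_end (hpl : IsPlane S T) {a b c p q y : Pt} (hf : IsFace S T a b c)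
    (hpos : 0 < orient a b c) (hpq : T.Adj p q) (hy : y ∈ openSegment ℝ p q)
    (hin : Ins a b c y) : q = a ∨ q = b ∨ q = c := by
  have hqS : q ∈ S := hpl.mem _ _ hpq.symm
  obtain ⟨τ, y', h0, h1, hon, hcase⟩ := exit_tri hin (FDj_no_ins hf hpos hqS)
  rcases hcase with h | h | h | h | h | h
  · exact Or.inl (FDj_vert hpl (hpl.mem _ _ hf.ab) hpq hy h0 h1 hon h)
  · exact Or.inr (Or.inl (FDj_vert hpl (hpl.mem _ _ hf.bc) hpq hy h0 h1 hon h))
  · exact Or.inr (Or.inr (FDj_vert hpl (hpl.mem _ _ hf.ca) hpq hy h0 h1 hon h))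
  · exact (FDj_side hpl hf.ab hpq hy (ne_of_gt hin.1) h0 h1 hon h).elim
  · exact (FDj_side hpl hf.bc hpq hy (ne_of_gt hin.2.1) h0 h1 hon h).elim
  · exact (FDj_side hpl hf.ca hpq hy (ne_of_gt hin.2.2) h0 h1 hon h).elim

/-- No edge of `T` meets the interior of a triangle of `T`. Let `p q` be an edge with a point `y` strictly
inside the face `a b c`. Neither `p` nor `q` is strictly inside (`IsFace.empty`, `mem_tri_orient`). By `exit_tri`
for `u = q` there is `y' = y + τ (q - y)`, `0 < τ ≤ 1`, on the boundary. If `y'` is in an open side, say `a b`, then `τ < 1`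
(since `q ∈ S` is not in an open side), so `y'` is in the open segment `p q` and
`hpl.cross` gives `s(p, q) = s(a, b)`; but `y` is in the open segment `p q` and `orient a b y > 0`. So `y'` is a
vertex, and then `τ = 1` (a vertex is not in the open segment `p q`), so `q ∈ {a, b, c}`. In
the same way `p ∈ {a, b, c}`, so `y` is in an open side, contradiction. -/
theorem no_edge_inside (hpl : IsPlane S T) {a b c p q y : Pt} (hf : IsFace S T a b c)
    (hpos : 0 < orient a b c) (hpq : T.Adj p q) (hy : y ∈ openSegment ℝ p q)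
    (hin : Ins a b c y) : False := by
  have hq := FDj_end hpl hf hpos hpq hy hin
  have hp := FDj_end hpl hf hpos hpq.symm (oseg_symm.1 hy) hin
  have hne : p ≠ q := hpq.ne
  obtain ⟨h1, h2, h3⟩ := hin
  have hz1 : orient p q y = 0 := FDj_oseg_zero hy
  have hz2 : orient q p y = 0 := FDj_oseg_zero (oseg_symm.1 hy)
  rcases hp with rfl | rfl | rfl <;> rcases hq with rfl | rfl | rfl <;>
    first
    | exact hne rfl
    | (rw [hz1] at h1; exact lt_irrefl _ h1)
    | (rw [hz1] at h2; exact lt_irrefl _ h2)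
    | (rw [hz1] at h3; exact lt_irrefl _ h3)
    | (rw [hz2] at h1; exact lt_irrefl _ h1)
    | (rw [hz2] at h2; exact lt_irrefl _ h2)
    | (rw [hz2] at h3; exact lt_irrefl _ h3)

/-- a vertex of the first face is a vertex of the second one -/
theorem FDj_vertex (hpl : IsPlane S T) {a b c a' b' c' z v : Pt} (hf : IsFace S T a b c)
    (hpos : 0 < orient a b c) (hf' : IsFace S T a' b' c') (hpos' : 0 < orient a' b' c')
    (hz : Ins a b c z) (hz' : Ins a' b' c' z) (hv : v ∈ S) (h1 : 0 ≤ orient a b v)
    (h2 : 0 ≤ orient b c v) (h3 : 0 ≤ orient c a v) : v = a' ∨ v = b' ∨ v = c' := by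
  obtain ⟨τ, y, h0, hτ, hon, hcase⟩ := exit_tri hz' (FDj_no_ins hf' hpos' hv)
  rcases eq_or_lt_of_le hτ with hτ | hτ
  · subst hτ
    have hyv : y = v := On.ext hon On.one
    rw [hyv] at hcase
    rcases hcase with h | h | h | h | h | h
    · exact Or.inl h
    · exact Or.inr (Or.inl h)
    · exact Or.inr (Or.inr h)
    · exact (hpl.free _ _ hf'.ab v hv h).elim
    · exact (hpl.free _ _ hf'.bc v hv h).elim
    · exact (hpl.free _ _ hf'.ca v hv h).elim
  · exfalso
    have hin : Ins a b c y := ins_toward hz h1 h2 h3 h0.le hτ hon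
    rcases hcase with h | h | h | h | h | h
    · exact FDj_no_ins hf hpos (hpl.mem _ _ hf'.ab) (h ▸ hin)
    · exact FDj_no_ins hf hpos (hpl.mem _ _ hf'.bc) (h ▸ hin)
    · exact FDj_no_ins hf hpos (hpl.mem _ _ hf'.ca) (h ▸ hin)
    · exact no_edge_inside hpl hf hpos hf'.ab h hin
    · exact no_edge_inside hpl hf hpos hf'.bc h hin
    · exact no_edge_inside hpl hf hpos hf'.ca h hin

/-- Let `a b c` and `a' b' c'` be the two triangles, `z` strictly inside both. CLAIM: each vertex `v` of the
first is in the closed second triangle (so it is one of `a'`, `b'`, `c'` by `IsFace.empty`). Otherwise by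
`exit_tri` for the second triangle and `u = v` there is `y = z + τ (v - z)` on the boundary of the
second triangle with `0 < τ`, and `τ < 1` (since `v` is not on the boundary); by `ins_toward` `y` is strictly inside the first
triangle; `y` is not a vertex of the second (`IsFace.empty` for the first) and not in an open side of the second
(`no_edge_inside`). So `{a, b, c} = {a', b', c'}`, and both are
positively oriented, so `(a', b', c')` is a cyclic rotation of `(a, b, c)`. -/
theorem face_disj (hpl : IsPlane S T) {e e' : Pt × Pt} (he : e ∈ darts S T) (he' : e' ∈ darts S T)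
    {z : Pt} (hz : Ins e.1 e.2 (third S T e.1 e.2) z)
    (hz' : Ins e'.1 e'.2 (third S T e'.1 e'.2) z) :
    e' = e ∨ e' = nxt S T e ∨ e' = nxt S T (nxt S T e) := by
  obtain ⟨hf, hpos⟩ := third_spec hpl he
  obtain ⟨hf', hpos'⟩ := third_spec hpl he'
  rw [nxt2 hpl he]
  unfold nxt
  obtain ⟨a, b⟩ := e
  obtain ⟨a', b'⟩ := e'
  simp only at hz hz' hf hpos hf' hpos' ⊢
  generalize third S T a b = c at *
  generalize third S T a' b' = c' at *
  have hbc : 0 < orient b c a := by rw [orient_cyc]; exact hpos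
  have hca : 0 < orient c a b := by rw [orient_cyc, orient_cyc]; exact hpos
  have ha := FDj_vertex hpl hf hpos hf' hpos' hz hz' (hpl.mem _ _ hf.ab) (by simp) hbc.le (by simp)
  have hb := FDj_vertex hpl hf hpos hf' hpos' hz hz' (hpl.mem _ _ hf.bc) (by simp) (by simp) hca.le
  have hc := FDj_vertex hpl hf hpos hf' hpos' hz hz' (hpl.mem _ _ hf.ca) hpos.le (by simp) (by simp)
  have n1 : a ≠ b := hf.ab.ne
  have n2 : b ≠ c := hf.bc.ne
  have n3 : c ≠ a := hf.ca.ne
  have o1 : orient a' c' b' < 0 := by rw [orient_swap]; linarith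
  have o2 : orient c' b' a' < 0 := by
    have : orient c' b' a' = orient a' c' b' := by unfold orient; ring
    rw [this]; exact o1
  have o3 : orient b' a' c' < 0 := by
    have : orient b' a' c' = orient a' c' b' := by unfold orient; ring
    rw [this]; exact o1
  rcases ha with h1 | h1 | h1 <;> rcases hb with h2 | h2 | h2 <;> rcases hc with h3 | h3 | h3 <;>
    first
    | exact absurd (h1.trans h2.symm) n1
    | exact absurd (h2.trans h3.symm) n2
    | exact absurd (h3.trans h1.symm) n3
    | (left; rw [h1, h2]; done)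
    | (right; left; rw [h2, h3]; done)
    | (right; right; rw [h3, h1]; done)
    | (exfalso; rw [h1, h2, h3] at hpos; linarith)

end Pool.Agent.UDG
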