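import Pool.Agent.UDG.Grd
import Pool.Agent.UDG.Col
import Pool.Agent.UDG.FDj
import Pool.Agent.UDG.Pln

/-!
Module FtC: the number of fat triangles.
-/

namespace Pool.Agent.UDG

open Pool.Agent.AreaTri

variable {S : Finset Pt} {G T : SimpleGraph Pt}

theorem ftc_fst (hD : IsDrawing 1 S G) (hT : IsTriangulation S T) {s t : ℝ}
    (hgen : Generic S s t) (I : Finset ℤ)
    (hI : ∀ i ∈ I, ∃ e j, Good S G T e ∧ Ins e.1 e.2 (third S T e.1 e.2) (grid s t i j)) :
    2 * I.card ≤ 3 * (bd S G T).card := by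
  refine strip (bd S G T) (fun e => e.1.1) (fun e => e.2.1) s ?_ I ?_ ?_
  · intro e he
    have h1 := gd_len hD (mem_bd.1 he).1.2.1
    unfold dsq at h1
    refine abs_le_one_iff_mul_self_le_one.2 ?_
    nlinarith [sq_nonneg (e.1.2 - e.2.2)]
  · intro i hi
    obtain ⟨e, j, h1, h2⟩ := hI i hi
    obtain ⟨e', h3, h4, h5⟩ := exists_bd (S := S) (G := G) (T := T) hT.1 (α := -1) (β := 0)
      (τ := -(s + 2 / 5 * (i : ℝ))) (by
        intro p hp h6
        apply hgen.fst p hp i
        unfold lin at h6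
        linarith) h1 h2 (by
        unfold lin grid
        simp only
        ring)
    refine ⟨e', h3, ?_, ?_⟩
    · show e'.1.1 < s + 2 / 5 * (i : ℝ)
      unfold lin at h5
      linarith
    · show s + 2 / 5 * (i : ℝ) < e'.2.1
      unfold lin at h4
      linarith
  · intro i hi
    obtain ⟨e, j, h1, h2⟩ := hI i hi
    obtain ⟨e', h3, h4, h5⟩ := exists_bd (S := S) (G := G) (T := T) hT.1 (α := 1) (β := 0)
      (τ := s + 2 / 5 * (i : ℝ)) (by
        intro p hp h6
        apply hgen.fst p hp i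
        unfold lin at h6
        linarith) h1 h2 (by
        unfold lin grid
        simp only
        ring)
    refine ⟨e', h3, ?_, ?_⟩
    · show e'.2.1 < s + 2 / 5 * (i : ℝ)
      unfold lin at h4
      linarith
    · show s + 2 / 5 * (i : ℝ) < e'.1.1
      unfold lin at h5
      linarith

theorem ftc_snd (hD : IsDrawing 1 S G) (hT : IsTriangulation S T) {s t : ℝ}
    (hgen : Generic S s t) (J : Finset ℤ)
    (hJ : ∀ j ∈ J, ∃ e i, Good S G T e ∧ Ins e.1 e.2 (third S T e.1 e.2) (grid s t i j)) :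
    2 * J.card ≤ 3 * (bd S G T).card := by
  refine strip (bd S G T) (fun e => e.1.2) (fun e => e.2.2) t ?_ J ?_ ?_
  · intro e he
    have h1 := gd_len hD (mem_bd.1 he).1.2.1
    unfold dsq at h1
    refine abs_le_one_iff_mul_self_le_one.2 ?_
    nlinarith [sq_nonneg (e.1.1 - e.2.1)]
  · intro j hj
    obtain ⟨e, i, h1, h2⟩ := hJ j hj
    obtain ⟨e', h3, h4, h5⟩ := exists_bd (S := S) (G := G) (T := T) hT.1 (α := 0) (β := -1)
      (τ := -(t + 2 / 5 * (j : ℝ))) (by
        intro p hp h6
        apply hgen.snd p hp j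
        unfold lin at h6
        linarith) h1 h2 (by
        unfold lin grid
        simp only
        ring)
    refine ⟨e', h3, ?_, ?_⟩
    · show e'.1.2 < t + 2 / 5 * (j : ℝ)
      unfold lin at h5
      linarith
    · show t + 2 / 5 * (j : ℝ) < e'.2.2
      unfold lin at h4
      linarith
  · intro j hj
    obtain ⟨e, i, h1, h2⟩ := hJ j hj
    obtain ⟨e', h3, h4, h5⟩ := exists_bd (S := S) (G := G) (T := T) hT.1 (α := 0) (β := 1)
      (τ := t + 2 / 5 * (j : ℝ)) (by
        intro p hp h6
        apply hgen.snd p hp j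
        unfold lin at h6
        linarith) h1 h2 (by
        unfold lin grid
        simp only
        ring)
    refine ⟨e', h3, ?_, ?_⟩
    · show e'.2.2 < t + 2 / 5 * (j : ℝ)
      unfold lin at h4
      linarith
    · show t + 2 / 5 * (j : ℝ) < e'.1.2
      unfold lin at h5
      linarith

/-- For `e ∈ fat` choose `(i e, j e)` with the grid point strictly inside the triangle of `e`; let `I`, `J` be the
sets of all `i e`, all `j e`. By `face_disj` every pair `(i, j)` has at most three preimages (`e`, `nxt e`,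
`nxt (nxt e)`), so `|fat| ≤ 3 |I| |J|`. By `exists_bd` for `(α, β) = (1, 0)` and for `(-1, 0)` and
`strip` (the edges in `bd` are in `gd`, so `|e.2.1 - e.1.1| ≤ 1` by `gd_len`) `2 |I| ≤ 3 |bd|`; in the same way
`2 |J| ≤ 3 |bd|` (with `(0, 1)` and `(0, -1)`). So `4 |fat| ≤ 3 (2 |I|) (2 |J|) ≤ 27 |bd| ^ 2`. -/
theorem fat_card (hD : IsDrawing 1 S G) (hT : IsTriangulation S T) {s t : ℝ}
    (hgen : Generic S s t) : 4 * (fat S G T s t).card ≤ 27 * (bd S G T).card ^ 2 := by
  classical
  have hch : ∀ e : Pt × Pt, ∃ ij : ℤ × ℤ, e ∈ fat S G T s t →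
      Ins e.1 e.2 (third S T e.1 e.2) (grid s t ij.1 ij.2) := by
    intro e
    by_cases he : e ∈ fat S G T s t
    · obtain ⟨i, j, h⟩ := (mem_fat.1 he).2
      exact ⟨(i, j), fun _ => h⟩
    · exact ⟨(0, 0), fun h => absurd h he⟩
  choose g hg using hch
  obtain ⟨I, hI⟩ : ∃ I : Finset ℤ, I = (fat S G T s t).image (fun e => (g e).1) := ⟨_, rfl⟩
  obtain ⟨J, hJ⟩ : ∃ J : Finset ℤ, J = (fat S G T s t).image (fun e => (g e).2) := ⟨_, rfl⟩
  have h1 : (fat S G T s t).card ≤ 3 * (I ×ˢ J).card := by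
    refine Finset.card_le_mul_card_image_of_maps_to (f := g) ?_ 3 ?_
    · intro e he
      refine Finset.mem_product.2 ⟨?_, ?_⟩
      · rw [hI]
        exact Finset.mem_image_of_mem _ he
      · rw [hJ]
        exact Finset.mem_image_of_mem _ he
    · intro b _
      rcases Finset.eq_empty_or_nonempty ((fat S G T s t).filter (fun e => g e = b)) with h | ⟨e0, h⟩
      · rw [h]
        simp
      · obtain ⟨h2, h3⟩ := Finset.mem_filter.1 h
        have h4 : (fat S G T s t).filter (fun e => g e = b) ⊆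
            {e0, nxt S T e0, nxt S T (nxt S T e0)} := by
          intro e he
          obtain ⟨h5, h6⟩ := Finset.mem_filter.1 he
          have h7 := hg e0 h2
          have h8 := hg e h5
          rw [h6, ← h3] at h8
          have h9 := face_disj hT.1 (mem_fat.1 h2).1.1 (mem_fat.1 h5).1.1 h7 h8
          simp only [Finset.mem_insert, Finset.mem_singleton]
          exact h9
        exact (Finset.card_le_card h4).trans Finset.card_le_three
  have h2 : 2 * I.card ≤ 3 * (bd S G T).card := by
    refine ftc_fst hD hT hgen I ?_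
    intro i hi
    rw [hI] at hi
    obtain ⟨e, he, rfl⟩ := Finset.mem_image.1 hi
    exact ⟨e, (g e).2, (mem_fat.1 he).1, hg e he⟩
  have h3 : 2 * J.card ≤ 3 * (bd S G T).card := by
    refine ftc_snd hD hT hgen J ?_
    intro j hj
    rw [hJ] at hj
    obtain ⟨e, he, rfl⟩ := Finset.mem_image.1 hj
    exact ⟨e, (g e).1, (mem_fat.1 he).1, hg e he⟩
  rw [Finset.card_product] at h1
  have h4 := Nat.mul_le_mul h2 h3
  calc 4 * (fat S G T s t).card ≤ 4 * (3 * (I.card * J.card)) := Nat.mul_le_mul_left 4 h1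
    _ = 3 * (2 * I.card * (2 * J.card)) := by ring
    _ ≤ 3 * (3 * (bd S G T).card * (3 * (bd S G T).card)) := Nat.mul_le_mul_left 3 h4
    _ = 27 * (bd S G T).card ^ 2 := by ring

end Pool.Agent.UDG
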