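import Pool.Agent.UDG.Eul
import Pool.Agent.UDG.Cn1
import Pool.Agent.UDG.Cn2
import Pool.Agent.UDG.Cn3
import Pool.Agent.UDG.FtC
import Pool.Agent.UDG.Edg

/-!
The bound `u 1 n ≤ 3 n - √n / 12`.
-/

namespace Pool.Agent.UDG

open Pool.Agent.AreaTri

theorem arith {n E D K κ C N F B g Q M : ℕ}
    (e1 : 3 * E + 6 = 2 * D + 6 * n) (e2 : E = K + κ + N) (e3 : C + 2 * K = 2 * g) (e4 : 2 * Q = C)
    (e5 : D ≤ 3 * N + F + 3 * κ) (e6 : Q + C + 2 * D ≤ M + 2 * κ + 2 * E + 4 * N)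
    (e7 : 3 * M ≤ 2 * F) (e8 : B + D ≤ E + 3 * N) (e9 : 4 * F ≤ 27 * B ^ 2) (e10 : C ≤ 2 * κ)
    (e11 : D ≤ E) : (g : ℝ) ≤ 6 * n - Real.sqrt n / 6 := by
  have f1 : (3 : ℝ) * E + 6 = 2 * D + 6 * n := by exact_mod_cast e1
  have f2 : (E : ℝ) = K + κ + N := by exact_mod_cast e2
  have f3 : (C : ℝ) + 2 * K = 2 * g := by exact_mod_cast e3
  have f4 : (2 : ℝ) * Q = C := by exact_mod_cast e4
  have f5 : (D : ℝ) ≤ 3 * N + F + 3 * κ := by exact_mod_cast e5
  have f6 : (Q : ℝ) + C + 2 * D ≤ M + 2 * κ + 2 * E + 4 * N := by exact_mod_cast e6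
  have f7 : (3 : ℝ) * M ≤ 2 * F := by exact_mod_cast e7
  have f8 : (B : ℝ) + D ≤ E + 3 * N := by exact_mod_cast e8
  have f9 : (4 : ℝ) * F ≤ 27 * (B : ℝ) ^ 2 := by exact_mod_cast e9
  have f10 : (C : ℝ) ≤ 2 * κ := by exact_mod_cast e10
  have f11 : (D : ℝ) ≤ E := by exact_mod_cast e11
  have hN : (0 : ℝ) ≤ N := Nat.cast_nonneg _
  have hB : (0 : ℝ) ≤ B := Nat.cast_nonneg _
  set L : ℝ := 6 * n - 6 - g with hL
  have hL0 : 0 ≤ L := by linarith
  have hBL : (B : ℝ) ≤ 3 * L := by linarith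
  have hF : 6 * (n : ℝ) - 6 ≤ 3 * F + 15 * L := by linarith
  have hB2 : (B : ℝ) ^ 2 ≤ 9 * L ^ 2 := by nlinarith
  have hn : (n : ℝ) ≤ (6 * L + 36) ^ 2 := by nlinarith
  have hs : Real.sqrt n ≤ 6 * L + 36 := by
    apply Real.sqrt_le_iff.2
    exact ⟨by linarith, hn⟩
  linarith

theorem dz_bound {S : Finset Pt} {G : SimpleGraph Pt} (hS : S.Nonempty) (hD : IsDrawing 1 S G) :
    ((dz S G).card : ℝ) ≤ 6 * S.card - Real.sqrt S.card / 6 := by
  classical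
  obtain ⟨T, hT, hle⟩ := exists_triangulation (pg_plane hD)
  obtain ⟨s, t, hgen⟩ := exists_grid S
  have e10 := card_exc hD
  exact arith (euler hT hS) (dz_card hD hT hle) (card_cor hD) (card_kk hD)
    (darts_card hD hT s t) (nice_lower hD hT hle) (nice_upper hD hT hle hgen) (bd_card hT)
    (fat_card hD hT hgen) (by omega) (Finset.card_le_card (darts_sub hT.1))

theorem edge_bound (S : Finset Pt) (G : SimpleGraph Pt) (hD : IsDrawing 1 S G) :
    (G.edgeSet.ncard : ℝ) ≤ 3 * S.card - Real.sqrt S.card / 12 := by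
  have h := ncard_edgeSet hD
  have h' : (2 : ℝ) * G.edgeSet.ncard = (dz S G).card := by exact_mod_cast h
  rcases S.eq_empty_or_nonempty with rfl | hS
  · have : (dz ∅ G).card = 0 := by
      unfold dz
      simp
    rw [this] at h'
    simp at h' ⊢
    exact_mod_cast h'
  · have := dz_bound hS hD
    linarith

/-- A 1-planar unit distance graph with `n` vertices has at most `3 n - √n / 12` edges, and so
`u 1 n ≤ 3 n - √n / 12` for every `n`. -/
theorem main : (∀ (S : Finset (ℝ × ℝ)) (G : SimpleGraph (ℝ × ℝ)), IsDrawing 1 S G →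
      (G.edgeSet.ncard : ℝ) ≤ 3 * S.card - Real.sqrt S.card / 12) ∧
    ∀ n : ℕ, (u 1 n : ℝ) ≤ 3 * n - Real.sqrt n / 12 := by
  refine ⟨edge_bound, fun n => u_le ?_⟩
  intro S G hn hD
  have := edge_bound S G hD
  rw [hn] at this
  exact this

end Pool.Agent.UDG
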