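import Pool.Agent.UDG.Bas

/-!
Module Grd: a generic grid.
-/

namespace Pool.Agent.UDG

open Pool.Agent.AreaTri

variable {S : Finset Pt} {G T : SimpleGraph Pt}

/-- First choose `s` outside of a countable set (the numbers `p.1 - 2/5 i`), then `t` outside of a
countable set: the numbers `p.2 - 2/5 j`, and for `p ≠ q` with `p.1 ≠ q.1` the numbers `t` with
`orient p q (grid s t i j) = 0` (one for each `i`, `j`). If `p.1 = q.1` then `orient p q (grid s t i j) = 0` would
give `s + 2/5 i = p.1`. -/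
theorem exists_grid (S : Finset Pt) : ∃ s t : ℝ, Generic S s t := by
  have hA : (⋃ p ∈ (S : Set Pt), ⋃ i : ℤ, ({p.1 - 2 / 5 * (i : ℝ)} : Set ℝ)).Countable :=
    Set.Countable.biUnion S.countable_toSet
      (fun p _ => Set.countable_iUnion (fun i => Set.countable_singleton _))
  obtain ⟨s, hs⟩ := (hA.dense_compl ℝ).nonempty
  have hs' : ∀ p ∈ S, ∀ i : ℤ, s ≠ p.1 - 2 / 5 * (i : ℝ) := by
    intro p hp i h
    apply hs
    simp only [Set.mem_iUnion, Set.mem_singleton_iff]
    exact ⟨p, hp, i, h⟩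
  have hB : (⋃ p ∈ (S : Set Pt), ⋃ q ∈ (S : Set Pt), ⋃ i : ℤ, ⋃ j : ℤ,
      ({p.2 - 2 / 5 * (j : ℝ),
        p.2 + (q.2 - p.2) * (s + 2 / 5 * (i : ℝ) - p.1) / (q.1 - p.1) - 2 / 5 * (j : ℝ)} :
          Set ℝ)).Countable :=
    Set.Countable.biUnion S.countable_toSet
      (fun p _ => Set.Countable.biUnion S.countable_toSet
        (fun q _ => Set.countable_iUnion (fun i => Set.countable_iUnion (fun j =>
          (Set.countable_singleton _).insert _))))
  obtain ⟨t, ht⟩ := (hB.dense_compl ℝ).nonempty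
  have ht' : ∀ p ∈ S, ∀ q ∈ S, ∀ i j : ℤ, t ≠ p.2 - 2 / 5 * (j : ℝ) ∧
      t ≠ p.2 + (q.2 - p.2) * (s + 2 / 5 * (i : ℝ) - p.1) / (q.1 - p.1) - 2 / 5 * (j : ℝ) := by
    intro p hp q hq i j
    constructor
    · intro h
      apply ht
      simp only [Set.mem_iUnion]
      exact ⟨p, hp, q, hq, i, j, Or.inl h⟩
    · intro h
      apply ht
      simp only [Set.mem_iUnion]
      exact ⟨p, hp, q, hq, i, j, Or.inr h⟩
  refine ⟨s, t, ?_, ?_, ?_⟩
  · intro p hp q hq hpq i j h0
    unfold orient grid at h0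
    simp only at h0
    by_cases h1 : q.1 = p.1
    · have h2 : q.2 - p.2 ≠ 0 := by
        intro h
        apply hpq
        exact Prod.ext h1.symm (by linarith)
      have h3 : (q.2 - p.2) * (s + 2 / 5 * (i : ℝ) - p.1) = 0 := by
        rw [h1] at h0; linarith
      rcases mul_eq_zero.1 h3 with h | h
      · exact h2 h
      · exact hs' p hp i (by linarith)
    · have h1' : q.1 - p.1 ≠ 0 := sub_ne_zero.2 h1
      apply (ht' p hp q hq i j).2
      rw [eq_sub_iff_add_eq, ← sub_eq_iff_eq_add', eq_div_iff h1']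
      linarith
  · intro p hp i h
    exact hs' p hp i (by linarith)
  · intro p hp j h
    exact (ht' p hp p hp 0 j).1 (by linarith)

theorem card_le_three (s a b : ℝ) (hab : b - a ≤ 1) (I : Finset ℤ)
    (h : ∀ i ∈ I, a < s + 2 / 5 * (i : ℝ) ∧ s + 2 / 5 * (i : ℝ) < b) : I.card ≤ 3 := by
  rcases I.eq_empty_or_nonempty with rfl | hne
  · simp
  · have hsub : I ⊆ Finset.Icc (I.min' hne) (I.min' hne + 2) := by
      intro i hi
      rw [Finset.mem_Icc]
      refine ⟨I.min'_le i hi, ?_⟩
      by_contra hlt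
      have h3 : I.min' hne + 3 ≤ i := by omega
      have h4 : ((I.min' hne : ℤ) : ℝ) + 3 ≤ (i : ℝ) := by exact_mod_cast h3
      have h5 := (h _ (I.min'_mem hne)).1
      have h6 := (h i hi).2
      linarith
    calc I.card ≤ (Finset.Icc (I.min' hne) (I.min' hne + 2)).card := Finset.card_le_card hsub
      _ = 3 := by rw [Int.card_Icc]; omega

/-- Double counting of the pairs `(i, e)` such that `s + 2/5 i` is strictly between `x e` and `y e`:
every `i ∈ I` is in at least two of them (one `e` with `x e < y e` and one with `y e < x e`), and every `e` is in at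
most three of them (an open interval of length at most `1` contains at most three
points `s + 2/5 i`). -/
theorem strip {ι : Type*} (B : Finset ι) (x y : ι → ℝ) (s : ℝ) (hB : ∀ e ∈ B, |y e - x e| ≤ 1)
    (I : Finset ℤ) (h1 : ∀ i ∈ I, ∃ e ∈ B, x e < s + 2 / 5 * i ∧ s + 2 / 5 * i < y e)
    (h2 : ∀ i ∈ I, ∃ e ∈ B, y e < s + 2 / 5 * i ∧ s + 2 / 5 * i < x e) :
    2 * I.card ≤ 3 * B.card := by
  classical
  have key := Finset.card_mul_le_card_mul (s := I) (t := B)
    (r := fun (i : ℤ) (e : ι) => min (x e) (y e) < s + 2 / 5 * (i : ℝ) ∧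
      s + 2 / 5 * (i : ℝ) < max (x e) (y e)) (m := 2) (n := 3) ?_ ?_
  · linarith
  · intro i hi
    obtain ⟨e, he, he1, he2⟩ := h1 i hi
    obtain ⟨f, hf, hf1, hf2⟩ := h2 i hi
    have hne : e ≠ f := by
      rintro rfl
      linarith
    have hsub : ({e, f} : Finset ι) ⊆ Finset.bipartiteAbove (fun (i : ℤ) (e : ι) =>
        min (x e) (y e) < s + 2 / 5 * (i : ℝ) ∧ s + 2 / 5 * (i : ℝ) < max (x e) (y e)) B i := by
      intro g hg
      rw [Finset.mem_bipartiteAbove]
      rcases Finset.mem_insert.1 hg with rfl | hg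
      · exact ⟨he, lt_of_le_of_lt (min_le_left _ _) he1, lt_of_lt_of_le he2 (le_max_right _ _)⟩
      · rw [Finset.mem_singleton.1 hg]
        exact ⟨hf, lt_of_le_of_lt (min_le_right _ _) hf1, lt_of_lt_of_le hf2 (le_max_left _ _)⟩
    calc 2 = ({e, f} : Finset ι).card := (Finset.card_pair hne).symm
      _ ≤ _ := Finset.card_le_card hsub
  · intro e he
    apply card_le_three s (min (x e) (y e)) (max (x e) (y e))
    · rw [max_sub_min_eq_abs]
      exact hB e he
    · intro i hi
      exact ((Finset.mem_bipartiteBelow _).1 hi).2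

end Pool.Agent.UDG
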