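import Pool.Agent.UDG.VAv
import Pool.Agent.UDG.Kep

/-!
Module Inj: different corners have different directed segments.
-/

namespace Pool.Agent.UDG

open Pool.Agent.AreaTri

variable {S : Finset Pt} {G T : SimpleGraph Pt}

private theorem inj_aux (hD : IsDrawing 1 S G) {a b c d v b' : Pt} (h : PX G a b c d)
    (hv : AV S a b c d v) (hab' : G.Adj a b') (hl : 0 < orient a b' v)
    (hpos : 0 < orient a b b') : False := by
  have hmem : b' ∈ S := hD.mem _ _ hab'.symm
  have h1 : orient a v b' < 0 := by
    rw [orient_swap]; linarith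
  have h2 : 0 ≤ orient a v c := by
    rw [orient_swap]; linarith [hv.ac]
  have hpl := pluecker a b v c b'
  have h3 : orient a c b' < 0 := by
    by_contra hc
    push Not at hc
    have e1 : 0 ≤ orient a b v * orient a c b' := mul_nonneg hv.left.le hc
    have e2 : orient a b c * orient a v b' < 0 := mul_neg_of_pos_of_neg h.c_left h1
    have e3 : 0 ≤ orient a b b' * orient a v c := mul_nonneg hpos.le h2
    linarith
  have h4 : 0 < orient c d b' := by
    by_contra hc
    push Not at hc
    have := hv.min b' hmem hpos hc h3.le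
    linarith
  have h5 := h.a_right
  have hden : 0 < orient c d b' - orient c d a := by linarith
  obtain ⟨τ, hτ⟩ : ∃ τ, τ = - orient c d a / (orient c d b' - orient c d a) := ⟨_, rfl⟩
  have hτ0 : 0 < τ := by rw [hτ]; exact div_pos (by linarith) hden
  have hτ1 : τ < 1 := by rw [hτ, div_lt_one hden]; linarith
  have hτe : τ * (orient c d b' - orient c d a) = - orient c d a := by
    rw [hτ]; exact div_mul_cancel₀ _ hden.ne'
  obtain ⟨y, hy⟩ : ∃ y, y = (a.1 + τ * (b'.1 - a.1), a.2 + τ * (b'.2 - a.2)) := ⟨_, rfl⟩
  have hon : On τ a b' y := by rw [hy]; exact on_mk τ a b'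
  have hcd0 : orient c d y = 0 := by
    rw [hon.orient c d]
    linarith
  obtain ⟨s, hs⟩ := exists_on h.cd.ne hcd0
  have e1 := hon.orient a b
  have e2 := hs.orient a b
  have e3 := hon.orient a c
  have e4 := hs.orient a c
  rw [orient_self'] at e1 e3
  rw [orient_self] at e4
  have hacd : orient a c d < 0 := by rw [← orient_cyc]; exact h.a_right
  have hs1 : s < 1 := by
    by_contra hc
    push Not at hc
    have f1 : 0 < τ * orient a b b' := mul_pos hτ0 hpos
    have f2 : 0 ≤ (s - 1) * orient a b c := mul_nonneg (by linarith) h.c_left.le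
    have f3 : s * orient a b d < 0 := mul_neg_of_pos_of_neg (by linarith) h.d_right
    linarith
  have hs0 : 0 < s := by
    by_contra hc
    push Not at hc
    have f1 : τ * orient a c b' < 0 := mul_neg_of_pos_of_neg hτ0 h3
    have f2 : 0 ≤ s * orient a c d := mul_nonneg_of_nonpos_of_nonpos hc hacd.le
    linarith
  have hne : s(a, b') ≠ s(c, d) := by
    intro he
    rcases Sym2.eq_iff.1 he with ⟨g1, _⟩ | ⟨g1, _⟩
    · exact h.ca g1.symm
    · exact h.da g1.symm
  have hm := meet_unique hD h.rot hab' hne (mem_oseg_on.2 ⟨s, hs0, hs1, hs⟩)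
    (mem_oseg_on.2 ⟨τ, hτ0, hτ1, hon⟩)
  rcases Sym2.eq_iff.1 hm with ⟨g1, _⟩ | ⟨_, g2⟩
  · exact h.ab.ne g1
  · rw [g2] at hpos
    simp at hpos

/-- Suppose `b ≠ b'`. As `orient a b v > 0` and `orient a b' v > 0`, the points `b`, `b'` are both strictly
to the right of `a → v`. If `orient a b b' = 0` then `b = b'`, because both have distance `1` from `a` and
they are on the same side of `a`. If `orient a b b' > 0`: then `b' ∈ S` is not in the triangle
of the corner `(a, b, c, d)`, since `orient a v b' < 0` (`hv.min`); `orient a c b' < 0` by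
`pluecker a b v c b'` (`orient a v c ≥ 0`), so `orient c d b' > 0`. So `a b'` crosses the line `c d` in the
point `y = a + τ (b' - a)`, `0 < τ < 1`, and `y = c + s (d - c)`; `orient a b y = τ orient a b b' > 0` gives
`s < 1`, and `orient a c y = τ orient a c b' < 0`, `orient a c y = s orient a c d`,
`orient a c d = orient c d a < 0` gives `s > 0`. So the edge `a b'` meets the edge `c d`; by `meet_unique` for
`h.rot` `s(a, b') = s(b, a)`, so `b' = b`. If `orient a b b' < 0` exchange the roles (`orient a b' b > 0`).
With `b = b'` the rest is `px_unique`. -/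
theorem corner_inj (hD : IsDrawing 1 S G) {a b c d v b' c' d' : Pt} (h : PX G a b c d)
    (hv : AV S a b c d v) (h' : PX G a b' c' d') (hv' : AV S a b' c' d' v) :
    b = b' ∧ c = c' ∧ d = d' := by
  have hb : b = b' := by
    rcases lt_trichotomy (orient a b b') 0 with hlt | heq | hgt
    · exfalso
      refine inj_aux hD h' hv' h.ab hv.left ?_
      rw [orient_swap]; linarith
    · obtain ⟨t, ht⟩ := exists_on h.ab.ne heq
      have hov : orient a b' v = t * orient a b v := by
        unfold orient
        rw [ht.1, ht.2]; ring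
      have ht0 : 0 < t := by
        by_contra hc
        push Not at hc
        have f1 := mul_nonpos_of_nonpos_of_nonneg hc hv.left.le
        have f2 := hv'.left
        linarith
      have hd1 := hD.unit _ _ h.ab
      have hd2 := hD.unit _ _ h'.ab
      have hdd : dsq a b' = t ^ 2 * dsq a b := by
        unfold dsq
        rw [ht.1, ht.2]; ring
      rw [hd1, hd2] at hdd
      have ht1 : t = 1 := by nlinarith
      subst ht1
      exact (ht.ext On.one).symm
    · exact (inj_aux hD h hv h'.ab hv'.left hgt).elim
  subst hb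
  exact ⟨rfl, px_unique hD h h'⟩

/-- `del S` is injective on `sc S G` (`corner_inj`, `vf_spec`), and its values have length less than
one (`av_short`), so they are not in `dz S (kept G)`. -/
theorem card_gd (hD : IsDrawing 1 S G) :
    (gd S G).card = (dz S (kept G)).card + (sc S G).card := by
  classical
  have hinj : Set.InjOn (del S) (sc S G : Set (Pt × Pt × Pt × Pt)) := by
    rintro ⟨a, b, c, d⟩ hk ⟨a', b', c', d'⟩ hk' he
    have h1 := ((mem_sc hD).1 hk).1
    have h2 := ((mem_sc hD).1 hk').1
    dsimp only at h1 h2
    have e1 : vf S (a, b, c, d) = vf S (a', b', c', d') := congrArg Prod.fst he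
    have e2 : a = a' := congrArg Prod.snd he
    subst e2
    have v1 := vf_spec hD h1
    have v2 := vf_spec hD h2
    rw [← e1] at v2
    obtain ⟨f1, f2, f3⟩ := corner_inj hD h1 v1 h2 v2
    rw [f1, f2, f3]
  have hdis : Disjoint (dz S (kept G)) ((sc S G).image (del S)) := by
    rw [Finset.disjoint_left]
    intro e he he'
    obtain ⟨⟨a, b, c, d⟩, hk, rfl⟩ := Finset.mem_image.1 he'
    obtain ⟨h1, h2⟩ := (mem_sc hD).1 hk
    dsimp only at h1 h2
    have h3 := av_short hD h1 h2 (vf_spec hD h1)
    have h4 := hD.unit _ _ ((mem_dz_kept hD).1 he).1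
    have h5 : dsq (vf S (a, b, c, d)) a = 1 := h4
    rw [dsq_comm] at h5
    linarith
  have hgd : gd S G = dz S (kept G) ∪ (sc S G).image (del S) := by
    ext e
    rw [mem_gd, Finset.mem_union, Finset.mem_image]
  rw [hgd, Finset.card_union_of_disjoint hdis, Finset.card_image_of_injOn hinj]

end Pool.Agent.UDG
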