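import Pool.Agent.UDG.Bas

/-!
Module Mid: counting middle vertices of the triangles of a triangulation.
-/

namespace Pool.Agent.UDG

open Pool.Agent.AreaTri

variable {S : Finset Pt} {G T : SimpleGraph Pt}

open Classical in
/-- Let `U` be the set of all `e = (v, q) ∈ dz S T` with `lin v < lin q` and
(`e ∉ darts S T` or `lin (third v q) < lin v`); the sum on the left is `|U| + 1`. Let `m ∈ S` have the
largest `lin`. The map `e ↦ e.1` is a bijection of `U` and `S.erase m`.
* onto: for `v ≠ m` there is a neighbour `d` with `lin v < lin d` (`wedge` with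
  `b = (v.1 + β, v.2 - α)`, `lin_orient`); let `q` be such a neighbour of maximal angle
  (`exists_max_angle`, exactly as in the proof of `mid_exists` in `AreaTri/Count.lean`). If `(v, q)` is
  a dart then `c = third v q` is a neighbour of `v` with `0 < orient v q c`, so `lin v < lin c` is
  impossible by maximality, and `lin c ≠ lin v` by `hinj`.
* one-to-one: let `(v, q), (v, q') ∈ U`, `q ≠ q'`. By `same_dir` `orient v q q' ≠ 0`, let
  `orient v q q' > 0`. Then `apex` gives a face `v q c`, so `(v, q) ∈ darts`, `third v q = c`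
  (`third_eq`) and `lin c < lin v` since `(v, q) ∈ U`. Now `no_between` gives a contradiction, as in
  the step `key` of the proof of `mid_unique`. -/
theorem mid_count (hT : IsTriangulation S T) (hS : S.Nonempty) (α β : ℝ)
    (hinj : ∀ p ∈ S, ∀ q ∈ S, lin α β p = lin α β q → p = q) :
    ((darts S T).filter (fun e => lin α β (third S T e.1 e.2) < lin α β e.1 ∧
        lin α β e.1 < lin α β e.2)).card +
      ((dz S T \ darts S T).filter (fun e => lin α β e.1 < lin α β e.2)).card + 1 = S.card := by
  classical
  have hpl := hT.1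
  set F1 := (darts S T).filter (fun e => lin α β (third S T e.1 e.2) < lin α β e.1 ∧
        lin α β e.1 < lin α β e.2) with hF1
  set F2 := (dz S T \ darts S T).filter (fun e => lin α β e.1 < lin α β e.2) with hF2
  obtain ⟨m, hm, hmax⟩ := S.exists_max_image (lin α β) hS
  have hdisj : Disjoint F1 F2 := by
    rw [Finset.disjoint_left]
    intro e h1 h2
    have h1' := (Finset.mem_filter.1 h1).1
    have h2' := (Finset.mem_sdiff.1 (Finset.mem_filter.1 h2).1).2
    exact h2' h1'
  -- membership
  have hU : ∀ e ∈ F1 ∪ F2, T.Adj e.1 e.2 ∧ lin α β e.1 < lin α β e.2 ∧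
      (e ∈ darts S T → lin α β (third S T e.1 e.2) < lin α β e.1) := by
    intro e he
    rcases Finset.mem_union.1 he with h | h
    · obtain ⟨h1, h2, h3⟩ := Finset.mem_filter.1 h
      exact ⟨(third_spec hpl h1).1.ab, h3, fun _ => h2⟩
    · obtain ⟨h1, h2⟩ := Finset.mem_filter.1 h
      obtain ⟨h3, h4⟩ := Finset.mem_sdiff.1 h1
      exact ⟨(mem_dz_plane hpl).1 h3, h2, fun h5 => (h4 h5).elim⟩
  have key : ∀ v q q' : Pt, (v, q) ∈ F1 ∪ F2 → (v, q') ∈ F1 ∪ F2 → 0 < orient v q q' → False := by
    intro v q q' h h' hpos
    obtain ⟨a1, a2, a3⟩ := hU _ h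
    obtain ⟨b1, b2, b3⟩ := hU _ h'
    simp only at a1 a2 a3 b1 b2 b3
    obtain ⟨c, hc, hcpos, -⟩ := apex hT a1 (hpl.mem _ _ b1.symm) hpos
    have hmem : (v, q) ∈ darts S T := (mem_darts hpl).2 ⟨c, hc, hcpos⟩
    have hlt := a3 hmem
    rw [third_eq hpl hc hcpos] at hlt
    refine no_between hpl hc hcpos b1 hpos ?_
    have id : (lin α β q - lin α β v) * orient v q' c =
        (lin α β q' - lin α β v) * orient v q c - (lin α β c - lin α β v) * orient v q q' := by
      unfold orient lin; ring
    have h1 : 0 < (lin α β q' - lin α β v) * orient v q c := mul_pos (by linarith) hcpos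
    have h2 : (lin α β c - lin α β v) * orient v q q' < 0 :=
      mul_neg_of_neg_of_pos (by linarith) hpos
    have h3 : 0 < (lin α β q - lin α β v) * orient v q' c := by rw [id]; linarith
    by_contra hcon
    push Not at hcon
    have := mul_nonpos_of_nonneg_of_nonpos (show 0 ≤ lin α β q - lin α β v by linarith) hcon
    linarith
  have hcard : (F1 ∪ F2).card = (S.erase m).card := by
    refine Finset.card_bij (fun e _ => e.1) ?_ ?_ ?_
    · intro e he
      obtain ⟨h1, h2, -⟩ := hU e he
      refine Finset.mem_erase.2 ⟨?_, hpl.mem _ _ h1⟩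
      intro h
      have := hmax e.2 (hpl.mem _ _ h1.symm)
      rw [h] at h2
      linarith
    · rintro ⟨v, q⟩ he ⟨v', q'⟩ he' h
      simp only at h
      subst h
      obtain ⟨a1, a2, -⟩ := hU _ he
      obtain ⟨b1, b2, -⟩ := hU _ he'
      simp only at a1 a2 b1 b2
      have : q = q' := by
        rcases lt_trichotomy (orient v q q') 0 with h | h | h
        · exact (key v q' q he' he (by rw [orient_swap]; linarith)).elim
        · exact same_dir hpl (b := (v.1 + β, v.2 - α)) a1 b1 (by rw [lin_orient]; linarith)
            (by rw [lin_orient]; linarith) h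
        · exact (key v q q' he he' h).elim
      rw [this]
    · intro v hv
      obtain ⟨hvm, hvS⟩ := Finset.mem_erase.1 hv
      have hlt : lin α β v < lin α β m := by
        rcases (hmax v hvS).lt_or_eq with h | h
        · exact h
        · exact (hvm (hinj v hvS m hm h)).elim
      obtain ⟨d, hd, hd'⟩ := wedge hT (a := v) (b := (v.1 + β, v.2 - α)) hvS hm
        (by rw [lin_orient]; linarith)
      rw [lin_orient] at hd'
      obtain ⟨q, hqN, hqmax, -⟩ := exists_max_angle
        (S.filter (fun d => T.Adj v d ∧ lin α β v < lin α β d))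
        ⟨d, Finset.mem_filter.2 ⟨hpl.mem _ _ hd.symm, hd, by linarith⟩⟩ v (v.1 + β, v.2 - α)
        (fun p hp => by rw [lin_orient]; linarith [(Finset.mem_filter.1 hp).2.2])
      obtain ⟨hqS, hvq, hq⟩ := Finset.mem_filter.1 hqN
      refine ⟨(v, q), ?_, rfl⟩
      by_cases hdart : (v, q) ∈ darts S T
      · obtain ⟨hf, hpos⟩ := third_spec hpl hdart
        simp only at hf hpos
        refine Finset.mem_union_left _ (Finset.mem_filter.2 ⟨hdart, ?_, hq⟩)
        show lin α β (third S T v q) < lin α β v
        have hcS : third S T v q ∈ S := hpl.mem _ _ hf.ca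
        by_contra hcon
        push Not at hcon
        rcases eq_or_lt_of_le hcon with h | h
        · exact hf.ca.ne (hinj _ hcS v hvS h.symm)
        · have := hqmax _ (Finset.mem_filter.2 ⟨hcS, hf.ca.symm, h⟩)
          linarith
      · refine Finset.mem_union_right _ (Finset.mem_filter.2 ⟨Finset.mem_sdiff.2
          ⟨(mem_dz_plane hpl).2 hvq, hdart⟩, hq⟩)
  rw [← Finset.card_union_of_disjoint hdisj, hcard]
  exact Finset.card_erase_add_one hm

end Pool.Agent.UDG
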