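import Pool.Agent.UDG.NoE

/-!
Module NCr: the segments a v are not crossed.
-/

namespace Pool.Agent.UDG

open Pool.Agent.AreaTri

variable {S : Finset Pt} {G T : SimpleGraph Pt}

/-- No edge of `G` meets the segment `a v` of a short corner. Let `z` be a common point. One has
`orient a b z > 0` and `orient c d z < 0`, so `s(u, w)` is neither `s(a, b)` nor `s(c, d)`.
If `orient a v u < 0`: by `no_enter`, `u w` meets `a b` or `c d`, but then
`meet_unique` (for `h` or for `h.rot`) says that `s(u, w)` is `s(c, d)` or `s(b, a)`, contradiction.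
If `orient a v u > 0` then `orient a v w < 0` and the same holds with `u`, `w` exchanged. If
`orient a v u = 0` then `orient a v w = 0` and `overlap_eq` (with `av_free`) gives
`s(u, w) = s(a, v)`, but `dsq u w = 1` and `dsq a v < 1` (`av_short`). -/
theorem nc1 (hD : IsDrawing 1 S G) {a b c d v u w z : Pt} (h : PX G a b c d)
    (hs : dsq a c < 1) (hv : AV S a b c d v) (huw : G.Adj u w) (hz : z ∈ openSegment ℝ u w)
    (hz' : z ∈ openSegment ℝ a v) : False := by
  obtain ⟨t, ht0, ht1, ht⟩ := mem_oseg_on.1 hz'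
  have z1 := ht.orient a b
  have z2 := ht.orient c d
  have z3 := ht.orient a v
  simp only [orient_self, orient_self', mul_zero, add_zero, zero_add] at z1 z3
  have hf0 : 0 < orient a b z := by rw [z1]; exact mul_pos ht0 hv.left
  have hg0 : 0 < - orient c d z := by
    rw [z2]
    have h1 := mul_pos (by linarith : (0 : ℝ) < 1 - t) (by linarith [h.a_right] :
      (0 : ℝ) < - orient c d a)
    have h2 := mul_nonneg ht0.le (by linarith [hv.cd] : (0 : ℝ) ≤ - orient c d v)
    linarith
  -- an open segment that contains `z` is not on the lines of the two edges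
  have onl : ∀ p q, z ∈ openSegment ℝ p q → orient p q z = 0 := by
    intro p q hpq
    obtain ⟨r, _, _, hr⟩ := mem_oseg_on.1 hpq
    have := hr.orient p q
    simpa using this
  have main : ∀ u w, G.Adj u w → z ∈ openSegment ℝ u w → 0 ≤ orient a v u := by
    intro u w huw hz
    by_contra hneg
    push Not at hneg
    have n1 : s(u, w) ≠ s(a, b) := by
      intro he
      have : z ∈ openSegment ℝ a b := by
        rcases Sym2.eq_iff.1 he with ⟨e1, e2⟩ | ⟨e1, e2⟩
        · rw [← e1, ← e2]; exact hz
        · rw [← e1, ← e2]; exact oseg_symm.1 hz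
      have := onl _ _ this
      linarith
    have n2 : s(u, w) ≠ s(c, d) := by
      intro he
      have : z ∈ openSegment ℝ c d := by
        rcases Sym2.eq_iff.1 he with ⟨e1, e2⟩ | ⟨e1, e2⟩
        · rw [← e1, ← e2]; exact hz
        · rw [← e1, ← e2]; exact oseg_symm.1 hz
      have := onl _ _ this
      linarith
    obtain ⟨y, hy, hy' | hy'⟩ := no_enter hD h hv (hD.mem _ _ huw) hz hz' hneg
    · exact n2 (meet_unique hD h huw n1 hy' hy)
    · have := meet_unique hD h.rot huw n2 hy' hy
      rw [Sym2.eq_swap (a := b)] at this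
      exact n1 this
  have hu := main u w huw hz
  have hw := main w u huw.symm (oseg_symm.1 hz)
  obtain ⟨σ, hσ0, hσ1, hσ⟩ := mem_oseg_on.1 hz
  have e := hσ.orient a v
  rw [z3] at e
  have hu0 : orient a v u = 0 := by
    by_contra hne
    have h1 := mul_pos (by linarith : (0 : ℝ) < 1 - σ) (lt_of_le_of_ne hu (Ne.symm hne))
    have h2 := mul_nonneg hσ0.le hw
    linarith
  have hw0 : orient a v w = 0 := by
    by_contra hne
    have h1 := mul_nonneg (by linarith : (0 : ℝ) ≤ 1 - σ) hu
    have h2 := mul_pos hσ0 (lt_of_le_of_ne hw (Ne.symm hne))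
    linarith
  have heq := overlap_eq (hD.mem _ _ h.ab) hv.mem (hD.mem _ _ huw) (hD.mem _ _ huw.symm)
    (av_free h hv) (hD.free _ _ huw) hz' hz (av_ne hv).symm hu0 hw0
  have h1 := hD.unit _ _ huw
  have h2 := av_short hD h hs hv
  rcases Sym2.eq_iff.1 heq with ⟨e1, e2⟩ | ⟨e1, e2⟩
  · rw [e1, e2] at h1; linarith
  · rw [e1, e2, dsq_comm] at h1; linarith

/-- Two different segments of short corners are disjoint: otherwise let `z` be a common point. If
`orient a v a' < 0` or `orient a v v' < 0` then by `no_enter` for the corner `a b c d` the segment `a' v'`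
meets the edge `a b` or `c d`, in contradiction to `nc1` for the corner `a' b' c' d'`. Otherwise
both are zero (since `orient a v z = 0`) and `overlap_eq` applies. -/
theorem nc2 (hD : IsDrawing 1 S G) {a b c d v a' b' c' d' v' z : Pt} (h : PX G a b c d)
    (hs : dsq a c < 1) (hv : AV S a b c d v) (h' : PX G a' b' c' d') (hs' : dsq a' c' < 1)
    (hv' : AV S a' b' c' d' v') (hz : z ∈ openSegment ℝ a v) (hz' : z ∈ openSegment ℝ a' v') :
    s(a, v) = s(a', v') := by
  obtain ⟨t, ht0, ht1, ht⟩ := mem_oseg_on.1 hz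
  have z3 := ht.orient a v
  simp only [orient_self, orient_self', mul_zero, add_zero] at z3
  have main : ∀ p q, p ∈ S → z ∈ openSegment ℝ p q → s(p, q) = s(a', v') →
      0 ≤ orient a v p := by
    intro p q hp hzp he
    by_contra hneg
    push Not at hneg
    obtain ⟨y, hy, hy'⟩ := no_enter hD h hv hp hzp hz hneg
    have hya : y ∈ openSegment ℝ a' v' := by
      rcases Sym2.eq_iff.1 he with ⟨e1, e2⟩ | ⟨e1, e2⟩
      · rw [← e1, ← e2]; exact hy
      · rw [← e1, ← e2]; exact oseg_symm.1 hy
    rcases hy' with hy' | hy'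
    · exact nc1 hD h' hs' hv' h.ab hy' hya
    · exact nc1 hD h' hs' hv' h.cd hy' hya
  have ha' : a' ∈ S := hD.mem _ _ h'.ab
  have hu := main a' v' ha' hz' rfl
  have hw := main v' a' hv'.mem (oseg_symm.1 hz') Sym2.eq_swap
  obtain ⟨σ, hσ0, hσ1, hσ⟩ := mem_oseg_on.1 hz'
  have e := hσ.orient a v
  rw [z3] at e
  have hu0 : orient a v a' = 0 := by
    by_contra hne
    have h1 := mul_pos (by linarith : (0 : ℝ) < 1 - σ) (lt_of_le_of_ne hu (Ne.symm hne))
    have h2 := mul_nonneg hσ0.le hw
    linarith
  have hw0 : orient a v v' = 0 := by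
    by_contra hne
    have h1 := mul_nonneg (by linarith : (0 : ℝ) ≤ 1 - σ) hu
    have h2 := mul_pos hσ0 (lt_of_le_of_ne hw (Ne.symm hne))
    linarith
  exact (overlap_eq (hD.mem _ _ h.ab) hv.mem ha' hv'.mem (av_free h hv) (av_free h' hv')
    hz hz' (av_ne hv).symm hu0 hw0).symm

end Pool.Agent.UDG
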