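import Pool.Agent.UDG.VAv

/-!
Module NoE: a segment that crosses the segment a v comes in through a b or c d.
-/

namespace Pool.Agent.UDG

open Pool.Agent.AreaTri

variable {S : Finset Pt} {G T : SimpleGraph Pt}

/-- Here `u ∈ S` is strictly to the right of `a → v` and the open segment `u w` contains the point `z` of
the open segment `a v`. CLAIM: `u w` meets the open segment `a b` or the open segment `c d`.
Let `p τ = z + τ (u - z)`, `0 ≤ τ ≤ 1`, `f τ = orient a b (p τ)`, `g τ = - orient c d (p τ)`.
Then `f 0 > 0` and `g 0 > 0` (`z` is strictly between `a` and `v`, `orient c d a < 0`,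
`orient c d v ≤ 0`, `0 < orient a b v`), and `orient a v (p τ) = τ orient a v u < 0` for `τ > 0`.
* It is impossible that `f 1 > 0` and `g 1 ≥ 0`: by `pluecker a b v c u`, `orient a c u < 0`
  (as `orient a v c ≥ 0`), so `hv.min u` contradicts `orient a v u < 0`.
* So there is `τ ∈ (0, 1]` with `f τ ≥ 0`, `g τ ≥ 0` and (`f τ = 0` or `g τ = 0`) (`exit_param` in
  `AreaTri/Apex.lean`; if `f 1 > 0`, then `g 1 < 0`). Let `y = p τ`, `orient a v y < 0`.
  - if `f τ = 0`: `y = a + s (b - a)` (`exists_on`), `orient a v y = s orient a v b < 0` gives `s > 0`, and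
    `0 ≥ orient c d y = (1 - s) orient c d a + s orient c d b` gives `s < 1`. So `y` is in the open
    segment `a b`. If `τ < 1` then `y` is in the open segment `u w` (`On.toward`), done; if
    `τ = 1` then `y = u ∈ S` contradicts `hD.free`.
  - if `g τ = 0`: `y = c + s (d - c)`; `0 ≤ orient a b y = (1 - s) orient a b c + s orient a b d` gives
    `s < 1`; by `pluecker a b v c y`, `orient a c y < 0`, and `orient a c y = s orient a c d` with
    `orient a c d = orient c d a < 0` gives `s > 0`. So `y` is in the open segment `c d`, and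
    again `τ = 1` is impossible. -/
theorem no_enter {k : ℕ} (hD : IsDrawing k S G) {a b c d v u w z : Pt} (h : PX G a b c d)
    (hv : AV S a b c d v) (hu : u ∈ S) (hz : z ∈ openSegment ℝ u w)
    (hz' : z ∈ openSegment ℝ a v) (hneg : orient a v u < 0) :
    ∃ y, y ∈ openSegment ℝ u w ∧ (y ∈ openSegment ℝ a b ∨ y ∈ openSegment ℝ c d) := by
  obtain ⟨t, ht0, ht1, ht⟩ := mem_oseg_on.1 hz'
  have z1 := ht.orient a b
  have z2 := ht.orient c d
  have z3 := ht.orient a v
  simp only [orient_self, orient_self', mul_zero, add_zero, zero_add] at z1 z3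
  have hf0 : 0 < orient a b z := by rw [z1]; exact mul_pos ht0 hv.left
  have hg0 : 0 < - orient c d z := by
    rw [z2]
    have h1 := mul_pos (by linarith : (0 : ℝ) < 1 - t) (by linarith [h.a_right] :
      (0 : ℝ) < - orient c d a)
    have h2 := mul_nonneg ht0.le (by linarith [hv.cd] : (0 : ℝ) ≤ - orient c d v)
    linarith
  have havc : 0 ≤ orient a v c := by rw [orient_swap]; linarith [hv.ac]
  have hor : orient a b u ≤ 0 ∨ - orient c d u ≤ 0 := by
    by_contra hc
    push Not at hc
    obtain ⟨k1, k2⟩ := hc
    have hp := pluecker a b v c u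
    have h1 := mul_pos h.c_left (by linarith : (0 : ℝ) < - orient a v u)
    have h2 := mul_nonneg k1.le havc
    have h3 : orient a c u ≤ 0 := by
      by_contra hc
      push Not at hc
      have := mul_pos hv.left hc
      linarith
    have := hv.min u hu k1 (by linarith) h3
    linarith
  obtain ⟨τ, hτ0, hτ1, hf, hg, h0⟩ := exit_param hf0 hg0 hor
  obtain ⟨y, hy⟩ : ∃ y, On τ z u y := ⟨_, on_mk τ z u⟩
  have y1 := hy.orient a b
  have y2 := hy.orient c d
  have y3 := hy.orient a v
  rw [z3, mul_zero, zero_add] at y3
  have hyneg : orient a v y < 0 := by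
    rw [y3]
    have := mul_pos hτ0 (by linarith : (0 : ℝ) < - orient a v u)
    linarith
  have hy1 : 0 ≤ orient a b y := by rw [y1]; exact hf
  have hy2 : orient c d y ≤ 0 := by rw [y2]; linarith
  have fin : (y ∈ openSegment ℝ a b ∨ y ∈ openSegment ℝ c d) →
      ∃ y, y ∈ openSegment ℝ u w ∧ (y ∈ openSegment ℝ a b ∨ y ∈ openSegment ℝ c d) := by
    intro hyo
    rcases hτ1.lt_or_eq with h1 | h1
    · exact ⟨y, On.toward hz hτ0.le h1 hy, hyo⟩
    · exfalso
      subst h1
      have hyu : y = u := On.ext hy On.one
      rw [hyu] at hyo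
      rcases hyo with hyo | hyo
      · exact hD.free _ _ h.ab u hu hyo
      · exact hD.free _ _ h.cd u hu hyo
  apply fin
  rcases h0 with h0 | h0
  · left
    rw [← y1] at h0
    obtain ⟨s, hs⟩ := exists_on h.ab.ne h0
    have s1 := hs.orient a v
    have s2 := hs.orient c d
    simp only [orient_self', mul_zero, zero_add] at s1
    rw [orient_swap a b v] at s1
    have hs0 : 0 < s := by
      by_contra hc
      push Not at hc
      have := mul_nonneg (by linarith : (0 : ℝ) ≤ - s) hv.left.le
      linarith
    have hs1 : s < 1 := by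
      by_contra hc
      push Not at hc
      have h1 := mul_nonneg (by linarith : (0 : ℝ) ≤ s - 1) (by linarith [h.a_right] :
        (0 : ℝ) ≤ - orient c d a)
      have h2 := mul_pos hs0 h.b_left
      linarith
    exact mem_oseg_on.2 ⟨s, hs0, hs1, hs⟩
  · right
    have h0' : orient c d y = 0 := by rw [y2]; linarith
    obtain ⟨s, hs⟩ := exists_on h.cd.ne h0'
    have s1 := hs.orient a b
    have s2 := hs.orient a c
    simp only [orient_self, mul_zero, zero_add] at s2
    have e : orient a c d = orient c d a := (orient_cyc a c d).symm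
    rw [e] at s2
    have hs1 : s < 1 := by
      by_contra hc
      push Not at hc
      have h1 := mul_nonneg (by linarith : (0 : ℝ) ≤ s - 1) h.c_left.le
      have h2 := mul_pos (by linarith : (0 : ℝ) < s) (by linarith [h.d_right] :
        (0 : ℝ) < - orient a b d)
      linarith
    have hs0 : 0 < s := by
      by_contra hc
      push Not at hc
      have hp := pluecker a b v c y
      have h1 := mul_pos h.c_left (by linarith : (0 : ℝ) < - orient a v y)
      have h2 := mul_nonneg hy1 havc
      have h3 : 0 ≤ orient a c y := by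
        rw [s2]
        have := mul_nonneg (by linarith : (0 : ℝ) ≤ - s) (by linarith [h.a_right] :
          (0 : ℝ) ≤ - orient c d a)
        linarith
      have h4 := mul_nonneg hv.left.le h3
      linarith
    exact mem_oseg_on.2 ⟨s, hs0, hs1, hs⟩

end Pool.Agent.UDG
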