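import Pool.Agent.UDG.Ext
import Pool.Agent.UDG.Pln

/-!
Module Thd: the third vertex of a good triangle at a crossed edge.
-/

namespace Pool.Agent.UDG

open Pool.Agent.AreaTri

variable {S : Finset Pt} {G T : SimpleGraph Pt}

/-- an edge of the plane graph that meets `c d` -/
theorem gd_meet (hD : IsDrawing 1 S G) {a b c d p q y : Pt} (hx : PX G a b c d)
    (he : (p, q) ∈ gd S G) (hy : y ∈ openSegment ℝ p q) (hy' : y ∈ openSegment ℝ c d)
    (h1 : s(p, q) ≠ s(c, d)) (h2 : s(p, q) ≠ s(b, a)) : False := by
  rcases mem_gd.1 he with h | ⟨k, hk, hke⟩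
  · have hadj : G.Adj p q := ((mem_dz_kept hD).1 h).1
    exact h2 (meet_unique hD hx.rot hadj h1 hy' hy)
  · obtain ⟨hk1, hk2⟩ := (mem_sc hD).1 hk
    have hv := vf_spec hD hk1
    unfold del at hke
    have e1 : vf S k = p := congrArg Prod.fst hke
    have e2 : k.1 = q := congrArg Prod.snd hke
    subst e1
    subst e2
    exact nc1 hD hk1 hk2 hv hx.cd hy' (oseg_symm.1 hy)

/-- Let `w = third S T a b` (`third_spec`), and let `z` be the common point of `a b` and `c d` (`PX.meet`). Suppose
`c ≠ w`. By `enter_tri` there is a point `z'` of the open segment `z c` with `Ins a b w z'`. `c ∈ S` is not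
strictly inside `a b w` (`IsFace.empty`, `mem_tri_orient`), so by `exit_tri` there is `y = z' + τ (c - z')`,
`0 < τ ≤ 1`, on the boundary of `a b w`. If `τ = 1`, `y = c ∈ S`: `c` is not in an open side
(`hT.1.free`), and not a vertex. So `τ < 1` and `y` is in the open segment `c d`; it is not a vertex
(`hD.free`), so it is in an open side. It is not in `a b`, since `orient a b y > 0`. Let it be in the
open side `w a` (the case of `b w` is the same). The dart `(w, a) = nxt (nxt (a, b))` is in `gd S G`. If it is a kept edge,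
then it is an edge of `G` that meets `c d`, so `meet_unique` for `hx.rot` gives `s(w, a) = s(b, a)` or
`s(w, a) = s(c, d)`, both impossible. Otherwise it is the segment of a short corner, in
contradiction to `nc1`. -/
theorem thd (hD : IsDrawing 1 S G) (hT : IsTriangulation S T) (hle : pg S G ≤ T) {a b c d : Pt}
    (hg : Good S G T (a, b)) (hx : PX G a b c d) : third S T a b = c := by
  have hpl : IsPlane S T := hT.1
  obtain ⟨hf, hpos⟩ := third_spec hpl hg.1
  have hg2 := hg.2.2.1
  have hg3 := hg.2.2.2
  rw [nxt2 hpl hg.1] at hg3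
  unfold AreaTri.nxt at hg2
  simp only at hf hpos hg2 hg3
  generalize third S T a b = w at hf hpos hg2 hg3 ⊢
  by_contra hne
  obtain ⟨z, hz, hz'⟩ := hx.meet
  obtain ⟨τ, z1, ht0, ht1, hz1, hins⟩ := enter_tri hpos hx.c_left hz
  have hcS : c ∈ S := hD.mem _ _ hx.cd
  have hwS : w ∈ S := hpl.mem _ _ hf.ca
  have hnot : ¬ Ins a b w c := by
    rintro ⟨i1, i2, i3⟩
    have hmem : c ∈ convexHull ℝ {a, b, w} := by
      rw [mem_tri_orient hpos]
      have e1 : orient a c w = orient w a c := by unfold orient; ring
      have e2 : orient a b w = orient a b c + orient b w c + orient w a c := by unfold orient; ring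
      refine ⟨by rw [e1]; exact i3.le, i1.le, ?_⟩
      rw [e1, e2]; linarith
    rcases hf.empty c hcS hmem with h | h | h
    · exact hx.ca h
    · exact hx.cb h
    · exact hne h.symm
  obtain ⟨σ, y, hs0, hs1, hy, hbd⟩ := exit_tri hins hnot
  have hypos : 0 < orient a b y := by
    rw [hy.orient]
    have h1 : 0 ≤ (1 - σ) * orient a b z1 := mul_nonneg (by linarith) hins.1.le
    have h2 : 0 < σ * orient a b c := mul_pos hs0 hx.c_left
    linarith
  have key : (y = w ∨ y ∈ openSegment ℝ b w ∨ y ∈ openSegment ℝ w a) := by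
    rcases hbd with h | h | h | h | h | h
    · rw [h] at hypos; simp at hypos
    · rw [h] at hypos; simp at hypos
    · exact Or.inl h
    · exfalso
      obtain ⟨t, _, _, ht⟩ := mem_oseg_on.1 h
      rw [ht.orient] at hypos
      simp at hypos
    · exact Or.inr (Or.inl h)
    · exact Or.inr (Or.inr h)
  rcases eq_or_lt_of_le hs1 with hs | hs
  · have hyc : y = c := by
      subst hs
      exact hy.ext On.one
    rw [hyc] at key
    rcases key with h | h | h
    · exact hne h.symm
    · exact hpl.free _ _ hf.bc c hcS h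
    · exact hpl.free _ _ hf.ca c hcS h
  · have hycd : y ∈ openSegment ℝ c d := by
      have h1 : z1 ∈ openSegment ℝ c z := oseg_symm.1 (mem_oseg_on.2 ⟨τ, ht0, ht1, hz1⟩)
      have h2 : y ∈ openSegment ℝ c z := On.toward h1 hs0.le hs hy
      exact oseg_toward hz' (oseg_symm.1 h2)
    rcases key with h | h | h
    · rw [h] at hycd
      exact hD.free _ _ hx.cd w hwS hycd
    · refine gd_meet hD hx hg2 h hycd ?_ ?_
      · intro he
        rcases Sym2.eq_iff.1 he with ⟨h1, _⟩ | ⟨h1, _⟩
        · exact hx.cb h1.symm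
        · exact hx.db h1.symm
      · intro he
        rcases Sym2.eq_iff.1 he with ⟨_, h1⟩ | ⟨h1, h2⟩
        · rw [h1] at hpos; simp at hpos
        · rw [h2] at hpos; simp at hpos
    · refine gd_meet hD hx hg3 h hycd ?_ ?_
      · intro he
        rcases Sym2.eq_iff.1 he with ⟨_, h1⟩ | ⟨_, h1⟩
        · exact hx.da h1.symm
        · exact hx.ca h1.symm
      · intro he
        rcases Sym2.eq_iff.1 he with ⟨h1, _⟩ | ⟨h1, _⟩
        · rw [h1] at hpos; simp at hpos
        · rw [h1] at hpos; simp at hpos

end Pool.Agent.UDG
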