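import Pool.Agent.UDG.Crs

/-!
Module VAv: the point seen from a corner.
-/

namespace Pool.Agent.UDG

open Pool.Agent.AreaTri

variable {S : Finset Pt} {G T : SimpleGraph Pt}

/-- `exists_min_angle` for the set of all `p ∈ S` with `0 < orient a b p`, `orient c d p ≤ 0`,
`orient a c p ≤ 0`; it contains `c`. -/
theorem av_exists {k : ℕ} (hD : IsDrawing k S G) {a b c d : Pt} (h : PX G a b c d) :
    ∃ v, AV S a b c d v := by
  classical
  obtain ⟨v, hv, h1, h2⟩ := exists_min_angle
    (S.filter (fun p => 0 < orient a b p ∧ orient c d p ≤ 0 ∧ orient a c p ≤ 0))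
    ⟨c, Finset.mem_filter.2 ⟨hD.mem _ _ h.cd, h.c_left, by simp, by simp⟩⟩ a b
    (fun p hp => (Finset.mem_filter.1 hp).2.1)
  obtain ⟨m1, m2, m3, m4⟩ := Finset.mem_filter.1 hv
  exact ⟨v, m1, m2, m3, m4, fun p hp a1 a2 a3 => h1 p (Finset.mem_filter.2 ⟨hp, a1, a2, a3⟩),
    fun p hp a1 a2 a3 a4 => h2 p (Finset.mem_filter.2 ⟨hp, a1, a2, a3⟩) a4⟩

theorem vf_spec {k : ℕ} (hD : IsDrawing k S G) {a b c d : Pt} (h : PX G a b c d) :
    AV S a b c d (vf S (a, b, c, d)) := by
  classical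
  have hx : ∃ v, AV S a b c d v := av_exists hD h
  unfold vf
  rw [dif_pos hx]
  exact hx.choose_spec

/-- No point of `S` is in the open segment `a v`: such a point `p = a + t (v - a)` has
`orient a b p = t * orient a b v`, so it contradicts `near`. -/
theorem av_free {a b c d v : Pt} (h : PX G a b c d) (hv : AV S a b c d v) :
    ∀ p ∈ S, p ∉ openSegment ℝ a v := by
  intro p hp hpo
  obtain ⟨t, ht0, ht1, ht⟩ := mem_oseg_on.1 hpo
  have e1 := ht.orient a b
  have e2 := ht.orient c d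
  have e3 := ht.orient a c
  have e4 := ht.orient a v
  simp only [orient_self, orient_self', mul_zero, add_zero, zero_add] at e1 e3 e4
  have h1 : 0 < orient a b p := by rw [e1]; exact mul_pos ht0 hv.left
  have h2 : orient c d p ≤ 0 := by
    rw [e2]
    have := mul_nonneg (by linarith : (0 : ℝ) ≤ 1 - t) (by linarith [h.a_right] :
      (0 : ℝ) ≤ - orient c d a)
    have := mul_nonneg ht0.le (by linarith [hv.cd] : (0 : ℝ) ≤ - orient c d v)
    linarith
  have h3 : orient a c p ≤ 0 := by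
    rw [e3]
    have := mul_nonneg ht0.le (by linarith [hv.ac] : (0 : ℝ) ≤ - orient a c v)
    linarith
  have h4 := hv.near p hp h1 h2 h3 e4
  rw [e1] at h4
  have h5 := hv.left
  nlinarith

/-- Let `x` be the crossing point. `v` is in the closed triangle `a x c`, and `v ≠ a`. As
`dsq a x < 1` and `dsq a c < 1`, every point of the triangle has distance less than one from `a`:
`v - a = λ (x - a) + μ (c - a)` with `λ, μ ≥ 0`, `λ + μ ≤ 1`. (With `x = a + τ (b - a)`, `0 < τ < 1`,
`orient a b v = μ orient a b c`, `orient a c v = λ τ orient a c b`, and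
`orient c d v = (1 - λ - μ) orient c d a`.) -/
theorem av_short {k : ℕ} (hD : IsDrawing k S G) {a b c d v : Pt} (h : PX G a b c d)
    (hs : dsq a c < 1) (hv : AV S a b c d v) : dsq a v < 1 := by
  obtain ⟨x, hx, hx'⟩ := h.meet
  obtain ⟨τ, hτ0, hτ1, hτ⟩ := mem_oseg_on.1 hx
  obtain ⟨σ, hσ0, hσ1, hσ⟩ := mem_oseg_on.1 hx'
  have hDp : 0 < orient a b c := h.c_left
  obtain ⟨c1, c2⟩ := coord (ne_of_gt hDp) v
  obtain ⟨α, hα⟩ : ∃ α, α = orient a v c / orient a b c := ⟨_, rfl⟩
  obtain ⟨β, hβ⟩ : ∃ β, β = orient a b v / orient a b c := ⟨_, rfl⟩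
  rw [← hα, ← hβ] at c1 c2
  have hα0 : 0 ≤ α := by
    rw [hα]
    apply div_nonneg _ hDp.le
    rw [orient_swap]
    linarith [hv.ac]
  have hβ0 : 0 < β := by
    rw [hβ]
    exact div_pos hv.left hDp
  have e0 : 0 = (1 - τ) * orient c d a + τ * orient c d b := by
    have e1 := hτ.orient c d
    have e2 := hσ.orient c d
    simp only [orient_self, orient_self', mul_zero, add_zero] at e2
    rw [← e1, e2]
  have e1 : orient c d v = (1 - β) * orient c d a + α * (orient c d b - orient c d a) := by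
    conv_lhs => unfold orient
    rw [c1, c2]
    unfold orient
    ring
  have e2 : τ * orient c d v = orient c d a * (τ * (1 - β) - α) := by
    rw [e1]
    linear_combination (-α) * e0
  have h1 : 0 ≤ τ * (1 - β) - α := by
    by_contra hc
    push Not at hc
    have h2 := mul_pos_of_neg_of_neg h.a_right hc
    have h3 := mul_nonneg hτ0.le (by linarith [hv.cd] : (0 : ℝ) ≤ - orient c d v)
    linarith
  have hβ1 : β ≤ 1 := by
    by_contra hc
    push Not at hc
    have := mul_pos hτ0 (by linarith : (0 : ℝ) < β - 1)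
    linarith
  have hs1 : α + β ≤ 1 := by
    have := mul_nonneg (by linarith : (0 : ℝ) ≤ 1 - τ) (by linarith : (0 : ℝ) ≤ 1 - β)
    linarith
  have hu := hD.unit _ _ h.ab
  unfold dsq at hu hs ⊢
  have key : (a.1 - v.1) ^ 2 + (a.2 - v.2) ^ 2 ≤
      (α + β) * (α * ((a.1 - b.1) ^ 2 + (a.2 - b.2) ^ 2) +
        β * ((a.1 - c.1) ^ 2 + (a.2 - c.2) ^ 2)) := by
    rw [c1, c2]
    have := mul_nonneg (mul_nonneg hα0 hβ0.le)
      (add_nonneg (sq_nonneg (b.1 - c.1)) (sq_nonneg (b.2 - c.2)))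
    linarith
  rw [hu] at key
  obtain ⟨C, hC⟩ : ∃ C, C = (a.1 - c.1) ^ 2 + (a.2 - c.2) ^ 2 := ⟨_, rfl⟩
  rw [← hC] at key hs
  have k1 : α * 1 + β * C < α + β := by
    have := mul_pos hβ0 (by linarith : (0 : ℝ) < 1 - C)
    linarith
  have k2 : (α + β) * (α * 1 + β * C) < (α + β) * (α + β) :=
    mul_lt_mul_of_pos_left k1 (by linarith)
  have k3 : (α + β) * (α + β) ≤ 1 := by nlinarith
  linarith

theorem av_ne {a b c d v : Pt} (hv : AV S a b c d v) : v ≠ a := by
  rintro rfl
  have := hv.left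
  simp at this

end Pool.Agent.UDG
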